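import Pool.Agent.STP.Defs

/-!
Basic facts used by all modules (helper94 proves this file).
-/

open Cardinal Ordinal Order Set Filter

namespace Pool.Agent.STP

/-! ### the filter `near` -/

theorem near_iff {ν : Cardinal.{0}} (h : 0 < ν) {p : Cardinal.{0} → Prop} :
    (∀ᶠ b in near ν, p b) ↔ ∃ b₀ < ν, ∀ b, b₀ ≤ b → b < ν → p b := by
  have : Nonempty (Iio ν) := ⟨⟨0, h⟩⟩
  unfold near
  rw [Filter.eventually_map, Filter.eventually_atTop]
  constructor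
  · rintro ⟨⟨a, ha⟩, h1⟩
    exact ⟨a, ha, fun b hb hb' => h1 ⟨b, hb'⟩ hb⟩
  · rintro ⟨a, ha, h1⟩
    exact ⟨⟨a, ha⟩, fun b hb => h1 b hb b.2⟩

theorem near_frequently_iff {ν : Cardinal.{0}} (h : 0 < ν) {p : Cardinal.{0} → Prop} :
    (∃ᶠ b in near ν, p b) ↔ ∀ b₀ < ν, ∃ b, b₀ ≤ b ∧ b < ν ∧ p b := by
  unfold Filter.Frequently
  rw [near_iff h]
  push Not
  rfl

theorem near_neBot {ν : Cardinal.{0}} (h : 0 < ν) : (near ν).NeBot := by
  have : Nonempty (Iio ν) := ⟨⟨0, h⟩⟩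
  unfold near
  infer_instance

theorem near_lt (ν : Cardinal.{0}) : ∀ᶠ b in near ν, b < ν := by
  unfold near
  rw [Filter.eventually_map]
  exact Filter.Eventually.of_forall fun b => b.2

theorem near_ge {ν b₀ : Cardinal.{0}} (h : b₀ < ν) : ∀ᶠ b in near ν, b₀ ≤ b :=
  (near_iff (h.pos)).2 ⟨b₀, h, fun _ hb _ => hb⟩

theorem near_gt {ν b₀ : Cardinal.{0}} (hν : ∀ b < ν, succ b < ν) (h : b₀ < ν) :
    ∀ᶠ b in near ν, b₀ < b :=
  (near_ge (hν b₀ h)).mono fun _ hb => succ_le_iff.1 hb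

theorem eventually_lt_ord {ν : Cardinal.{0}} (hν : ∀ b < ν, succ b < ν) {o : Ordinal.{0}}
    (h : o < ν.ord) : ∀ᶠ b in near ν, o < b.ord :=
  (near_gt hν (lt_ord.1 h)).mono fun _ hb => lt_ord.2 hb

theorem tendsto_near {ν : Cardinal.{0}} {d : ℕ → Cardinal.{0}} (h : ∀ b < ν, ∀ᶠ i in atTop, b ≤ d i)
    (h' : ∀ i, d i < ν) : Tendsto d atTop (near ν) := by
  intro A hA
  obtain ⟨b₀, hb₀, h1⟩ := (near_iff (h' 0).pos).1 hA
  rw [Filter.mem_map]
  filter_upwards [h b₀ hb₀] with i hi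
  exact h1 _ hi (h' i)

/-! ### strict suprema -/

theorem small_of_mk_le {X : Type 1} {c : Cardinal.{0}} (h : #X ≤ up c) : Small.{0} X := by
  have h1 : #X ≤ Cardinal.lift.{1, 0} #(c.out) := by rwa [mk_out]
  have h2 : #X ≤ #(ULift.{1, 0} c.out) := by rwa [mk_uLift]
  obtain ⟨f⟩ := h2
  exact small_of_injective (β := ULift.{1,0} c.out) f.injective

theorem bdd_image {w : Set Ordinal.{0}} (hw : Small.{0} w) : BddAbove ((· + 1) '' w) := by
  have : Small.{0} ((fun x : Ordinal.{0} => x + 1) '' w) := small_image _ _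
  exact Ordinal.bddAbove_of_small

theorem lt_ssup {w : Set Ordinal.{0}} (hw : Small.{0} w) {α : Ordinal.{0}} (h : α ∈ w) :
    α < ssup w := by
  have : α + 1 ≤ ssup w := le_csSup (bdd_image hw) (mem_image_of_mem _ h)
  exact (lt_add_one α).trans_le this

theorem ssup_le {w : Set Ordinal.{0}} {a : Ordinal.{0}} (h : ∀ α ∈ w, α < a) : ssup w ≤ a := by
  unfold ssup
  apply csSup_le'
  rintro _ ⟨α, hα, rfl⟩
  exact add_one_le_of_lt (h α hα)

theorem lt_ssup_iff {w : Set Ordinal.{0}} (hw : Small.{0} w) {a : Ordinal.{0}} :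
    a < ssup w ↔ ∃ α ∈ w, a ≤ α := by
  constructor
  · intro h
    by_contra h1
    push Not at h1
    exact absurd h (not_lt.2 (ssup_le h1))
  · rintro ⟨α, hα, h⟩
    exact h.trans_lt (lt_ssup hw hα)

theorem ssup_mono {w w' : Set Ordinal.{0}} (hw' : Small.{0} w') (h : w ⊆ w') :
    ssup w ≤ ssup w' :=
  ssup_le fun _ hα => lt_ssup hw' (h hα)

theorem ssup_singleton (α : Ordinal.{0}) : ssup {α} = α + 1 := by
  simp [ssup]

theorem ssup_empty : ssup ∅ = 0 := by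
  simp [ssup]

theorem ssup_lt_of_regular {w : Set Ordinal.{0}} {c : Cardinal.{0}} (hc : c.IsRegular)
    (hw : #w < up c) (h : ∀ α ∈ w, α < c.ord) : ssup w < c.ord := by
  apply Ordinal.sSup_add_one_lt_of_lt_cof _ h
  rw [← Ordinal.lift_cof, hc.cof_ord]
  exact hw

theorem ssup_lt_of_countable {w : Set Ordinal.{0}} {c : Cardinal.{0}} (hc : c.IsRegular)
    (hc' : ℵ₀ < c) (hw : w.Countable) (h : ∀ α ∈ w, α < c.ord) : ssup w < c.ord := by
  apply ssup_lt_of_regular hc _ h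
  have h1 : #w ≤ ℵ₀ := hw.le_aleph0
  refine h1.trans_lt ?_
  have : ((ℵ₀ : Cardinal.{1})) = up ℵ₀ := by simp [up]
  rw [this]
  exact Cardinal.lift_lt.2 hc'

theorem small_Iio_inter (w : Set Ordinal.{0}) (o : Ordinal.{0}) : Small.{0} ↥(w ∩ Iio o) :=
  small_subset (inter_subset_right : w ∩ Iio o ⊆ Iio o)

/-! ### pigeonholes over a regular cardinal -/

theorem sup_bound {T : Type 1} {c : Cardinal.{0}} (hc : c.IsRegular) (hT : #T < up c)
    (g : T → Ordinal.{0}) (hg : ∀ t, g t < c.ord) : ∃ γ < c.ord, ∀ t, g t ≤ γ := by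
  have hs : #(range g) < up c := mk_range_le.trans_lt hT
  refine ⟨ssup (range g), ssup_lt_of_regular hc hs ?_, ?_⟩
  · rintro _ ⟨t, rfl⟩
    exact hg t
  · intro t
    exact (lt_ssup (small_of_mk_le hs.le) (mem_range_self t)).le

theorem pigeonhole {T : Type 1} {c : Cardinal.{0}} (hc : c.IsRegular) (hT : #T < up c)
    (f : Ordinal.{0} → T) :
    ∃ t, ∀ γ < c.ord, ∃ γ', γ ≤ γ' ∧ γ' < c.ord ∧ f γ' = t := by
  by_contra h
  push Not at h
  choose g hg1 hg2 using h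
  obtain ⟨γ, hγ, h1⟩ := sup_bound hc hT g hg1
  exact hg2 (f γ) γ (h1 _) hγ rfl

/-! ### cardinalities of sets of ordinals -/

theorem mk_Iio_ord (c : Cardinal.{0}) : #(Iio c.ord) = up c := by
  rw [Cardinal.mk_Iio_ordinal, card_ord]

theorem card_lt_of_lt_ord {α : Ordinal.{0}} {c : Cardinal.{0}} (h : α < c.ord) : α.card < c :=
  lt_ord.1 h

theorem card_le_of_lt_succ_ord {α : Ordinal.{0}} {c : Cardinal.{0}} (h : α < (succ c).ord) :
    α.card ≤ c :=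
  lt_succ_iff.1 (card_lt_of_lt_ord h)

theorem exists_isZ : ∃ z, IsZ z := by
  have key : ∀ ε : Ordinal.{0}, ∃ f : Ordinal.{0} → Ordinal.{0},
      (∀ α, α < ε → f α < ε.card.ord) ∧
      ∀ α α', α < ε → α' < ε → f α = f α' → α = α' := by
    intro ε
    have h1 : #(Iio ε) = #(Iio ε.card.ord) := by
      rw [Cardinal.mk_Iio_ordinal, Cardinal.mk_Iio_ordinal, card_ord]
    obtain ⟨e⟩ := Cardinal.eq.1 h1
    refine ⟨fun α => if h : α < ε then (e ⟨α, h⟩ : Ordinal) else 0, ?_, ?_⟩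
    · intro α hα
      simp only [hα, dif_pos]
      exact (e ⟨α, hα⟩).2
    · intro α α' hα hα' h
      simp only [hα, hα', dif_pos] at h
      have := e.injective (Subtype.ext h)
      exact congrArg Subtype.val this
  choose f h1 h2 using key
  exact ⟨f, h1, h2⟩

/-! ### consequences of the setup -/

section
variable {κ χ ν₀ μ ν : Cardinal.{0}}

theorem Setup.aleph0_le_χ (S : Setup κ χ ν₀ μ) : ℵ₀ ≤ χ := S.unc.le.trans S.kle

theorem Setup.χ_lt (S : Setup κ χ ν₀ μ) : χ < ν₀ := by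
  rw [S.pow]
  exact cantor χ

theorem Setup.κ_lt (S : Setup κ χ ν₀ μ) : κ < ν₀ := S.kle.trans_lt S.χ_lt

theorem Setup.aleph0_le_ν₀ (S : Setup κ χ ν₀ μ) : ℵ₀ ≤ ν₀ := S.aleph0_le_χ.trans S.χ_lt.le

theorem Setup.pow_χ (S : Setup κ χ ν₀ μ) : ν₀ ^ χ = ν₀ := by
  rw [S.pow, ← power_mul, mul_eq_self S.aleph0_le_χ]

theorem Setup.succ_regular (S : Setup κ χ ν₀ μ) {b : Cardinal.{0}} (hb : ν₀ ≤ b) :
    (succ b).IsRegular :=
  isRegular_succ (S.aleph0_le_ν₀.trans hb)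

theorem Setup.lim_top (S : Setup κ χ ν₀ μ) : Lim ν₀ μ μ :=
  ⟨S.lt, le_rfl, fun _ hb => S.strong.isSuccLimit.succ_lt hb⟩

theorem Lim.pos (hν : Lim ν₀ μ ν) : 0 < ν := bot_le.trans_lt hν.1

theorem Lim.aleph0_le (S : Setup κ χ ν₀ μ) (hν : Lim ν₀ μ ν) : ℵ₀ ≤ ν :=
  S.aleph0_le_ν₀.trans hν.1.le

theorem Lim.succ_regular (S : Setup κ χ ν₀ μ) (hν : Lim ν₀ μ ν) : (succ ν).IsRegular :=
  isRegular_succ (hν.aleph0_le S)

theorem Lim.card_Ico_le (S : Setup κ χ ν₀ μ) (hν : Lim ν₀ μ ν) : #(Ico ν₀ ν) ≤ up χ :=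
  (mk_le_mk_of_subset (Ico_subset_Ico_right hν.2.1)).trans S.few

theorem Lim.cof_le (S : Setup κ χ ν₀ μ) (hν : Lim ν₀ μ ν) : ν.ord.cof ≤ χ := by
  by_contra hcon
  rw [not_le] at hcon
  have h1 : #(Ico ν₀ ν) < (Cardinal.lift.{1} ν).ord.cof := by
    refine (hν.card_Ico_le S).trans_lt ?_
    rw [← Cardinal.lift_ord, ← Ordinal.lift_cof, Cardinal.lift_lt]
    exact hcon
  have h2 := Cardinal.sSup_lt_of_lt_cof_ord h1 (fun i hi => hi.2)
  have hbdd : BddAbove (Ico ν₀ ν) := ⟨ν, fun i hi => hi.2.le⟩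
  have h3 : ν₀ ≤ sSup (Ico ν₀ ν) := le_csSup hbdd ⟨le_rfl, hν.1⟩
  have h4 : succ (sSup (Ico ν₀ ν)) ≤ sSup (Ico ν₀ ν) :=
    le_csSup hbdd ⟨h3.trans (le_succ _), hν.2.2 _ h2⟩
  exact absurd h4 (not_le.mpr (lt_succ _))

theorem Lim.cof_lt (S : Setup κ χ ν₀ μ) (hν : Lim ν₀ μ ν) : ν.ord.cof < ν :=
  (hν.cof_le S).trans_lt (S.χ_lt.trans hν.1)

theorem Lim.not_regular (S : Setup κ χ ν₀ μ) (hν : Lim ν₀ μ ν) : ¬ ν.IsRegular := by
  intro h
  have := hν.cof_lt S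
  rw [h.cof_ord] at this
  exact lt_irrefl _ this

theorem Lim.ord_isSuccLimit (S : Setup κ χ ν₀ μ) (hν : Lim ν₀ μ ν) : IsSuccLimit ν.ord :=
  isSuccLimit_ord (hν.aleph0_le S)

/-- a cardinal strictly between `ν₀` and `ν` is a limit cardinal in our sense or a successor -/
theorem Lim.lim_or_succ (hν : Lim ν₀ μ ν) {b : Cardinal.{0}} (hb : ν₀ < b) (hb' : b < ν) :
    Lim ν₀ μ b ∨ ∃ c, ν₀ ≤ c ∧ c < b ∧ b = succ c := by
  by_cases h : ∀ c < b, succ c < b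
  · exact Or.inl ⟨hb, hb'.le.trans hν.2.1, h⟩
  · right
    push Not at h
    obtain ⟨c, hc, hc'⟩ := h
    have h1 : b = succ c := le_antisymm hc' (succ_le_of_lt hc)
    refine ⟨c, ?_, hc, h1⟩
    rw [h1] at hb
    exact lt_succ_iff.mp hb

/-- every regular cardinal strictly between `ν₀` and `ν` is a successor -/
theorem Lim.regular_succ (S : Setup κ χ ν₀ μ) (hν : Lim ν₀ μ ν) {r : Cardinal.{0}}
    (hr : r.IsRegular) (h : ν₀ < r) (h' : r < ν) : ∃ b, ν₀ ≤ b ∧ b < ν ∧ r = succ b := by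
  rcases hν.lim_or_succ h h' with h1 | ⟨c, h1, h2, h3⟩
  · exact absurd hr (h1.not_regular S)
  · exact ⟨c, h1, h2.trans h', h3⟩

theorem z_eventually (S : Setup κ χ ν₀ μ) (hν : Lim ν₀ μ ν)
    {z : Ordinal.{0} → Ordinal.{0} → Ordinal.{0}} (hz : IsZ z) {γ' γ : Ordinal.{0}} (h : γ' < γ)
    (hγ : γ < (succ ν).ord) : ∀ᶠ b in near ν, z γ γ' < b.ord := by
  apply eventually_lt_ord hν.2.2
  refine (hz.lt γ γ' h).trans_le ?_
  exact ord_le_ord.2 (card_le_of_lt_succ_ord hγ)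

theorem IsSeq.tendsto {δ : Cardinal.{0} → Ordinal.{0}} {d : ℕ → Cardinal.{0}}
    (hd : IsSeq ν₀ ν δ d) : Tendsto d atTop (near ν) :=
  tendsto_near hd.tend hd.lt

theorem IsSeq.tendsto_succ {δ : Cardinal.{0} → Ordinal.{0}} {d : ℕ → Cardinal.{0}}
    (hν : Lim ν₀ μ ν) (hd : IsSeq ν₀ ν δ d) :
    Tendsto (fun i => succ (d i)) atTop (near ν) :=
  tendsto_near (fun b hb => (hd.tend b hb).mono fun _ hi => hi.trans (le_succ _))
    fun i => hν.2.2 _ (hd.lt i)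

end

end Pool.Agent.STP
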