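import Pool.Agent.STP.Transfer

/-!
Module BRANCH: the Branch Lemma of section 6b of the text.
-/

open Cardinal Ordinal Order Set Filter

namespace Pool.Agent.STP

/-- the lift of a regular cardinal is regular -/
theorem up_isRegular {κ : Cardinal.{0}} (h : κ.IsRegular) : (up κ).IsRegular := by
  refine ⟨?_, ?_⟩
  · have := Cardinal.lift_le.{1}.2 h.1
    rwa [Cardinal.lift_aleph0] at this
  · rw [← Cardinal.lift_ord, ← Ordinal.lift_cof, h.cof_ord]

/-- stabilisation of traces -/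
theorem stabilise {κ c : Cardinal.{0}} (hc : c.IsRegular) (hpow : ∀ τ < κ, 2 ^ τ < c)
    (E : Ordinal.{0} → ℕ → Set Ordinal.{0})
    (mono : ∀ γ γ', γ < γ' → γ' < c.ord → ∀ᶠ i in atTop, E γ i ⊆ E γ' i)
    (y : ℕ → Set Ordinal.{0}) (hy : #{p : ℕ × Ordinal.{0} | p.2 ∈ y p.1} < up κ) :
    ∃ γ₀ < c.ord, ∀ γ, γ₀ ≤ γ → γ < c.ord → ∀ᶠ i in atTop, E γ i ∩ y i = E γ₀ i ∩ y i := by
  classical
  have hT : #(Set {p : ℕ × Ordinal.{0} | p.2 ∈ y p.1}) < up c := by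
    obtain ⟨τ, hτ⟩ := Cardinal.mem_range_lift_of_le hy.le
    have hτκ : τ < κ := by
      rw [← hτ] at hy
      exact Cardinal.lift_lt.1 hy
    rw [Cardinal.mk_set, ← hτ, ← Cardinal.lift_two_power]
    exact Cardinal.lift_lt.2 (hpow τ hτκ)
  obtain ⟨t, ht⟩ := pigeonhole (c := c) hc hT
    (fun γ => {p : {p : ℕ × Ordinal.{0} | p.2 ∈ y p.1} | p.1.2 ∈ E γ p.1.1})
  have hcpos : 0 < c.ord := by
    rw [← Cardinal.ord_zero, Cardinal.ord_lt_ord]
    exact hc.pos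
  obtain ⟨γ₀, _, hγ₀, hE₀⟩ := ht 0 hcpos
  refine ⟨γ₀, hγ₀, ?_⟩
  intro γ hγ hγc
  rcases eq_or_lt_of_le hγ with heq | hlt
  · rw [heq]
    exact Eventually.of_forall fun i => rfl
  obtain ⟨γ', hγγ', hγ'c, hE'⟩ := ht γ hγc
  have htr : ∀ i, E γ' i ∩ y i = E γ₀ i ∩ y i := by
    intro i
    have h1 := hE'.trans hE₀.symm
    ext α
    constructor
    · rintro ⟨ha, hya⟩
      have h2 : (⟨(i, α), hya⟩ : {p : ℕ × Ordinal.{0} | p.2 ∈ y p.1}) ∈
          {p : {p : ℕ × Ordinal.{0} | p.2 ∈ y p.1} | p.1.2 ∈ E γ' p.1.1} := ha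
      have h3 := (Set.ext_iff.1 h1 ⟨(i, α), hya⟩).1 h2
      exact ⟨h3, hya⟩
    · rintro ⟨ha, hya⟩
      have h2 : (⟨(i, α), hya⟩ : {p : ℕ × Ordinal.{0} | p.2 ∈ y p.1}) ∈
          {p : {p : ℕ × Ordinal.{0} | p.2 ∈ y p.1} | p.1.2 ∈ E γ₀ p.1.1} := ha
      have h3 := (Set.ext_iff.1 h1 ⟨(i, α), hya⟩).2 h2
      exact ⟨h3, hya⟩
  rcases eq_or_lt_of_le hγγ' with heq' | hlt'
  · rw [heq']
    exact Eventually.of_forall htr
  filter_upwards [mono γ₀ γ hlt hγc, mono γ γ' hlt' hγ'c] with i h1 h2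
  apply Set.Subset.antisymm
  · rw [← htr i]
    exact Set.inter_subset_inter_left _ h2
  · exact Set.inter_subset_inter_left _ h1

/-- finite modifications: few sequences of sets agreeing with a given one on almost all
coordinates, with few values on each coordinate -/
theorem few_modifications {κ : Cardinal.{0}} (hκ : κ.IsRegular) (hunc : ℵ₀ < κ)
    (t₀ : ℕ → Set Ordinal.{0}) (V : ℕ → Set (Set Ordinal.{0})) (hV : ∀ i, #(V i) < up κ) :
    #{t : ℕ → Set Ordinal.{0} | (∀ i, t i ∈ V i) ∧ ∀ᶠ i in atTop, t i = t₀ i} < up κ := by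
  classical
  have hκ' := up_isRegular hκ
  have hunc' : ℵ₀ < up κ := by
    have := Cardinal.lift_lt.{0, 1}.2 hunc
    rwa [Cardinal.lift_aleph0] at this
  -- the union of the `V i`
  have hU : #(⋃ i, V i) < up κ := by
    have h1 : Cardinal.lift.{0} #(⋃ i, V i) ≤ Cardinal.sum (fun i : ℕ => #(V i)) :=
      Cardinal.mk_iUnion_le_sum_mk_lift
    have h2 : Cardinal.sum (fun i : ℕ => #(V i)) < up κ := by
      apply Cardinal.sum_lt_lift_of_isRegular hκ'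
      · rw [Cardinal.mk_nat, Cardinal.lift_aleph0]
        exact hunc'
      · exact hV
    exact ((Cardinal.lift_uzero _).symm.le.trans h1).trans_lt h2
  have hL : #(List (⋃ i, V i)) < up κ :=
    (Cardinal.mk_list_le_max _).trans_lt (max_lt hunc' hU)
  refine lt_of_le_of_lt ?_ hL
  let f : List (⋃ i, V i) → (ℕ → Set Ordinal.{0}) := fun L i =>
    if h : i < L.length then (L[i] : ⋃ i, V i).1 else t₀ i
  have hsub : {t : ℕ → Set Ordinal.{0} | (∀ i, t i ∈ V i) ∧ ∀ᶠ i in atTop, t i = t₀ i} ⊆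
      Set.range f := by
    rintro t ⟨ht, htt⟩
    obtain ⟨n, hn⟩ := eventually_atTop.1 htt
    refine ⟨List.ofFn (fun i : Fin n => (⟨t i, mem_iUnion.2 ⟨i, ht i⟩⟩ : ⋃ i, V i)), ?_⟩
    funext i
    simp only [f]
    by_cases hi : i < n
    · rw [dif_pos (by rwa [List.length_ofFn])]
      simp
    · rw [dif_neg (by rwa [List.length_ofFn])]
      exact (hn i (not_lt.1 hi)).symm
  exact (Cardinal.mk_le_mk_of_subset hsub).trans Cardinal.mk_range_le

/-- the union of countably many sets of fewer than `κ` ordinals -/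
theorem mk_sigma_lt {κ : Cardinal.{0}} (hκ : κ.IsRegular) (hunc : ℵ₀ < κ)
    (y : ℕ → Set Ordinal.{0}) (hy : ∀ i, #(y i) < up κ) :
    #{p : ℕ × Ordinal.{0} | p.2 ∈ y p.1} < up κ := by
  have hκ' := up_isRegular hκ
  have hunc' : ℵ₀ < up κ := by
    have := Cardinal.lift_lt.{0, 1}.2 hunc
    rwa [Cardinal.lift_aleph0] at this
  have h0 : {p : ℕ × Ordinal.{0} | p.2 ∈ y p.1} = ⋃ i, (fun α => (i, α)) '' (y i) := by
    ext ⟨i, α⟩
    simp
  rw [h0]
  have h1 : Cardinal.lift.{0} #(⋃ i, (fun α => (i, α)) '' (y i)) ≤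
      Cardinal.sum (fun i : ℕ => #((fun α => (i, α)) '' (y i))) :=
    Cardinal.mk_iUnion_le_sum_mk_lift
  have h2 : Cardinal.sum (fun i : ℕ => #((fun α => (i, α)) '' (y i))) < up κ := by
    apply Cardinal.sum_lt_lift_of_isRegular hκ'
    · rw [Cardinal.mk_nat, Cardinal.lift_aleph0]
      exact hunc'
    · intro i
      exact Cardinal.mk_image_le.trans_lt (hy i)
  exact ((Cardinal.lift_uzero _).symm.le.trans h1).trans_lt h2

theorem branch {κ : Cardinal.{0}} (hκ : κ.IsRegular) (hunc : ℵ₀ < κ) (hTP : StrongTP κ)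
    {c : Cardinal.{0}} (hc : c.IsRegular) (hpow : ∀ τ < κ, 2 ^ τ < c)
    (top : ℕ → Ordinal.{0}) (htop : κ.ord ≤ top 0) (E : Ordinal.{0} → ℕ → Set Ordinal.{0})
    (mono : ∀ γ γ', γ < γ' → γ' < c.ord → ∀ᶠ i in atTop, E γ i ⊆ E γ' i)
    (thin : ∀ i, ∀ y : Set Ordinal.{0}, y ⊆ Iio (top i) → #y < up κ →
      #{t : Set Ordinal.{0} | ∃ γ < c.ord, t = E γ i ∩ y} < up κ) :
    ∃ B : ℕ → Set Ordinal.{0}, (∀ i, B i ⊆ Iio (top i)) ∧
      ∀ y : ℕ → Set Ordinal.{0}, (∀ i, y i ⊆ Iio (top i)) → (∀ i, #(y i) < up κ) →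
        (∃ γ < c.ord, ∀ i, B i ∩ y i = E γ i ∩ y i) ∧
        (∃ γ₀ < c.ord, ∀ γ, γ₀ ≤ γ → γ < c.ord → ∀ᶠ i in atTop, B i ∩ y i = E γ i ∩ y i) := by
  classical
  -- the index set
  let X : Type 1 := {p : ℕ × Ordinal.{0} | p.2 < top p.1}
  have hsm : Small.{0} X := by
    have h0 : {p : ℕ × Ordinal.{0} | p.2 < top p.1} = ⋃ i, (fun α => (i, α)) '' Iio (top i) := by
      ext ⟨i, α⟩
      simp
    change Small.{0} {p : ℕ × Ordinal.{0} | p.2 < top p.1}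
    rw [h0]
    infer_instance
  have hX : up κ ≤ #X := by
    rw [← mk_Iio_ord κ]
    refine Cardinal.mk_le_of_injective (f := fun α : Iio κ.ord =>
      (⟨(0, α.1), lt_of_lt_of_le α.2 htop⟩ : X)) ?_
    intro α α' h
    have h1 : ((0 : ℕ), α.1) = (0, α'.1) := congrArg Subtype.val h
    exact Subtype.ext (Prod.mk.inj h1).2
  -- slices
  let sl : Set X → ℕ → Set Ordinal.{0} := fun x i => {α | ∃ h : α < top i, (⟨(i, α), h⟩ : X) ∈ x}
  have hsl : ∀ x : Set X, #{p : ℕ × Ordinal.{0} | p.2 ∈ sl x p.1} ≤ #x := by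
    intro x
    refine Cardinal.mk_le_of_injective (f := fun p : {p : ℕ × Ordinal.{0} | p.2 ∈ sl x p.1} =>
      (⟨⟨(p.1.1, p.1.2), p.2.choose⟩, p.2.choose_spec⟩ : x)) ?_
    intro p p' h
    have h1 : (p.1.1, p.1.2) = (p'.1.1, p'.1.2) := congrArg (fun q : x => q.1.1) h
    exact Subtype.ext h1
  have hsl_sub : ∀ x i, sl x i ⊆ Iio (top i) := by
    rintro x i α ⟨h, _⟩
    exact h
  have hsl_card : ∀ x i, #(sl x i) ≤ #x := by
    intro x i
    refine Cardinal.mk_le_of_injective (f := fun α : sl x i =>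
      (⟨⟨(i, α.1), α.2.choose⟩, α.2.choose_spec⟩ : x)) ?_
    intro p p' h
    have h1 : (i, p.1) = (i, p'.1) := congrArg (fun q : x => q.1.1) h
    exact Subtype.ext (Prod.mk.inj h1).2
  have hsl_mono : ∀ x y i, y ⊆ x → sl y i ⊆ sl x i := by
    rintro x y i hyx α ⟨h, hm⟩
    exact ⟨h, hyx hm⟩
  have hstab : ∀ x : Set X, ∃ γ₀ < c.ord, #x < up κ → ∀ γ, γ₀ ≤ γ → γ < c.ord →
      ∀ᶠ i in atTop, E γ i ∩ sl x i = E γ₀ i ∩ sl x i := by
    intro x
    by_cases hx : #x < up κ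
    · obtain ⟨γ₀, h1, h2⟩ := stabilise hc hpow E mono (sl x) ((hsl x).trans_lt hx)
      exact ⟨γ₀, h1, fun _ => h2⟩
    · refine ⟨0, ?_, fun h => absurd h hx⟩
      rw [← Cardinal.ord_zero, Cardinal.ord_lt_ord]
      exact hc.pos
  choose g hgc hg using hstab
  let d : Set X → Set X := fun x => {p | p ∈ x ∧ p.1.2 ∈ E (g x) p.1.1}
  have hthin : ∀ y : Set X, #y < up κ →
      #{t : Set X | ∃ x : Set X, #x < up κ ∧ y ⊆ x ∧ t = d x ∩ y} < up κ := by
    intro y hy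
    have hfew := few_modifications hκ hunc (fun i => E (g y) i ∩ sl y i)
      (fun i => {t : Set Ordinal.{0} | ∃ γ < c.ord, t = E γ i ∩ sl y i})
      (fun i => thin i (sl y i) (hsl_sub y i) ((hsl_card y i).trans_lt hy))
    refine lt_of_le_of_lt ?_ hfew
    have hmem : ∀ t : {t : Set X | ∃ x : Set X, #x < up κ ∧ y ⊆ x ∧ t = d x ∩ y},
        (fun i => sl t.1 i) ∈ {t : ℕ → Set Ordinal.{0} |
          (∀ i, t i ∈ {t : Set Ordinal.{0} | ∃ γ < c.ord, t = E γ i ∩ sl y i}) ∧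
            ∀ᶠ i in atTop, t i = E (g y) i ∩ sl y i} := by
      rintro ⟨t, x, hx, hyx, rfl⟩
      have hsl_t : ∀ i, sl (d x ∩ y) i = E (g x) i ∩ sl y i := by
        intro i
        ext α
        constructor
        · rintro ⟨h, ⟨h1, h2⟩, h3⟩
          exact ⟨h2, h, h3⟩
        · rintro ⟨h1, h, h3⟩
          exact ⟨h, ⟨hyx h3, h1⟩, h3⟩
      refine ⟨fun i => ⟨g x, hgc x, hsl_t i⟩, ?_⟩
      have hmax : max (g x) (g y) < c.ord := max_lt (hgc x) (hgc y)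
      filter_upwards [hg x hx _ (le_max_left _ _) hmax, hg y hy _ (le_max_right _ _) hmax]
        with i h1 h2
      change sl (d x ∩ y) i = _
      rw [hsl_t i, ← h2]
      have h3 : sl y i = sl x i ∩ sl y i := (Set.inter_eq_right.2 (hsl_mono x y i hyx)).symm
      rw [h3, ← Set.inter_assoc, ← Set.inter_assoc, h1]
    refine Cardinal.mk_le_of_injective (f := fun t => ⟨_, hmem t⟩) ?_
    intro t t' h
    have h1 : (fun i => sl t.1 i) = (fun i => sl t'.1 i) := congrArg Subtype.val h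
    apply Subtype.ext
    ext ⟨⟨i, α⟩, hp⟩
    have h2 := congrFun h1 i
    have h3 := Set.ext_iff.1 h2 α
    constructor
    · intro hm
      obtain ⟨_, h5⟩ := h3.1 ⟨hp, hm⟩
      exact h5
    · intro hm
      obtain ⟨_, h5⟩ := h3.2 ⟨hp, hm⟩
      exact h5
  obtain ⟨b, hb⟩ := hTP.transfer hsm hX d (fun x _ p hp => hp.1) hthin
  refine ⟨sl b, hsl_sub b, ?_⟩
  intro y hy hyc
  let Y : Set X := {p | p.1.2 ∈ y p.1.1}
  have hY : #Y < up κ := by
    refine lt_of_le_of_lt ?_ (mk_sigma_lt hκ hunc y hyc)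
    refine Cardinal.mk_le_of_injective (f := fun p : Y =>
      (⟨p.1.1, p.2⟩ : {p : ℕ × Ordinal.{0} | p.2 ∈ y p.1})) ?_
    intro p p' h
    have h1 : p.1.1 = p'.1.1 :=
      congrArg (fun q : {p : ℕ × Ordinal.{0} | p.2 ∈ y p.1} => q.1) h
    exact Subtype.ext (Subtype.ext h1)
  obtain ⟨x, hx, hYx, hbx⟩ := hb Y hY
  have hslY : ∀ i, y i ⊆ sl x i := by
    intro i α hα
    exact ⟨hy i hα, hYx hα⟩
  have hone : ∀ i, sl b i ∩ y i = E (g x) i ∩ y i := by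
    intro i
    ext α
    constructor
    · rintro ⟨⟨h, h1⟩, h2⟩
      have h3 : (⟨(i, α), h⟩ : X) ∈ b ∩ Y := ⟨h1, h2⟩
      rw [hbx] at h3
      exact ⟨h3.1.2, h2⟩
    · rintro ⟨h1, h2⟩
      have h : α < top i := hy i h2
      have h3 : (⟨(i, α), h⟩ : X) ∈ d x ∩ Y := ⟨⟨hYx h2, h1⟩, h2⟩
      rw [← hbx] at h3
      exact ⟨⟨h, h3.1⟩, h2⟩
  refine ⟨⟨g x, hgc x, hone⟩, g x, hgc x, ?_⟩
  intro γ hγ hγc
  filter_upwards [hg x hx γ hγ hγc] with i h1
  rw [hone i]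
  have h3 : y i = sl x i ∩ y i := (Set.inter_eq_right.2 (hslY i)).symm
  rw [h3, ← Set.inter_assoc, ← Set.inter_assoc, h1]

end Pool.Agent.STP
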