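import Pool.Agent.STP.ClSize

/-!
Module CHAIN: the lemma CHAIN of section 7 of the text.
-/

open Cardinal Ordinal Order Set Filter

namespace Pool.Agent.STP

open Classical in
/-- the two binary operations: `z` and its inverse -/
noncomputable def CHAIN_v (z : Ordinal.{0} → Ordinal.{0} → Ordinal.{0}) (q : ULift.{1} Bool)
    (ε β : Ordinal.{0}) : Ordinal.{0} :=
  if q.down = true then (if β < ε then z ε β else 0)
  else (if h : ∃ α, α < ε ∧ z ε α = β then h.choose else 0)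

/-- no unary operations -/
def CHAIN_u (p : PEmpty.{2}) (_ : Ordinal.{0}) : Ordinal.{0} := p.elim

/-- the closure -/
def CHAIN_C (κ : Cardinal.{0}) (z : Ordinal.{0} → Ordinal.{0} → Ordinal.{0})
    (A : Set Ordinal.{0}) : Set Ordinal.{0} := {α | Cl κ A CHAIN_u (CHAIN_v z) α}

theorem CHAIN_zmem {κ : Cardinal.{0}} {A : Set Ordinal.{0}}
    {z : Ordinal.{0} → Ordinal.{0} → Ordinal.{0}}
    (hz : IsZ z) {ε α : Ordinal.{0}} (hε : ε ∈ CHAIN_C κ z A) (h : α < ε) :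
    α ∈ CHAIN_C κ z A ↔ z ε α ∈ CHAIN_C κ z A := by
  constructor
  · intro hα
    have := Cl.bin (ULift.up true) ε α hε hα
    unfold CHAIN_v at this
    rwa [if_pos rfl, if_pos h] at this
  · intro hα
    have := Cl.bin (ULift.up false) ε (z ε α) hε hα
    unfold CHAIN_v at this
    have hex : ∃ α', α' < ε ∧ z ε α' = z ε α := ⟨α, h, rfl⟩
    rw [if_neg (by simp), dif_pos hex] at this
    have h2 : hex.choose = α := hz.inj ε _ _ hex.choose_spec.1 h hex.choose_spec.2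
    rwa [h2] at this

theorem CHAIN_C_size {κ χ ν₀ μ : Cardinal.{0}} (S : Setup κ χ ν₀ μ)
    (z : Ordinal.{0} → Ordinal.{0} → Ordinal.{0}) {A : Set Ordinal.{0}} (hA : #A ≤ up ν₀) :
    #(CHAIN_C κ z A) ≤ up ν₀ := by
  have hub : ℵ₀ ≤ up ν₀ := Cardinal.aleph0_le_lift.2 S.aleph0_le_ν₀
  apply mk_Cl_le S.reg S.κ_lt.le hA
  · rw [mk_pempty]; exact zero_le
  · have h1 : #(ULift.{1} Bool) = 2 := by simp
    rw [h1]
    exact (Cardinal.natCast_lt_aleph0 (n := 2)).le.trans hub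

open Classical in
/-- the least index above the characteristic function of `N` -/
noncomputable def CHAIN_g (μ : Cardinal.{0})
    (F : Ordinal.{0} → Cardinal.{0} → Ordinal.{0}) (N : Set Ordinal.{0}) : Ordinal.{0} :=
  sInf {γ | ∀ᶠ b in near μ, chr N b ≤ F γ b}

/-- one stage of the chain -/
def CHAIN_A (ν₀ μ : Cardinal.{0}) (F : Ordinal.{0} → Cardinal.{0} → Ordinal.{0})
    (X : Set Ordinal.{0}) (i : Ordinal.{0}) (N : Iio i → Set Ordinal.{0})
    (g : Iio i → Ordinal.{0}) : Set Ordinal.{0} :=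
  (X ∪ Iio ν₀.ord) ∪ ⋃ j : Iio i, (N j ∪ ((fun b => F (g j) b) '' Ico ν₀ μ))

/-- the chain -/
noncomputable def CHAIN_N (κ ν₀ μ : Cardinal.{0}) (z : Ordinal.{0} → Ordinal.{0} → Ordinal.{0})
    (F : Ordinal.{0} → Cardinal.{0} → Ordinal.{0}) (X : Set Ordinal.{0}) :
    Ordinal.{0} → Set Ordinal.{0} :=
  WellFounded.fix (Ordinal.lt_wf) (fun i rec =>
    CHAIN_C κ z (CHAIN_A ν₀ μ F X i (fun j => rec j.1 j.2)
      (fun j => CHAIN_g μ F (rec j.1 j.2))))

theorem CHAIN_N_eq (κ ν₀ μ : Cardinal.{0}) (z : Ordinal.{0} → Ordinal.{0} → Ordinal.{0})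
    (F : Ordinal.{0} → Cardinal.{0} → Ordinal.{0}) (X : Set Ordinal.{0}) (i : Ordinal.{0}) :
    CHAIN_N κ ν₀ μ z F X i = CHAIN_C κ z (CHAIN_A ν₀ μ F X i
      (fun j => CHAIN_N κ ν₀ μ z F X j.1)
      (fun j => CHAIN_g μ F (CHAIN_N κ ν₀ μ z F X j.1))) := by
  unfold CHAIN_N
  rw [WellFounded.fix_eq]

theorem chain {κ χ ν₀ μ : Cardinal.{0}} (S : Setup κ χ ν₀ μ)
    {z : Ordinal.{0} → Ordinal.{0} → Ordinal.{0}} (hz : IsZ z)
    {F : Ordinal.{0} → Cardinal.{0} → Ordinal.{0}} (hF : IsScale ν₀ μ F)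
    (X : Set Ordinal.{0}) (hX : #X ≤ up ν₀) :
    ∃ N : Set Ordinal.{0}, X ⊆ N ∧ Good ν₀ z N ∧ #N ≤ up ν₀ ∧
      ∃ γ < (succ μ).ord, IsLubAt μ F N γ := by
  have hub : ℵ₀ ≤ up ν₀ := Cardinal.aleph0_le_lift.2 S.aleph0_le_ν₀
  have hμ := S.lim_top
  have hμpos : 0 < μ := Lim.pos hμ
  have hsχ : (succ χ).IsRegular := isRegular_succ S.aleph0_le_χ
  have hsχν : succ χ ≤ ν₀ := succ_le_of_lt S.χ_lt
  have hsμ : (succ μ).IsRegular := Lim.succ_regular S hμ
  set NN := CHAIN_N κ ν₀ μ z F X with hNN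
  set gg : Ordinal.{0} → Ordinal.{0} := fun i => CHAIN_g μ F (NN i) with hgg
  have heq : ∀ i, NN i = CHAIN_C κ z (CHAIN_A ν₀ μ F X i (fun j => NN j.1) (fun j => gg j.1)) :=
    fun i => CHAIN_N_eq κ ν₀ μ z F X i
  have hbase : ∀ i, ∀ α ∈ CHAIN_A ν₀ μ F X i (fun j => NN j.1) (fun j => gg j.1), α ∈ NN i := by
    intro i α hα
    rw [heq i]
    exact Cl.base α hα
  have hmono : ∀ j i, j ≤ i → NN j ⊆ NN i := by
    intro j i hji
    rcases hji.eq_or_lt with h | h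
    · rw [h]
    · intro α hα
      apply hbase
      refine Or.inr (mem_iUnion.2 ⟨⟨j, h⟩, Or.inl hα⟩)
  have hFin : ∀ j i, j < i → ∀ b ∈ Ico ν₀ μ, F (gg j) b ∈ NN i := by
    intro j i hji b hb
    apply hbase
    exact Or.inr (mem_iUnion.2 ⟨⟨j, hji⟩, Or.inr ⟨b, hb, rfl⟩⟩)
  have hXi : ∀ i, X ⊆ NN i := fun i α hα => hbase i α (Or.inl (Or.inl hα))
  have hνi : ∀ i, ∀ α < ν₀.ord, α ∈ NN i := fun i α hα => hbase i α (Or.inl (Or.inr hα))
  have hzi : ∀ i, ∀ ε ∈ NN i, ∀ α < ε, (α ∈ NN i ↔ z ε α ∈ NN i) := by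
    intro i ε hε α hα
    rw [heq i] at hε ⊢
    exact CHAIN_zmem hz hε hα
  have hsupi : ∀ i, ∀ w ⊆ NN i, #w < up κ → ssup w ∈ NN i := by
    intro i w hw hwk
    rw [heq i] at hw ⊢
    exact Cl.sup w hwk (fun α hα => hw hα)
  have hsize : ∀ i < (succ χ).ord, #(NN i) ≤ up ν₀ := by
    intro i
    induction i using WellFoundedLT.induction with
    | ind i ih =>
      intro hi
      rw [heq i]
      apply CHAIN_C_size S
      have hIio : #(Iio i) ≤ up χ := by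
        have h1 : #(Iio i) = up i.card := by
          have := Cardinal.mk_Iio_ordinal i
          rw [this]
        rw [h1]
        exact Cardinal.lift_le.2 (card_le_of_lt_succ_ord hi)
      refine (mk_union_le _ _).trans ((add_le_add ?_ ?_).trans (add_eq_self hub).le)
      · refine (mk_union_le _ _).trans ((add_le_add hX ?_).trans (add_eq_self hub).le)
        rw [mk_Iio_ord]
      · refine (mk_iUnion_le _).trans ?_
        have h2 : (⨆ j : Iio i, #(((NN j.1) ∪ ((fun b => F (gg j.1) b) '' Ico ν₀ μ) : Set Ordinal.{0}))) ≤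
            up ν₀ := by
          apply ciSup_le'
          intro j
          refine (mk_union_le _ _).trans ((add_le_add (ih j.1 j.2 (j.2.trans hi)) ?_).trans
            (add_eq_self hub).le)
          exact mk_image_le.trans (S.few.trans (Cardinal.lift_le.2 S.χ_lt.le))
        refine (mul_le_mul' (hIio.trans (Cardinal.lift_le.2 S.χ_lt.le)) h2).trans ?_
        exact (mul_eq_self hub).le
  have hchr_lt : ∀ N : Set Ordinal.{0}, #N ≤ up ν₀ → ∀ b, ν₀ ≤ b → chr N b < (succ b).ord := by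
    intro N hN b hb
    apply ssup_lt_of_regular (S.succ_regular hb)
    · refine lt_of_le_of_lt ((mk_le_mk_of_subset inter_subset_left).trans hN) ?_
      exact Cardinal.lift_lt.2 (lt_of_le_of_lt hb (lt_succ b))
    · intro α hα
      exact hα.2
  have hlt_chr : ∀ N : Set Ordinal.{0}, ∀ b, ∀ α ∈ N, α < (succ b).ord → α < chr N b := by
    intro N b α hα hαb
    exact lt_ssup (small_Iio_inter _ _) ⟨hα, hαb⟩
  have hg : ∀ i < (succ χ).ord, gg i < (succ μ).ord ∧ ∀ᶠ b in near μ, chr (NN i) b ≤ F (gg i) b := by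
    intro i hi
    obtain ⟨ξ, hξ, hξ2⟩ := hF.cofinal (chr (NN i)) (fun b hb _ => hchr_lt _ (hsize i hi) b hb)
    refine ⟨lt_of_le_of_lt (csInf_le' hξ2) hξ, ?_⟩
    exact csInf_mem (⟨ξ, hξ2⟩ : ({γ | ∀ᶠ b in near μ, chr (NN i) b ≤ F γ b} : Set Ordinal.{0}).Nonempty)
  have hν₀μ : ν₀ < μ := S.lt
  have hFlt : ∀ j i, j < i → i < (succ χ).ord → ∀ᶠ b in near μ, F (gg j) b < chr (NN i) b := by
    intro j i hji hi
    filter_upwards [near_ge hν₀μ, near_lt μ] with b hb hbμ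
    exact hlt_chr _ b _ (hFin j i hji b ⟨hb, hbμ⟩) (hF.lt _ (hg j (hji.trans hi)).1 b hb hbμ)
  have hlim : IsSuccLimit (succ χ).ord := isSuccLimit_ord (S.aleph0_le_χ.trans (le_succ χ))
  set N : Set Ordinal.{0} := ⋃ i : Iio (succ χ).ord, NN i.1 with hN
  have hmemN : ∀ α, α ∈ N ↔ ∃ i < (succ χ).ord, α ∈ NN i := by
    intro α
    rw [hN, mem_iUnion]
    constructor
    · rintro ⟨i, hi⟩; exact ⟨i.1, i.2, hi⟩
    · rintro ⟨i, hi, h⟩; exact ⟨⟨i, hi⟩, h⟩
  have hpos : (0 : Ordinal.{0}) < (succ χ).ord := by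
    rw [Cardinal.lt_ord, Ordinal.card_zero]
    exact lt_of_lt_of_le aleph0_pos (S.aleph0_le_χ.trans (le_succ χ))
  have hIχ : #(Iio (succ χ).ord) ≤ up ν₀ := by
    rw [mk_Iio_ord]; exact Cardinal.lift_le.2 hsχν
  have hNsize : #N ≤ up ν₀ := by
    refine (mk_iUnion_le _).trans ?_
    have h5 : (⨆ i : Iio (succ χ).ord, #(NN i.1)) ≤ up ν₀ := ciSup_le' (fun i => hsize i.1 i.2)
    refine (mul_le_mul' hIχ h5).trans ?_
    exact (mul_eq_self hub).le
  -- the bound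
  set w : Set Ordinal.{0} := gg '' Iio (succ χ).ord with hw
  have hwsize : #w < up (succ μ) := by
    refine lt_of_le_of_lt mk_image_le ?_
    rw [mk_Iio_ord]
    exact Cardinal.lift_lt.2 (lt_of_le_of_lt hsχν (hν₀μ.trans (lt_succ μ)))
  have hwsmall : Small.{0} w := small_of_mk_le hwsize.le
  refine ⟨N, ?_, ⟨?_, ?_, ?_⟩, hNsize, ssup w, ?_, ?_, ?_⟩
  · intro α hα
    exact (hmemN α).2 ⟨0, hpos, hXi 0 hα⟩
  · intro α hα
    exact (hmemN α).2 ⟨0, hpos, hνi 0 α hα⟩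
  · intro ε hε α hα
    obtain ⟨i, hi, hεi⟩ := (hmemN ε).1 hε
    constructor
    · intro hαN
      obtain ⟨j, hj, hαj⟩ := (hmemN α).1 hαN
      refine (hmemN _).2 ⟨max i j, max_lt hi hj, ?_⟩
      exact (hzi _ ε (hmono i _ (le_max_left _ _) hεi) α hα).1 (hmono j _ (le_max_right _ _) hαj)
    · intro hαN
      obtain ⟨j, hj, hαj⟩ := (hmemN _).1 hαN
      refine (hmemN _).2 ⟨max i j, max_lt hi hj, ?_⟩
      exact (hzi _ ε (hmono i _ (le_max_left _ _) hεi) α hα).2 (hmono j _ (le_max_right _ _) hαj)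
  · intro v hv hvc
    have h1 : ∀ α : v, ∃ i, i < (succ χ).ord ∧ α.1 ∈ NN i := by
      intro α
      obtain ⟨i, hi, h⟩ := (hmemN α.1).1 (hv α.2)
      exact ⟨i, hi, h⟩
    choose f hf1 hf2 using h1
    have hvω : #v ≤ ℵ₀ := Cardinal.le_aleph0_iff_set_countable.2 hvc
    have hvκ : #v < up κ := by
      refine lt_of_le_of_lt hvω ?_
      rw [← Cardinal.lift_aleph0.{1, 0}]
      exact Cardinal.lift_lt.2 S.unc
    have hvχ : #v < up (succ χ) := by
      refine lt_of_le_of_lt hvω ?_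
      rw [← Cardinal.lift_aleph0.{1, 0}]
      exact Cardinal.lift_lt.2 (lt_of_le_of_lt S.aleph0_le_χ (lt_succ χ))
    obtain ⟨i, hi, hif⟩ := sup_bound hsχ hvχ f hf1
    refine (hmemN _).2 ⟨i, hi, hsupi i v ?_ hvκ⟩
    intro α hα
    exact hmono _ _ (hif ⟨α, hα⟩) (hf2 ⟨α, hα⟩)
  · apply ssup_lt_of_regular hsμ hwsize
    rintro _ ⟨i, hi, rfl⟩
    exact (hg i hi).1
  · intro ξ hξ
    obtain ⟨_, ⟨i, hi, rfl⟩, hξi⟩ := (lt_ssup_iff hwsmall).1 hξ
    have hi' : i + 1 < (succ χ).ord := hlim.succ_lt hi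
    filter_upwards [hF.mono ξ (gg i) hξi (hg i hi).1, hFlt i (i + 1) (lt_add_one i) hi',
      near_lt μ] with b h1 h2 h3
    refine h1.trans (h2.le.trans ?_)
    apply ssup_mono (small_Iio_inter _ _)
    intro α hα
    exact ⟨(hmemN α).2 ⟨i + 1, hi', hα.1⟩, hα.2⟩
  · intro g hgub
    have hthr : ∀ i, ∃ b₀ : Ico ν₀ μ, i < (succ χ).ord →
        ∀ b, b₀.1 ≤ b → b < μ → chr (NN i) b ≤ g b := by
      intro i
      by_cases hi : i < (succ χ).ord
      · have h1 : ∀ᶠ b in near μ, chr (NN i) b ≤ g b := by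
          have h2 : gg i < ssup w := lt_ssup hwsmall ⟨i, hi, rfl⟩
          filter_upwards [(hg i hi).2, hgub (gg i) h2] with b h3 h4
          exact h3.trans h4
        obtain ⟨b₀, hb₀, h3⟩ := (near_iff hμpos).1 h1
        refine ⟨⟨max ν₀ b₀, le_max_left _ _, max_lt hν₀μ hb₀⟩, fun _ b hb hbμ => ?_⟩
        exact h3 b ((le_max_right _ _).trans hb) hbμ
      · exact ⟨⟨ν₀, le_rfl, hν₀μ⟩, fun h => absurd h hi⟩
    choose th hth using hthr
    have hT : #(Ico ν₀ μ) < up (succ χ) :=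
      lt_of_le_of_lt S.few (Cardinal.lift_lt.2 (lt_succ χ))
    obtain ⟨t, ht⟩ := pigeonhole hsχ hT th
    refine (near_iff hμpos).2 ⟨t.1, t.2.2, fun b hb hbμ => ?_⟩
    apply ssup_le
    rintro α ⟨hα, hαb⟩
    obtain ⟨i, hi, hαi⟩ := (hmemN α).1 hα
    obtain ⟨i', hii', hi', hti⟩ := ht i hi
    have h1 := hth i' hi' b (by rw [hti]; exact hb) hbμ
    exact lt_of_lt_of_le (hlt_chr _ b α (hmono i i' hii' hαi) hαb) h1

end Pool.Agent.STP
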