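import Pool.Agent.STP.Basic

/-!
Module CLSIZE: the size of the closure `Cl` ((H0) of section 3 of the text).
-/

open Cardinal Ordinal Order Set Filter

namespace Pool.Agent.STP

/-- a small set of ordinals has few strict suprema of subsets -/
theorem mk_ssup_image_le {A : Set Ordinal.{0}} {b : Cardinal.{0}} (hb : ℵ₀ ≤ b)
    (hA : #A ≤ up b) : #{α | ∃ w : Set Ordinal.{0}, w ⊆ A ∧ α = ssup w} ≤ up b := by
  have hsm : Small.{0} A := small_of_mk_le hA
  have hsub : {α | ∃ w : Set Ordinal.{0}, w ⊆ A ∧ α = ssup w} ⊆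
      Set.range (fun o : Option A => o.elim (ssup A) (fun a => ssup (A ∩ Iio a.1))) := by
    rintro α ⟨w, hw, rfl⟩
    have hsw : Small.{0} w := small_subset hw
    by_cases h : ∃ a ∈ A, ssup w ≤ a
    · have hne : ({a | a ∈ A ∧ ssup w ≤ a} : Set Ordinal.{0}).Nonempty := by
        obtain ⟨a, h1, h2⟩ := h
        exact ⟨a, h1, h2⟩
      obtain ⟨a, ⟨ha1, ha2⟩, hmin⟩ : ∃ a ∈ {a | a ∈ A ∧ ssup w ≤ a},
          ∀ x ∈ {a | a ∈ A ∧ ssup w ≤ a}, ¬ x < a := by
        obtain ⟨a, ha, hm⟩ := WellFounded.has_min (wellFounded_lt (α := Ordinal.{0})) _ hne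
        exact ⟨a, ha, hm⟩
      refine ⟨some ⟨a, ha1⟩, ?_⟩
      simp only [Option.elim]
      apply le_antisymm
      · apply ssup_le
        rintro x ⟨hx1, hx2⟩
        by_contra h0
        exact hmin x ⟨hx1, not_lt.1 h0⟩ hx2
      · apply ssup_mono (small_Iio_inter A a)
        intro x hx
        exact ⟨hw hx, (lt_ssup hsw hx).trans_le ha2⟩
    · refine ⟨none, ?_⟩
      simp only [Option.elim]
      push Not at h
      exact le_antisymm (ssup_le h) (ssup_mono hsm hw)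
  refine (Cardinal.mk_le_mk_of_subset hsub).trans (Cardinal.mk_range_le.trans ?_)
  rw [Cardinal.mk_option]
  have h1 : ℵ₀ ≤ up b := by
    rw [← Cardinal.lift_aleph0.{1, 0}]
    exact Cardinal.lift_le.2 hb
  calc #A + 1 ≤ up b + up b := add_le_add hA (Cardinal.one_le_aleph0.trans h1)
    _ = up b := Cardinal.add_eq_self h1

theorem CLSIZE_bUnion {ι α : Type 1} {s : Set ι} {f : ι → Set α} {c : Cardinal.{1}}
    (hc : ℵ₀ ≤ c) (hs : #s ≤ c) (hf : ∀ i ∈ s, #(f i) ≤ c) : #(⋃ i ∈ s, f i) ≤ c := by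
  refine (Cardinal.mk_biUnion_le f s).trans ?_
  calc #s * ⨆ x : s, #(f x.1) ≤ c * c := by
        apply mul_le_mul' hs
        exact ciSup_le' fun x => hf x.1 x.2
    _ = c := Cardinal.mul_eq_self hc

/-- the stages of the closure -/
inductive ClSt (κ : Cardinal.{0}) (A : Set Ordinal.{0}) {P Q : Type 1}
    (u : P → Ordinal.{0} → Ordinal.{0}) (v : Q → Ordinal.{0} → Ordinal.{0} → Ordinal.{0}) :
    Ordinal.{0} → Ordinal.{0} → Prop
  | base : ∀ i, ∀ α ∈ A, ClSt κ A u v i α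
  | un : ∀ i j p α, j < i → ClSt κ A u v j α → ClSt κ A u v i (u p α)
  | bin : ∀ i j q α β, j < i → ClSt κ A u v j α → ClSt κ A u v j β → ClSt κ A u v i (v q α β)
  | sup : ∀ i j, ∀ w : Set Ordinal.{0}, j < i → (∀ α ∈ w, ClSt κ A u v j α) →
      ClSt κ A u v i (ssup w)

theorem ClSt.mono {κ : Cardinal.{0}} {A : Set Ordinal.{0}} {P Q : Type 1}
    {u : P → Ordinal.{0} → Ordinal.{0}} {v : Q → Ordinal.{0} → Ordinal.{0} → Ordinal.{0}}
    {i i' α : Ordinal.{0}} (h : ClSt κ A u v i α) (hi : i ≤ i') : ClSt κ A u v i' α := by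
  cases h with
  | base _ _ h => exact ClSt.base _ _ h
  | un _ j p α h1 h2 => exact ClSt.un _ j p α (h1.trans_le hi) h2
  | bin _ j q α β h1 h2 h3 => exact ClSt.bin _ j q α β (h1.trans_le hi) h2 h3
  | sup _ j w h1 h2 => exact ClSt.sup _ j w (h1.trans_le hi) h2

theorem mk_Cl_le {κ b : Cardinal.{0}} (hκ : κ.IsRegular) (hb : κ ≤ b) {A : Set Ordinal.{0}}
    (hA : #A ≤ up b) {P Q : Type 1} (hP : #P ≤ up b) (hQ : #Q ≤ up b)
    (u : P → Ordinal.{0} → Ordinal.{0}) (v : Q → Ordinal.{0} → Ordinal.{0} → Ordinal.{0}) :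
    #{α | Cl κ A u v α} ≤ up b := by
  have hb0 : ℵ₀ ≤ b := hκ.aleph0_le.trans hb
  have hb1 : ℵ₀ ≤ up b := by
    rw [← Cardinal.lift_aleph0.{1, 0}]
    exact Cardinal.lift_le.2 hb0
  have hlim : ∀ i < κ.ord, i + 1 < κ.ord := by
    intro i hi
    have := (Cardinal.isSuccLimit_ord hκ.aleph0_le).succ_lt hi
    rwa [Order.succ_eq_add_one] at this
  have hst : ∀ α, Cl κ A u v α → ∃ i < κ.ord, ClSt κ A u v i α := by
    intro α h
    induction h with
    | base α h => exact ⟨0, (Cardinal.isSuccLimit_ord hκ.aleph0_le).bot_lt, ClSt.base _ _ h⟩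
    | un p α _ ih =>
      obtain ⟨i, hi, h1⟩ := ih
      exact ⟨i + 1, hlim i hi, ClSt.un _ i p α (lt_add_one i) h1⟩
    | bin q α β _ _ ih1 ih2 =>
      obtain ⟨i, hi, h1⟩ := ih1
      obtain ⟨j, hj, h2⟩ := ih2
      exact ⟨max i j + 1, hlim _ (max_lt hi hj), ClSt.bin _ (max i j) q α β (lt_add_one _)
        (h1.mono (le_max_left _ _)) (h2.mono (le_max_right _ _))⟩
    | sup w hw _ ih =>
      choose g hg1 hg2 using fun t : w => ih t.1 t.2
      obtain ⟨i, hi, hle⟩ := sup_bound hκ hw g hg1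
      exact ⟨i + 1, hlim i hi, ClSt.sup _ i w (lt_add_one i)
        (fun α hα => (hg2 ⟨α, hα⟩).mono (hle ⟨α, hα⟩))⟩
  have hcard : ∀ i, i < κ.ord → #{α | ClSt κ A u v i α} ≤ up b := by
    intro i
    induction i using WellFoundedLT.induction with
    | ind i ih =>
      intro hi
      have hsub : {α | ClSt κ A u v i α} ⊆ A ∪ ⋃ j ∈ Iio i,
          ((Set.range (fun x : P × {α | ClSt κ A u v j α} => u x.1 x.2.1)) ∪
          (Set.range (fun x : Q × {α | ClSt κ A u v j α} × {α | ClSt κ A u v j α} =>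
            v x.1 x.2.1.1 x.2.2.1)) ∪
          {α | ∃ w : Set Ordinal.{0}, w ⊆ {α | ClSt κ A u v j α} ∧ α = ssup w}) := by
        intro α h
        cases h with
        | base _ _ h => exact Or.inl h
        | un _ j p α h1 h2 =>
          exact Or.inr (Set.mem_biUnion h1 (Or.inl (Or.inl ⟨(p, ⟨α, h2⟩), rfl⟩)))
        | bin _ j q α β h1 h2 h3 =>
          exact Or.inr (Set.mem_biUnion h1 (Or.inl (Or.inr ⟨(q, ⟨α, h2⟩, ⟨β, h3⟩), rfl⟩)))
        | sup _ j w h1 h2 =>
          exact Or.inr (Set.mem_biUnion h1 (Or.inr ⟨w, h2, rfl⟩))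
      refine (Cardinal.mk_le_mk_of_subset hsub).trans ((Cardinal.mk_union_le _ _).trans ?_)
      have hi1 : #(Iio i) ≤ up b := by
        have h1 : Iio i ⊆ Iio κ.ord := Iio_subset_Iio hi.le
        refine (Cardinal.mk_le_mk_of_subset h1).trans ?_
        rw [mk_Iio_ord]
        exact Cardinal.lift_le.2 hb
      refine (add_le_add hA (CLSIZE_bUnion (c := up b) hb1 hi1 ?_)).trans
        (Cardinal.add_eq_self hb1).le
      intro j hj
      have hj' := ih j hj (lt_trans hj hi)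
      refine (Cardinal.mk_union_le _ _).trans ?_
      refine (add_le_add ((Cardinal.mk_union_le _ _).trans (add_le_add
        (Cardinal.mk_range_le.trans ?_) (Cardinal.mk_range_le.trans ?_)))
        (mk_ssup_image_le hb0 hj')).trans
        (b := (up b + up b) + up b) ?_
      · rw [Cardinal.mk_prod, Cardinal.lift_id, Cardinal.lift_id]
        exact (mul_le_mul' hP hj').trans (Cardinal.mul_eq_self hb1).le
      · simp only [Cardinal.mk_prod, Cardinal.lift_id]
        refine (mul_le_mul' hQ (mul_le_mul' hj' hj')).trans ?_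
        rw [Cardinal.mul_eq_self hb1, Cardinal.mul_eq_self hb1]
      · rw [Cardinal.add_eq_self hb1, Cardinal.add_eq_self hb1]
  have hsub : {α | Cl κ A u v α} ⊆ ⋃ i ∈ Iio κ.ord, {α | ClSt κ A u v i α} := by
    intro α h
    obtain ⟨i, hi, h1⟩ := hst α h
    exact Set.mem_biUnion hi h1
  refine (Cardinal.mk_le_mk_of_subset hsub).trans (CLSIZE_bUnion hb1 ?_ hcard)
  rw [mk_Iio_ord]
  exact Cardinal.lift_le.2 hb

end Pool.Agent.STP
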