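import Pool.Agent.STP.Basic

/-!
Module CLOSEDSET.  Closing off a small set of ordinals under operations of arity `I`, `#I ≤ χ`,
`ν₀ = 2 ^ χ`.  (Hint: `WType` on `I ⊕ I` with arities `PEmpty`, `I`, and
`WType.cardinalMk_le_of_le'`; `N` is the range of the evaluation map.)
-/

open Cardinal Ordinal Order Set Filter

namespace Pool.Agent.STP

/-- arities -/
def CLOSEDSET_ar (I : Type 1) : I ⊕ I → Type 1
  | Sum.inl _ => PEmpty
  | Sum.inr _ => I

/-- evaluation -/
def CLOSEDSET_ev {I : Type 1} (top : I → Ordinal.{0}) (w : (I → Ordinal.{0}) → I → Ordinal.{0}) :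
    WType (CLOSEDSET_ar I) → Ordinal.{0}
  | WType.mk (Sum.inl i) _ => top i
  | WType.mk (Sum.inr i) g => w (fun j : I => CLOSEDSET_ev top w (g j)) i

theorem exists_closed_set {χ ν₀ : Cardinal.{0}} (hpow : ν₀ = 2 ^ χ) (hχ : ℵ₀ ≤ χ) {I : Type 1}
    (hI : #I ≤ up χ) (top : I → Ordinal.{0}) (w : (I → Ordinal.{0}) → I → Ordinal.{0}) :
    ∃ N : Set Ordinal.{0}, #N ≤ up ν₀ ∧ (∀ i, top i ∈ N) ∧
      ∀ u : I → Ordinal.{0}, (∀ i, u i ∈ N) → ∀ i, w u i ∈ N := by
  refine ⟨Set.range (CLOSEDSET_ev top w), ?_, ?_, ?_⟩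
  · refine (Cardinal.mk_range_le).trans ?_
    have hχν : χ ≤ ν₀ := by rw [hpow]; exact (cantor χ).le
    have hν₀ : ℵ₀ ≤ ν₀ := hχ.trans hχν
    have hν₀' : ℵ₀ ≤ up ν₀ := by
      rw [up, aleph0_le_lift]; exact hν₀
    have hpow2 : (up ν₀) ^ (up χ) = up ν₀ := by
      rw [up, up, ← lift_power, hpow, ← power_mul, mul_eq_self hχ]
    have hIν : #I ≤ up ν₀ := hI.trans (lift_le.2 hχν)
    refine WType.cardinalMk_le_of_le' ?_
    calc (Cardinal.sum fun a : I ⊕ I => (up ν₀) ^ lift.{1} #(CLOSEDSET_ar I a))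
        ≤ Cardinal.sum fun _ : I ⊕ I => up ν₀ := by
          refine Cardinal.sum_le_sum _ _ fun a => ?_
          rw [Cardinal.lift_id]
          rcases a with i | i
          · have : #(CLOSEDSET_ar I (Sum.inl i)) = 0 := by
              change #PEmpty = 0
              exact mk_pempty
            rw [this, power_zero]
            exact one_le_aleph0.trans hν₀'
          · have : #(CLOSEDSET_ar I (Sum.inr i)) = #I := rfl
            rw [this]
            calc (up ν₀) ^ #I ≤ (up ν₀) ^ (up χ) := by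
                  refine power_le_power_left ?_ hI
                  intro h0
                  rw [h0] at hν₀'
                  exact absurd (hν₀') (not_le.2 aleph0_pos)
              _ = up ν₀ := hpow2
      _ = #(I ⊕ I) * up ν₀ := by rw [Cardinal.sum_const']
      _ ≤ up ν₀ * up ν₀ := by
          refine mul_le_mul' ?_ le_rfl
          rw [mk_sum, Cardinal.lift_id]
          calc #I + #I ≤ up ν₀ + up ν₀ := add_le_add hIν hIν
            _ = up ν₀ := add_eq_self hν₀'
      _ = up ν₀ := mul_eq_self hν₀'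
  · intro i
    exact ⟨WType.mk (Sum.inl i) (fun x : PEmpty => x.elim), by rw [CLOSEDSET_ev]⟩
  · intro u hu i
    choose t ht using hu
    refine ⟨WType.mk (Sum.inr i) (fun j : I => t j), ?_⟩
    rw [CLOSEDSET_ev]
    have : (fun j : I => CLOSEDSET_ev top w (t j)) = u := funext ht
    rw [this]

end Pool.Agent.STP
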