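import Pool.Agent.STP.ClSize

/-!
Club guessing: if `ρ` is regular and uncountable and `σ = ρ⁺⁺`, there are sets `D δ`, of size at
most `ρ`, such that every closed unbounded subset of `σ` contains an unbounded `D δ ⊆ δ` with
`cof δ = ρ` (helper77).
-/

open Cardinal Ordinal Order Set Filter

namespace Pool.Agent.STP

/-- `E` is a closed unbounded subset of the ordinal `o`. -/
structure IsClubIn (E : Set Ordinal.{0}) (o : Ordinal.{0}) : Prop where
  lt : ∀ α ∈ E, α < o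
  unb : ∀ γ < o, ∃ ε ∈ E, γ < ε
  closed : ∀ β, 0 < β → β < o → (∀ γ < β, ∃ ε ∈ E, γ < ε ∧ ε < β) → β ∈ E

theorem ssup_lt_cof {w : Set Ordinal.{0}} {o : Ordinal.{0}} (hw : #w < up o.cof)
    (h : ∀ α ∈ w, α < o) : ssup w < o := by
  apply Ordinal.sSup_add_one_lt_of_lt_cof _ h
  rw [← Ordinal.lift_cof]
  exact hw

theorem fund {δ : Ordinal.{0}} {c : Cardinal.{0}} (h : δ.cof = c) :
    ∃ E : Ordinal.{0} → Ordinal.{0}, (∀ i < c.ord, E i < δ) ∧
      (∀ i j, i < j → j < c.ord → E i < E j) ∧ ∀ α < δ, ∃ i < c.ord, α ≤ E i := by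
  classical
  obtain ⟨e, he⟩ := Ordinal.exists_isFundamentalSeq (o := δ) (a := c.ord) (by rw [h])
  refine ⟨fun i => if h : i < c.ord then (e ⟨i, h⟩ : Ordinal.{0}) else 0, ?_, ?_, ?_⟩
  · intro i hi
    simp only [hi, dite_true]
    exact (e ⟨i, hi⟩).2
  · intro i j hij hj
    have hi := hij.trans hj
    simp only [hi, hj, dite_true]
    exact he.strictMono (Subtype.mk_lt_mk.2 hij)
  · intro α hα
    obtain ⟨_, ⟨i, rfl⟩, hi⟩ := he.isCofinal_range ⟨α, hα⟩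
    refine ⟨i.1, i.2, ?_⟩
    have h2 : i.1 < c.ord := i.2
    simp only [h2, dite_true]
    exact hi

/-- a set which is unbounded in `o` has at least `cof o` elements -/
theorem cof_le_mk {W : Set Ordinal.{0}} {o : Ordinal.{0}} (h : ∀ α ∈ W, α < o)
    (hunb : ∀ γ < o, ∃ ε ∈ W, γ < ε) : up o.cof ≤ #W := by
  by_contra hcon
  rw [not_le] at hcon
  have h1 := ssup_lt_cof hcon h
  obtain ⟨ε, hε, h2⟩ := hunb _ h1
  exact absurd (lt_ssup (small_of_mk_le hcon.le) hε) (not_lt.2 h2.le)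

theorem one_add_lt {o : Ordinal.{0}} (ho : ℵ₀ < o.cof) {γ : Ordinal.{0}} (h : γ < o) :
    γ + 1 < o :=
  (Ordinal.one_lt_cof_iff.1 (one_lt_aleph0.trans ho)).add_one_lt h

theorem seq_sup_lt {o : Ordinal.{0}} (ho : ℵ₀ < o.cof) (g : ℕ → Ordinal.{0})
    (hg : ∀ n, g n < o) : ssup (range g) < o := by
  apply ssup_lt_cof
  · have h1 : #(range g) ≤ ℵ₀ := (countable_range g).le_aleph0
    refine h1.trans_lt ?_
    rw [← Cardinal.lift_aleph0.{1, 0}]
    exact Cardinal.lift_lt.2 ho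
  · rintro _ ⟨n, rfl⟩
    exact hg n

/-- a strictly increasing sequence with `n`-th step above `N (g n)` -/
theorem seq_ex {o : Ordinal.{0}} (ho : ℵ₀ < o.cof) {N : Ordinal.{0} → Ordinal.{0}}
    (hN : ∀ γ < o, N γ < o) {γ : Ordinal.{0}} (hγ : γ < o) :
    ∃ β, γ < β ∧ β < o ∧ ∀ ζ < β, ∃ α, ζ ≤ α ∧ N α < β ∧ α < o := by
  let g : ℕ → Ordinal.{0} := fun n => N^[n] γ
  have hg : ∀ n, g n < o := by
    intro n
    induction n with
    | zero => exact hγ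
    | succ n ih =>
      show N^[n + 1] γ < o
      rw [Function.iterate_succ_apply']
      exact hN _ ih
  have hs : ∀ n, g (n + 1) = N (g n) := fun n => Function.iterate_succ_apply' N n γ
  have hsm : Small.{0} (range g) :=
    small_of_mk_le (c := ℵ₀) (by
      have h1 : #(range g) ≤ ℵ₀ := (countable_range g).le_aleph0
      rw [← Cardinal.lift_aleph0.{1, 0}] at h1
      exact h1)
  refine ⟨ssup (range g), lt_ssup hsm ⟨0, rfl⟩, seq_sup_lt ho g hg, ?_⟩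
  intro ζ hζ
  obtain ⟨_, ⟨n, rfl⟩, hn⟩ := (lt_ssup_iff hsm).1 hζ
  refine ⟨g n, hn, ?_, hg n⟩
  rw [← hs]
  exact lt_ssup hsm ⟨n + 1, rfl⟩

/-- the intersection of fewer than `cof o` closed unbounded sets -/
theorem club_iInter {o : Ordinal.{0}} (ho : ℵ₀ < o.cof) {T : Type 1} (hT : #T < up o.cof)
    {E : T → Set Ordinal.{0}} (hE : ∀ t, IsClubIn (E t) o) :
    IsClubIn {α | α < o ∧ ∀ t, α ∈ E t} o := by
  classical
  refine ⟨fun α h => h.1, ?_, ?_⟩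
  · intro γ hγ
    have hch : ∀ t, ∀ γ : Ordinal.{0}, ∃ ε, γ < o → ε ∈ E t ∧ γ < ε := by
      intro t γ
      by_cases h : γ < o
      · obtain ⟨ε, h1, h2⟩ := (hE t).unb γ h
        exact ⟨ε, fun _ => ⟨h1, h2⟩⟩
      · exact ⟨0, fun h' => absurd h' h⟩
    choose e he using hch
    let N : Ordinal.{0} → Ordinal.{0} := fun γ => max (γ + 1) (ssup (range fun t => e t γ))
    have hsm : ∀ γ, Small.{0} (range fun t => e t γ) := fun γ =>
      small_of_mk_le (mk_range_le.trans hT.le)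
    have hN : ∀ γ < o, N γ < o := by
      intro γ h
      refine max_lt (one_add_lt ho h) (ssup_lt_cof (mk_range_le.trans_lt hT) ?_)
      rintro _ ⟨t, rfl⟩
      exact (hE t).lt _ (he t γ h).1
    obtain ⟨β, h1, h2, h3⟩ := seq_ex ho hN hγ
    refine ⟨β, ⟨h2, fun t => (hE t).closed β (bot_le.trans_lt h1) h2 fun ζ hζ => ?_⟩, h1⟩
    obtain ⟨α, h4, h5, h6⟩ := h3 ζ hζ
    refine ⟨e t α, (he t α h6).1, h4.trans_lt (he t α h6).2, ?_⟩
    exact (lt_ssup (hsm α) ⟨t, rfl⟩).trans ((le_max_right _ _).trans_lt h5)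
  · intro β h0 hβ h
    refine ⟨hβ, fun t => (hE t).closed β h0 hβ fun γ hγ => ?_⟩
    obtain ⟨ε, hε, h1, h2⟩ := h γ hγ
    exact ⟨ε, hε.2 t, h1, h2⟩

theorem IsClubIn.inter {o : Ordinal.{0}} (ho : ℵ₀ < o.cof) {E E' : Set Ordinal.{0}}
    (hE : IsClubIn E o) (hE' : IsClubIn E' o) : IsClubIn (E ∩ E') o := by
  have hT : #(ULift.{1, 0} Bool) < up o.cof := by
    refine lt_of_lt_of_le (Cardinal.lt_aleph0_of_finite _) ?_
    rw [← Cardinal.lift_aleph0.{1, 0}]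
    exact Cardinal.lift_le.2 ho.le
  have h := club_iInter ho hT (E := fun t => if t.down then E else E')
    (fun t => by
      by_cases h : t.down = true
      · simp only [h, if_true]
        exact hE
      · simp only [h]
        exact hE')
  refine ⟨fun α hα => hE.lt α hα.1, fun γ hγ => ?_, fun β h0 hβ h1 =>
    ⟨hE.closed β h0 hβ fun γ hγ => ?_, hE'.closed β h0 hβ fun γ hγ => ?_⟩⟩
  · obtain ⟨ε, h1, h2⟩ := h.unb γ hγ
    exact ⟨ε, ⟨h1.2 ⟨true⟩, h1.2 ⟨false⟩⟩, h2⟩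
  · obtain ⟨ε, h2, h3⟩ := h1 γ hγ
    exact ⟨ε, h2.1, h3⟩
  · obtain ⟨ε, h2, h3⟩ := h1 γ hγ
    exact ⟨ε, h2.2, h3⟩

/-- every ordinal of infinite cofinality has a closed unbounded subset of size its cofinality -/
theorem exists_small_club {δ : Ordinal.{0}} (hδ : ℵ₀ ≤ δ.cof) :
    ∃ C, IsClubIn C δ ∧ #C ≤ up δ.cof := by
  have hlim : IsSuccLimit δ := Ordinal.one_lt_cof_iff.1 (one_lt_aleph0.trans_le hδ)
  obtain ⟨E, hE1, hE2, hE3⟩ := fund (δ := δ) rfl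
  set A : Set Ordinal.{0} := E '' Iio δ.cof.ord with hA
  have hAc : #A ≤ up δ.cof := by
    refine Cardinal.mk_image_le.trans ?_
    rw [mk_Iio_ord]
  have hAs : Small.{0} A := small_of_mk_le hAc
  have hsz := mk_ssup_image_le hδ hAc
  refine ⟨{α | α < δ ∧ ∃ w : Set Ordinal.{0}, w ⊆ A ∧ α = ssup w}, ⟨fun α h => h.1, ?_, ?_⟩, ?_⟩
  · intro γ hγ
    obtain ⟨i, hi, hi'⟩ := hE3 γ hγ
    refine ⟨ssup {E i}, ⟨?_, {E i}, ?_, rfl⟩, ?_⟩
    · rw [ssup_singleton]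
      exact hlim.add_one_lt (hE1 i hi)
    · intro x hx
      rw [mem_singleton_iff.1 hx]
      exact mem_image_of_mem E hi
    · rw [ssup_singleton]
      exact hi'.trans_lt (lt_add_one _)
  · intro β h0 hβ h
    refine ⟨hβ, A ∩ Iio β, inter_subset_left, le_antisymm ?_ ?_⟩
    · by_contra hcon
      rw [not_le] at hcon
      obtain ⟨ε, ⟨h1, w, hw, rfl⟩, h3, h4⟩ := h _ hcon
      have hws : Small.{0} w := small_subset hw
      obtain ⟨α, h5, h6⟩ := (lt_ssup_iff hws).1 h3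
      have h7 : α < β := (lt_ssup hws h5).trans h4
      exact absurd (lt_ssup (small_Iio_inter A β) ⟨hw h5, h7⟩) (not_lt.2 h6)
    · exact ssup_le fun α hα => hα.2
  · refine (Cardinal.mk_le_mk_of_subset ?_).trans hsz
    exact fun α hα => hα.2

/-- definition by recursion: `rseq Φ k = sup {Φ i (rseq Φ restricted to [0, i]) + 1 : i < k}` -/
noncomputable def rseq (Φ : Ordinal.{0} → (Ordinal.{0} → Ordinal.{0}) → Ordinal.{0})
    (k : Ordinal.{0}) : Ordinal.{0} :=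
  ssup (range fun i : {i : Ordinal.{0} // i < k} =>
    Φ i.1 (fun i' => if _h : i' ≤ i.1 then rseq Φ i' else 0))
termination_by k
decreasing_by exact _h.trans_lt i.2

/-- the values of `Φ` along `rseq Φ` -/
noncomputable def rval (Φ : Ordinal.{0} → (Ordinal.{0} → Ordinal.{0}) → Ordinal.{0})
    (i : Ordinal.{0}) : Ordinal.{0} :=
  Φ i (fun i' => if i' ≤ i then rseq Φ i' else 0)

section rseq
variable {Φ : Ordinal.{0} → (Ordinal.{0} → Ordinal.{0}) → Ordinal.{0}}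

theorem rseq_eq (k : Ordinal.{0}) : rseq Φ k = ssup (rval Φ '' Iio k) := by
  rw [rseq]
  congr 1
  ext x
  constructor
  · rintro ⟨i, rfl⟩
    exact ⟨i.1, i.2, rfl⟩
  · rintro ⟨i, hi, rfl⟩
    exact ⟨⟨i, hi⟩, rfl⟩

theorem small_rval (k : Ordinal.{0}) : Small.{0} (rval Φ '' Iio k) := small_image _ _

theorem rval_lt {i k : Ordinal.{0}} (h : i < k) : rval Φ i < rseq Φ k := by
  rw [rseq_eq]
  exact lt_ssup (small_rval k) ⟨i, h, rfl⟩

theorem lt_rseq {γ k : Ordinal.{0}} (h : γ < rseq Φ k) : ∃ i < k, γ ≤ rval Φ i := by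
  rw [rseq_eq] at h
  obtain ⟨_, ⟨i, hi, rfl⟩, h2⟩ := (lt_ssup_iff (small_rval k)).1 h
  exact ⟨i, hi, h2⟩

theorem rseq_lt (hΦ : ∀ i, rseq Φ i ≤ rval Φ i) {i k : Ordinal.{0}} (h : i < k) :
    rseq Φ i < rseq Φ k := (hΦ i).trans_lt (rval_lt h)

theorem rseq_le (hΦ : ∀ i, rseq Φ i ≤ rval Φ i) {i k : Ordinal.{0}} (h : i ≤ k) :
    rseq Φ i ≤ rseq Φ k := by
  rcases h.eq_or_lt with h | h
  · rw [h]
  · exact (rseq_lt hΦ h).le

theorem cof_rseq (hΦ : ∀ i, rseq Φ i ≤ rval Φ i) (a : Ordinal.{0}) :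
    (rseq Φ a).cof = a.cof := by
  have h1 : rseq Φ a = ⨆ i : Iio a, rval Φ i.1 + 1 := by
    rw [rseq_eq, ssup, iSup]
    congr 1
    ext x
    constructor
    · rintro ⟨_, ⟨i, hi, rfl⟩, rfl⟩
      exact ⟨⟨i, hi⟩, rfl⟩
    · rintro ⟨i, rfl⟩
      exact ⟨_, ⟨i.1, i.2, rfl⟩, rfl⟩
  rw [h1]
  apply Ordinal.cof_iSup_Iio_add_one (f := fun i : Iio a => rval Φ i.1)
  intro i j h
  exact (rval_lt h).trans_le (hΦ j.1)

theorem rseq_lt_of_cof {e a : Ordinal.{0}} (ha : a.card < e.cof)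
    (h : ∀ i < a, rseq Φ i < e → rval Φ i < e) : rseq Φ a < e := by
  have key : ∀ k, k ≤ a → rseq Φ k < e := by
    intro k
    induction k using WellFoundedLT.induction with
    | _ k ih =>
      intro hk
      rw [rseq_eq]
      apply ssup_lt_cof
      · refine Cardinal.mk_image_le.trans_lt ?_
        rw [Cardinal.mk_Iio_ordinal]
        exact Cardinal.lift_lt.2 ((Ordinal.card_le_card hk).trans_lt ha)
      · rintro _ ⟨i, hi, rfl⟩
        exact h i (hi.trans_le hk) (ih i hi (hi.le.trans hk))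
  exact key a le_rfl

end rseq

/-- a closed unbounded subset of `σ` has limits of every small regular cofinality -/
theorem exists_lim_cof {σ ρ : Cardinal.{0}} (hσ : σ.IsRegular) (hρ : ρ.IsRegular) (h : ρ < σ)
    {E : Set Ordinal.{0}} (hE : IsClubIn E σ.ord) :
    ∃ δ < σ.ord, δ.cof = ρ ∧ ∀ γ < δ, ∃ ε ∈ E, γ < ε ∧ ε < δ := by
  classical
  have hch : ∀ γ : Ordinal.{0}, ∃ ε, γ ≤ ε ∧ (γ < σ.ord → ε ∈ E ∧ γ < ε) := by
    intro γ
    by_cases h : γ < σ.ord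
    · obtain ⟨ε, h1, h2⟩ := hE.unb γ h
      exact ⟨ε, h2.le, fun _ => ⟨h1, h2⟩⟩
    · exact ⟨γ, le_rfl, fun h' => absurd h' h⟩
  choose N hN1 hN2 using hch
  set Φ : Ordinal.{0} → (Ordinal.{0} → Ordinal.{0}) → Ordinal.{0} := fun i g => N (g i) with hΦ
  have hval : ∀ i, rval Φ i = N (rseq Φ i) := by
    intro i
    simp [rval, hΦ]
  have hle : ∀ i, rseq Φ i ≤ rval Φ i := fun i => by
    rw [hval]
    exact hN1 _
  have hlt : rseq Φ ρ.ord < σ.ord := by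
    apply rseq_lt_of_cof
    · rw [card_ord, hσ.cof_ord]
      exact h
    · intro i _ h1
      rw [hval]
      exact hE.lt _ (hN2 _ h1).1
  refine ⟨rseq Φ ρ.ord, hlt, ?_, ?_⟩
  · rw [cof_rseq hle, hρ.cof_ord]
  · intro γ hγ
    obtain ⟨i, hi, h1⟩ := lt_rseq hγ
    have hlim : IsSuccLimit ρ.ord := isSuccLimit_ord hρ.aleph0_le
    have h2 : i + 1 < ρ.ord := hlim.add_one_lt hi
    have h3 : rseq Φ (i + 1) < σ.ord := (rseq_lt hle h2).trans hlt
    refine ⟨rval Φ (i + 1), ?_, ?_, rval_lt h2⟩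
    · rw [hval]
      exact (hN2 _ h3).1
    · exact h1.trans_lt ((rval_lt (lt_add_one i)).trans_le (hle _))

/-- a decreasing sequence of sets defined by recursion -/
def cseq (o : Ordinal.{0}) (W : Set Ordinal.{0} → Set Ordinal.{0}) (α : Ordinal.{0}) :
    Set Ordinal.{0} :=
  {β | β < o ∧ ∀ α' : {α' : Ordinal.{0} // α' < α}, β ∈ W (cseq o W α'.1)}
termination_by α
decreasing_by exact α'.2

theorem mem_cseq {o : Ordinal.{0}} {W : Set Ordinal.{0} → Set Ordinal.{0}} {α β : Ordinal.{0}} :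
    β ∈ cseq o W α ↔ β < o ∧ ∀ α' < α, β ∈ W (cseq o W α') := by
  rw [cseq]
  constructor
  · exact fun h => ⟨h.1, fun α' h' => h.2 ⟨α', h'⟩⟩
  · exact fun h => ⟨h.1, fun α' => h.2 _ α'.2⟩

/-- CLUB GUESSING at `ρ⁺⁺`, cofinality `ρ > ω`. -/
theorem club_guess {ρ : Cardinal.{0}} (hρ : ρ.IsRegular) (hρ' : ℵ₀ < ρ) :
    ∃ D : Ordinal.{0} → Set Ordinal.{0}, (∀ δ, #(D δ) ≤ up ρ) ∧
      ∀ E, IsClubIn E (succ (succ ρ)).ord → ∃ δ < (succ (succ ρ)).ord, δ.cof = ρ ∧ D δ ⊆ E ∧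
        (∀ α ∈ D δ, α < δ) ∧ ∀ γ < δ, ∃ ε ∈ D δ, γ < ε := by
  classical
  set σ : Cardinal.{0} := succ (succ ρ) with hσdef
  have hρσ' : ρ < succ ρ := lt_succ ρ
  have hρσ'' : succ ρ < σ := lt_succ _
  have hρσ : ρ < σ := hρσ'.trans hρσ''
  have hσ : σ.IsRegular := isRegular_succ (hρ.aleph0_le.trans hρσ'.le)
  have hσcof : σ.ord.cof = σ := hσ.cof_ord
  have hσ0 : ℵ₀ < σ.ord.cof := by
    rw [hσcof]
    exact hρ'.trans hρσ
  -- the small clubs
  have hC : ∀ δ : Ordinal.{0}, ∃ C : Set Ordinal.{0}, #C ≤ up ρ ∧ (δ.cof = ρ → IsClubIn C δ) := by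
    intro δ
    by_cases h : δ.cof = ρ
    · obtain ⟨C, h1, h2⟩ := exists_small_club (δ := δ) (by rw [h]; exact hρ.aleph0_le)
      rw [h] at h2
      exact ⟨C, h2, fun _ => h1⟩
    · exact ⟨∅, by simp, fun h' => absurd h' h⟩
  choose C hC1 hC2 using hC
  -- a club `E₀` which works
  have key : ∃ E₀, IsClubIn E₀ σ.ord ∧ ∀ E, E ⊆ E₀ → IsClubIn E σ.ord →
      ∃ δ < σ.ord, δ.cof = ρ ∧ (∀ γ < δ, ∃ ε ∈ E, γ < ε ∧ ε < δ) ∧ C δ ∩ E₀ ⊆ E := by
    by_contra hcon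
    push Not at hcon
    have hW : ∀ E₀ : Set Ordinal.{0}, ∃ E : Set Ordinal.{0}, IsClubIn E₀ σ.ord → E ⊆ E₀ ∧
        IsClubIn E σ.ord ∧ ∀ δ < σ.ord, δ.cof = ρ → (∀ γ < δ, ∃ ε ∈ E, γ < ε ∧ ε < δ) →
          ¬ C δ ∩ E₀ ⊆ E := by
      intro E₀
      by_cases h : IsClubIn E₀ σ.ord
      · obtain ⟨E, h1, h2, h3⟩ := hcon E₀ h
        exact ⟨E, fun _ => ⟨h1, h2, h3⟩⟩
      · exact ⟨∅, fun h' => absurd h' h⟩
    choose W hW using hW
    have hclub : ∀ α, α ≤ (succ ρ).ord → IsClubIn (cseq σ.ord W α) σ.ord := by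
      intro α
      induction α using WellFoundedLT.induction with
      | _ α ih =>
        intro hα
        have hT : #{α' : Ordinal.{0} // α' < α} < up σ.ord.cof := by
          have h1 : #(Iio α) = up α.card := Cardinal.mk_Iio_ordinal α
          refine lt_of_eq_of_lt h1 (Cardinal.lift_lt.2 ?_)
          rw [hσcof]
          refine (Ordinal.card_le_card hα).trans_lt ?_
          rw [card_ord]
          exact hρσ''
        have h1 := club_iInter hσ0 hT (E := fun α' : {α' : Ordinal.{0} // α' < α} =>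
          W (cseq σ.ord W α'.1)) (fun t => (hW _ (ih t.1 t.2 (t.2.le.trans hα))).2.1)
        rw [cseq]
        exact h1
    obtain ⟨δ, hδ1, hδ2, hδ3⟩ := exists_lim_cof hσ hρ hρσ (hclub _ le_rfl)
    have hx : ∀ α : Iio (succ ρ).ord, ∃ x, x ∈ C δ ∧ x ∈ cseq σ.ord W α.1 ∧
        x ∉ W (cseq σ.ord W α.1) := by
      intro α
      have hα : α.1 < (succ ρ).ord := α.2
      have h1 := (hW _ (hclub α.1 hα.le)).2.2 δ hδ1 hδ2 (fun γ hγ => by
        obtain ⟨ε, h2, h3⟩ := hδ3 γ hγ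
        exact ⟨ε, (mem_cseq.1 h2).2 _ hα, h3⟩)
      rw [Set.not_subset] at h1
      obtain ⟨x, h2, h3⟩ := h1
      exact ⟨x, h2.1, h2.2, h3⟩
    choose x hx1 hx2 hx3 using hx
    have hinj : Function.Injective (fun α => (⟨x α, hx1 α⟩ : C δ)) := by
      intro α α' h
      have h1 : x α = x α' := congrArg Subtype.val h
      rcases lt_trichotomy α.1 α'.1 with h2 | h2 | h2
      · exact absurd (h1 ▸ (mem_cseq.1 (hx2 α')).2 _ h2) (hx3 α)
      · exact Subtype.ext h2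
      · exact absurd (h1 ▸ (mem_cseq.1 (hx2 α)).2 _ h2) (hx3 α')
    have h1 := (Cardinal.mk_le_of_injective hinj).trans (hC1 δ)
    rw [mk_Iio_ord] at h1
    exact absurd (Cardinal.lift_le.1 h1) (not_le.2 hρσ')
  obtain ⟨E₀, h0, hkey⟩ := key
  refine ⟨fun δ => C δ ∩ E₀, fun δ => ?_, ?_⟩
  · exact (Cardinal.mk_le_mk_of_subset inter_subset_left).trans (hC1 δ)
  · intro E hE
    obtain ⟨δ, h1, h2, h3, h4⟩ := hkey (E ∩ E₀) inter_subset_right (hE.inter hσ0 h0)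
    have hδ0 : ℵ₀ < δ.cof := by
      rw [h2]
      exact hρ'
    have hE0δ : IsClubIn (E₀ ∩ Iio δ) δ := by
      refine ⟨fun α h => h.2, fun γ hγ => ?_, fun β hβ0 hβ h => ⟨?_, hβ⟩⟩
      · obtain ⟨ε, h5, h6, h7⟩ := h3 γ hγ
        exact ⟨ε, ⟨h5.2, h7⟩, h6⟩
      · refine h0.closed β hβ0 (hβ.trans h1) fun γ hγ => ?_
        obtain ⟨ε, h5, h6, h7⟩ := h γ hγ
        exact ⟨ε, h5.1, h6, h7⟩
    have hD := (hC2 δ h2).inter hδ0 hE0δ
    refine ⟨δ, h1, h2, fun α hα => (h4 hα).1, fun α hα => (hC2 δ h2).lt _ hα.1, fun γ hγ => ?_⟩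
    obtain ⟨ε, h5, h6⟩ := hD.unb γ hγ
    exact ⟨ε, ⟨h5.1, h5.2.1⟩, h6⟩

end Pool.Agent.STP
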