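import Pool.Agent.STP.CofStep

/-!
Module COFLARGE: Claim 1 of section 1 of the text (cases (i), (ii), (iii) from `no_small_cof`).
-/

open Cardinal Ordinal Order Set Filter

namespace Pool.Agent.STP

/-- an increasing cofinal function `cof o → o` -/
theorem COFL_fund (o : Ordinal.{0}) : ∃ e : Ordinal.{0} → Ordinal.{0},
    (∀ i < o.cof.ord, e i < o) ∧ (∀ i j, i ≤ j → j < o.cof.ord → e i ≤ e j) ∧
    (∀ α < o, ∃ i < o.cof.ord, α ≤ e i) := by
  classical
  obtain ⟨f, hf⟩ := Ordinal.exists_isFundamentalSeq (o := o) rfl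
  refine ⟨fun i => if h : i < o.cof.ord then (f ⟨i, h⟩).1 else 0, ?_, ?_, ?_⟩
  · intro i hi
    simp only [dif_pos hi]
    exact (f ⟨i, hi⟩).2
  · intro i j hij hj
    simp only [dif_pos hj, dif_pos (hij.trans_lt hj)]
    have h := hf.strictMono.monotone (a := ⟨i, hij.trans_lt hj⟩) (b := ⟨j, hj⟩) hij
    exact h
  · intro α hα
    obtain ⟨_, ⟨i, rfl⟩, hi⟩ := hf.isCofinal_range ⟨α, hα⟩
    refine ⟨i.1, i.2, ?_⟩
    simp only [dif_pos (show i.1 < o.cof.ord from i.2)]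
    exact hi

/-- case (i): cofinalities `≤ ν₀` -/
theorem cof_case_one {κ χ ν₀ μ ν : Cardinal.{0}} (S : Setup κ χ ν₀ μ) (hν : Lim ν₀ μ ν)
    {s : Ordinal.{0} → Cardinal.{0} → Ordinal.{0}} (hs : IsInc ν₀ ν s)
    {δ : Cardinal.{0} → Ordinal.{0}} (hδ : IsEub ν₀ ν s δ) :
    ∀ᶠ b in near ν, ν₀ < (δ b).cof := by
  classical
  by_contra hcon
  rw [Filter.not_eventually] at hcon
  set X : Set Cardinal.{0} := {b | b ∈ Ico ν₀ ν ∧ (δ b).cof ≤ ν₀ ∧ 0 < δ b} with hXd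
  have hpos : ∀ᶠ b in near ν, 0 < δ b := by
    have h0 : (0 : Ordinal.{0}) < (succ ν).ord := by
      rw [ord_pos]; exact bot_lt_succ ν
    filter_upwards [hδ.ub 0 h0] with b hb
    exact (zero_le (a := s 0 b)).trans_lt hb
  have hX : ∃ᶠ b in near ν, b ∈ X := by
    refine (hcon.and_eventually (hpos.and ((near_lt ν).and (near_ge hν.1)))).mono ?_
    rintro b ⟨h1, h2, h3, h4⟩
    exact ⟨⟨h4, h3⟩, not_lt.1 h1, h2⟩
  choose e he1 he2 he3 using fun b => COFL_fund (δ b)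
  have hρ : ∀ b ∈ X, 0 < (δ b).cof.ord := by
    intro b hb
    rw [ord_pos, Ordinal.cof_pos]
    exact hb.2.2
  have hXc : #X ≤ up χ := by
    refine le_trans (mk_le_mk_of_subset (fun b hb => hb.1)) (hν.card_Ico_le S)
  refine no_small_cof S hν hs hδ X hX (fun b => (δ b).cof.ord) e (fun b _ => he1 b)
    (fun b _ => he2 b) (fun b _ => he3 b) hρ (X → Iio ν₀.ord) ?_
    (fun ξ b => if h : b ∈ X then (if (ξ ⟨b, h⟩).1 < (δ b).cof.ord then (ξ ⟨b, h⟩).1 else 0)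
      else 0) ?_ ?_
  · rw [← power_def, mk_Iio_ord]
    have hne : up ν₀ ≠ 0 := by
      have := S.aleph0_le_ν₀
      intro h
      rw [Cardinal.lift_eq_zero] at h
      rw [h] at this
      exact absurd this (not_le.2 aleph0_pos)
    calc up ν₀ ^ #X ≤ up ν₀ ^ up χ := power_le_power_left hne hXc
      _ = up (ν₀ ^ χ) := (lift_power _ _).symm
      _ = up ν₀ := by rw [S.pow_χ]
      _ ≤ up ν := lift_le.2 hν.1.le
  · intro ξ b hb
    simp only [dif_pos hb]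
    split_ifs with h
    · exact h
    · exact hρ b hb
  · intro g hg
    refine ⟨fun b => ⟨g b.1, (hg b.1 b.2).trans_le (ord_le_ord.2 b.2.2.1)⟩, ?_⟩
    refine Filter.Eventually.of_forall (fun b hb => ?_)
    simp only [dif_pos hb, if_pos (hg b hb)]
    exact le_rfl

/-- case (ii): a fixed successor cofinality -/
theorem cof_case_two {κ χ ν₀ μ ν : Cardinal.{0}} (S : Setup κ χ ν₀ μ) (hν : Lim ν₀ μ ν)
    {s : Ordinal.{0} → Cardinal.{0} → Ordinal.{0}} (hs : IsInc ν₀ ν s)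
    {δ : Cardinal.{0} → Ordinal.{0}} (hδ : IsEub ν₀ ν s δ) (r : Cardinal.{0}) (hr : ν₀ < r)
    (hr' : r < ν) (hreg : r.IsRegular) : ∀ᶠ b in near ν, (δ b).cof ≠ r := by
  classical
  by_contra hcon
  rw [Filter.not_eventually] at hcon
  set X : Set Cardinal.{0} := {b | (δ b).cof = r} with hXd
  have hX : ∃ᶠ b in near ν, b ∈ X := hcon.mono (fun b hb => not_not.1 hb)
  choose e he1 he2 he3 using fun b => COFL_fund (δ b)
  have hXr : ∀ b ∈ X, (δ b).cof.ord = r.ord := fun b hb => by rw [show (δ b).cof = r from hb]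
  refine no_small_cof S hν hs hδ X hX (fun _ => r.ord) e
    (fun b hb i hi => he1 b i (by rw [hXr b hb]; exact hi))
    (fun b hb i j hij hj => he2 b i j hij (by rw [hXr b hb]; exact hj))
    (fun b hb α hα => by
      obtain ⟨i, h1, h2⟩ := he3 b α hα
      exact ⟨i, by rw [← hXr b hb]; exact h1, h2⟩)
    (fun _ _ => ord_pos.2 (aleph0_pos.trans_le hreg.1))
    (Iio r.ord) ?_ (fun ξ _ => ξ.1) (fun ξ _ _ => ξ.2) ?_
  · rw [mk_Iio_ord]
    exact lift_le.2 hr'.le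
  · intro g hg
    have hT : #(↥(X ∩ Ico ν₀ ν)) < up r := by
      refine lt_of_le_of_lt (mk_le_mk_of_subset (inter_subset_right)) ?_
      refine lt_of_le_of_lt (hν.card_Ico_le S) ?_
      exact lift_lt.2 (S.χ_lt.trans hr)
    obtain ⟨γ, hγ, hγ'⟩ := sup_bound hreg hT (fun b => g b.1) (fun b => hg b.1 b.2.1)
    refine ⟨⟨γ, hγ⟩, ?_⟩
    filter_upwards [near_lt ν, near_ge hν.1] with b h1 h2 hb
    exact hγ' ⟨b, hb, h2, h1⟩

/-- case (iii): cofinalities converging to a limit cardinal `ν' < ν` on an unbounded set -/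
theorem cof_case_three {κ χ ν₀ μ ν : Cardinal.{0}} (S : Setup κ χ ν₀ μ) (hν : Lim ν₀ μ ν)
    {s : Ordinal.{0} → Cardinal.{0} → Ordinal.{0}} (hs : IsInc ν₀ ν s)
    {δ : Cardinal.{0} → Ordinal.{0}} (hδ : IsEub ν₀ ν s δ) (ν' : Cardinal.{0}) (h : ν' < ν)
    (hν' : Lim ν₀ μ ν') {F : Ordinal.{0} → Cardinal.{0} → Ordinal.{0}} (hF : IsScale ν₀ ν' F)
    (hmin : ∀ r < ν', ∀ᶠ b in near ν, r < (δ b).cof) : ∀ᶠ b in near ν, ν' < (δ b).cof := by
  classical
  by_contra hcon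
  rw [Filter.not_eventually] at hcon
  set X : Set Cardinal.{0} := {b | b ∈ Ico ν₀ ν ∧ ν₀ < (δ b).cof ∧ (δ b).cof ≤ ν'} with hXd
  have hX : ∃ᶠ b in near ν, b ∈ X := by
    refine (hcon.and_eventually ((hmin ν₀ hν'.1).and ((near_lt ν).and (near_ge hν.1)))).mono ?_
    rintro b ⟨h1, h2, h3, h4⟩
    exact ⟨⟨h4, h3⟩, h2, not_lt.1 h1⟩
  have hc : ∀ b : Cardinal.{0}, ∃ c, b ∈ X → ν₀ ≤ c ∧ c < ν' ∧ (δ b).cof = succ c := by
    intro b
    by_cases hb : b ∈ X
    · have h1 : ℵ₀ ≤ (δ b).cof := S.aleph0_le_ν₀.trans hb.2.1.le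
      have h2 : IsSuccLimit (δ b) := by
        rwa [Ordinal.aleph0_le_cof_iff, Ordinal.one_lt_cof_iff] at h1
      have h3 : (δ b).cof.IsRegular := isRegular_cof h2
      have h4 : (δ b).cof ≠ ν' := by
        intro h5
        rw [h5] at h3
        exact hν'.not_regular S h3
      obtain ⟨c, h5, h6, h7⟩ := hν'.regular_succ S h3 hb.2.1 (lt_of_le_of_ne hb.2.2 h4)
      exact ⟨c, fun _ => ⟨h5, h6, h7⟩⟩
    · exact ⟨0, fun h => absurd h hb⟩
  choose c hc using hc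
  choose e he1 he2 he3 using fun b => COFL_fund (δ b)
  have hρ : ∀ b ∈ X, (δ b).cof.ord = (succ (c b)).ord := fun b hb => by rw [(hc b hb).2.2]
  refine no_small_cof S hν hs hδ X hX (fun b => (succ (c b)).ord) e
    (fun b hb i hi => he1 b i (by rw [hρ b hb]; exact hi))
    (fun b hb i j hij hj => he2 b i j hij (by rw [hρ b hb]; exact hj))
    (fun b hb α hα => by
      obtain ⟨i, h1, h2⟩ := he3 b α hα
      exact ⟨i, by rw [← hρ b hb]; exact h1, h2⟩)
    (fun _ _ => ord_pos.2 (bot_lt_succ _))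
    (Iio (succ ν').ord) ?_ (fun ξ b => F ξ.1 (c b)) ?_ ?_
  · rw [mk_Iio_ord]
    exact lift_le.2 (succ_le_of_lt h)
  · intro ξ b hb
    exact hF.lt ξ.1 ξ.2 (c b) (hc b hb).1 (hc b hb).2.1
  · intro g hg
    have hg' : ∀ a : Cardinal.{0}, ∃ γ : Ordinal.{0}, ν₀ ≤ a → a < ν' →
        γ < (succ a).ord ∧ ∀ b ∈ X, c b = a → g b ≤ γ := by
      intro a
      by_cases ha : ν₀ ≤ a ∧ a < ν'
      · have hT : #(↥{b | b ∈ X ∧ c b = a}) < up (succ a) := by
          refine lt_of_le_of_lt (mk_le_mk_of_subset (t := Ico ν₀ ν) (fun b hb => hb.1.1)) ?_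
          refine lt_of_le_of_lt (hν.card_Ico_le S) ?_
          exact lift_lt.2 ((S.χ_lt.trans_le ha.1).trans_le (le_succ a))
        obtain ⟨γ, hγ, hγ'⟩ := sup_bound (S.succ_regular ha.1) hT (fun b => g b.1)
          (fun b => by
            have := hg b.1 b.2.1
            rw [b.2.2] at this
            exact this)
        exact ⟨γ, fun _ _ => ⟨hγ, fun b hb hb' => hγ' ⟨b, hb, hb'⟩⟩⟩
      · exact ⟨0, fun h1 h2 => absurd ⟨h1, h2⟩ ha⟩
    choose g' hg' using hg'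
    obtain ⟨ξ, hξ, hξ'⟩ := hF.cofinal g' (fun b h1 h2 => (hg' b h1 h2).1)
    rw [near_iff hν'.pos] at hξ'
    obtain ⟨c₀, hc₀, hc₁⟩ := hξ'
    refine ⟨⟨ξ, hξ⟩, ?_⟩
    filter_upwards [hmin c₀ hc₀] with b hb hbX
    obtain ⟨h1, h2, h3⟩ := hc b hbX
    rw [h3] at hb
    have h4 : c₀ ≤ c b := lt_succ_iff.1 hb
    exact ((hg' (c b) h1 h2).2 b hbX rfl).trans (hc₁ (c b) h4 h2)

theorem cof_large {κ χ ν₀ μ ν : Cardinal.{0}} (S : Setup κ χ ν₀ μ) (hν : Lim ν₀ μ ν)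
    (IH : ∀ ν' < ν, Lim ν₀ μ ν' → ∃ F, IsScale ν₀ ν' F)
    {s : Ordinal.{0} → Cardinal.{0} → Ordinal.{0}} (hs : IsInc ν₀ ν s)
    {δ : Cardinal.{0} → Ordinal.{0}} (hδ : IsEub ν₀ ν s δ) :
    ∀ b' < ν, ∀ᶠ b in near ν, b' < (δ b).cof := by
  intro b'
  induction b' using WellFoundedLT.induction with
  | ind b' ih =>
    intro hb'
    rcases le_or_gt b' ν₀ with h | h
    · filter_upwards [cof_case_one S hν hs hδ] with b hb
      exact h.trans_lt hb
    · rcases hν.lim_or_succ h hb' with hl | ⟨c, hc1, hc2, hc3⟩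
      · obtain ⟨F, hF⟩ := IH b' hb' hl
        exact cof_case_three S hν hs hδ b' hb' hl hF (fun r hr => ih r hr (hr.trans hb'))
      · have hreg : b'.IsRegular := by rw [hc3]; exact S.succ_regular hc1
        filter_upwards [ih c hc2 (hc2.trans hb'), cof_case_two S hν hs hδ b' h hb' hreg]
          with b h1 h2
        refine lt_of_le_of_ne ?_ (Ne.symm h2)
        rw [hc3]
        exact succ_le_of_lt h1

end Pool.Agent.STP
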