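import Pool.Agent.STP.Basic

/-!
Module COFSTEP: the abstract step (*) of section 1 of the text.
-/

open Cardinal Ordinal Order Set Filter

namespace Pool.Agent.STP

theorem no_small_cof {κ χ ν₀ μ ν : Cardinal.{0}} (S : Setup κ χ ν₀ μ) (hν : Lim ν₀ μ ν)
    {s : Ordinal.{0} → Cardinal.{0} → Ordinal.{0}} (hs : IsInc ν₀ ν s)
    {δ : Cardinal.{0} → Ordinal.{0}} (hδ : IsEub ν₀ ν s δ)
    (X : Set Cardinal.{0}) (hX : ∃ᶠ b in near ν, b ∈ X)
    (ρ : Cardinal.{0} → Ordinal.{0}) (e : Cardinal.{0} → Ordinal.{0} → Ordinal.{0})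
    (e_lt : ∀ b ∈ X, ∀ i < ρ b, e b i < δ b)
    (e_mono : ∀ b ∈ X, ∀ i j, i ≤ j → j < ρ b → e b i ≤ e b j)
    (e_cof : ∀ b ∈ X, ∀ α < δ b, ∃ i < ρ b, α ≤ e b i)
    (hρ : ∀ b ∈ X, 0 < ρ b)
    (I : Type 1) (hI : #I ≤ up ν) (G : I → Cardinal.{0} → Ordinal.{0})
    (hG : ∀ ξ, ∀ b ∈ X, G ξ b < ρ b)
    (hGcof : ∀ g : Cardinal.{0} → Ordinal.{0}, (∀ b ∈ X, g b < ρ b) →
      ∃ ξ, ∀ᶠ b in near ν, b ∈ X → g b ≤ G ξ b) : False := by
  classical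
  have hreg : (succ ν).IsRegular := hν.succ_regular S
  choose γf hγf hγe using fun ξ : I => hδ.exa (fun b => e b (G ξ b))
  have hlt : #I < up (succ ν) :=
    lt_of_le_of_lt hI (Cardinal.lift_strictMono.lt_iff_lt.2 (lt_succ ν))
  obtain ⟨γ, hγ, hle⟩ := sup_bound hreg hlt γf hγf
  have hub := hδ.ub γ hγ
  let g : Cardinal.{0} → Ordinal.{0} := fun b =>
    if h : b ∈ X ∧ s γ b < δ b then (e_cof b h.1 _ h.2).choose else 0
  have hg1 : ∀ b ∈ X, g b < ρ b := by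
    intro b hb
    by_cases h : b ∈ X ∧ s γ b < δ b
    · simp only [g, dif_pos h]
      exact (e_cof b h.1 _ h.2).choose_spec.1
    · simp only [g, dif_neg h]
      exact hρ b hb
  have hg2 : ∀ b, b ∈ X → s γ b < δ b → s γ b ≤ e b (g b) := by
    intro b hb h'
    have h : b ∈ X ∧ s γ b < δ b := ⟨hb, h'⟩
    simp only [g, dif_pos h]
    exact (e_cof b h.1 _ h.2).choose_spec.2
  obtain ⟨ξ, hξ⟩ := hGcof g hg1
  have hmono : ∀ᶠ b in near ν, s (γf ξ) b ≤ s γ b := by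
    rcases (hle ξ).eq_or_lt with h | h
    · exact Filter.Eventually.of_forall fun b => by rw [h]
    · exact (hs.inc _ _ h hγ).mono fun b hb => hb.le
  obtain ⟨b, hbX, h1, h2, h3, h4⟩ :=
    (hX.and_eventually (hub.and (hξ.and ((hγe ξ).and hmono)))).exists
  have h6 := e_mono b hbX _ _ (h2 hbX) (hG ξ b hbX)
  have h7 := h3 (e_lt b hbX _ (hG ξ b hbX))
  exact absurd ((hg2 b hbX h1).trans h6) (not_le.2 (h7.trans_le h4))

end Pool.Agent.STP
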