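import Pool.Agent.STP.Det

/-!
Module COUNTN: at most `μ⁺` many sets `N ∩ μ` (COUNT, first half, of section 7 of the text).
-/

open Cardinal Ordinal Order Set Filter

namespace Pool.Agent.STP

theorem COUNTN_pow {κ χ ν₀ μ : Cardinal.{0}} (S : Setup κ χ ν₀ μ) {b : Cardinal.{0}}
    (hb : b < μ) : (succ b) ^ χ ≤ μ := by
  have h1 : succ b < μ := S.lim_top.2.2 b hb
  have h2 : χ < μ := S.χ_lt.trans S.lt
  have h3 : succ b * χ < μ := mul_lt_of_lt S.strong.aleph0_le h1 h2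
  have h4 : (2 : Cardinal.{0}) ^ (succ b * χ) < μ := S.strong.isStrongPrelimit h3
  calc (succ b) ^ χ ≤ (2 ^ (succ b)) ^ χ := power_le_power_right (cantor _).le
    _ = 2 ^ (succ b * χ) := by rw [power_mul]
    _ ≤ μ := h4.le

/-- the codes -/
abbrev COUNTN_T (ν₀ μ : Cardinal.{0}) : Type 1 :=
  Iio (succ μ).ord × (Σ b₀ : Ico ν₀ μ, (Ico ν₀ (b₀ : Cardinal.{0}) → Iio (succ (b₀ : Cardinal.{0})).ord))

theorem COUNTN_card {κ χ ν₀ μ : Cardinal.{0}} (S : Setup κ χ ν₀ μ) :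
    #(COUNTN_T ν₀ μ) ≤ up (succ μ) := by
  have hμ : ℵ₀ ≤ μ := S.strong.aleph0_le
  have h1 : #(Σ b₀ : Ico ν₀ μ, (Ico ν₀ (b₀ : Cardinal.{0}) →
      Iio (succ (b₀ : Cardinal.{0})).ord)) ≤ up μ := by
    rw [mk_sigma]
    have h2 : ∀ b₀ : Ico ν₀ μ, #(Ico ν₀ (b₀ : Cardinal.{0}) →
        Iio (succ (b₀ : Cardinal.{0})).ord) ≤ up μ := by
      intro b₀
      rw [mk_arrow, Cardinal.lift_id, Cardinal.lift_id, mk_Iio_ord]
      have h3 : #(Ico ν₀ (b₀ : Cardinal.{0})) ≤ up χ :=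
        (mk_le_mk_of_subset (Ico_subset_Ico_right b₀.2.2.le)).trans S.few
      have h4 : up (succ (b₀ : Cardinal.{0})) ≠ 0 := by
        rw [up, ne_eq, lift_eq_zero]
        exact (succ_ne_zero _)
      refine (power_le_power_left h4 h3).trans ?_
      rw [up, up, ← lift_power]
      exact lift_le.2 (COUNTN_pow S b₀.2.2)
    refine (sum_le_sum _ _ h2).trans ?_
    rw [sum_const, Cardinal.lift_id, Cardinal.lift_id]
    have h5 : #(Ico ν₀ μ) ≤ up μ := S.few.trans (lift_le.2 (S.χ_lt.trans S.lt).le)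
    refine (mul_le_mul' h5 le_rfl).trans ?_
    rw [mul_eq_self]
    rw [up, aleph0_le_lift]
    exact hμ
  rw [mk_prod, Cardinal.lift_id, Cardinal.lift_id, mk_Iio_ord]
  have h2 : up μ ≤ up (succ μ) := lift_le.2 (le_succ μ)
  refine (mul_le_mul' le_rfl (h1.trans h2)).trans ?_
  rw [mul_eq_self]
  rw [up, aleph0_le_lift]
  exact hμ.trans (le_succ μ)

theorem count_N {κ χ ν₀ μ : Cardinal.{0}} (S : Setup κ χ ν₀ μ)
    {z : Ordinal.{0} → Ordinal.{0} → Ordinal.{0}} (hz : IsZ z)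
    {F : Ordinal.{0} → Cardinal.{0} → Ordinal.{0}} (hF : IsScale ν₀ μ F) :
    #{A : Set Ordinal.{0} | ∃ N : Set Ordinal.{0}, Good ν₀ z N ∧ #N ≤ up ν₀ ∧
      (∃ γ < (succ μ).ord, IsLubAt μ F N γ) ∧ A = N ∩ Iio μ.ord} ≤ up (succ μ) := by
  classical
  set 𝒜 := {A : Set Ordinal.{0} | ∃ N : Set Ordinal.{0}, Good ν₀ z N ∧ #N ≤ up ν₀ ∧
      (∃ γ < (succ μ).ord, IsLubAt μ F N γ) ∧ A = N ∩ Iio μ.ord} with h𝒜
  have hpos : 0 < μ := S.lim_top.pos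
  -- data
  have hA : ∀ A : 𝒜, ∃ N : Set Ordinal.{0}, ∃ γ : Iio (succ μ).ord, Good ν₀ z N ∧
      IsLubAt μ F N γ.1 ∧ A.1 = N ∩ Iio μ.ord := by
    rintro ⟨A, N, h1, _, ⟨γ, h3, h4⟩, h5⟩
    exact ⟨N, ⟨γ, h3⟩, h1, h4, h5⟩
  choose N γ hN using hA
  -- representatives
  set R : Iio (succ μ).ord → Set Ordinal.{0} := fun g =>
    if h : ∃ A : 𝒜, γ A = g then N h.choose else ∅ with hR
  have hRlub : ∀ A : 𝒜, IsLubAt μ F (R (γ A)) (γ A).1 := by
    intro A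
    have h : ∃ A' : 𝒜, γ A' = γ A := ⟨A, rfl⟩
    have h1 : R (γ A) = N h.choose := by
      rw [hR]
      simp only
      rw [dif_pos h]
    have h2 := (hN h.choose).2.1
    rw [h.choose_spec] at h2
    rw [h1]; exact h2
  have hthr : ∀ A : 𝒜, ∃ b₀ : Ico ν₀ μ, ∀ b, b₀.1 ≤ b → b < μ → chr (N A) b = chr (R (γ A)) b := by
    intro A
    have h1 := (hN A).2.1.lub (chr (R (γ A))) (hRlub A).ub
    have h2 := (hRlub A).lub (chr (N A)) (hN A).2.1.ub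
    obtain ⟨b₀, hb₀, h3⟩ := (near_iff hpos).1 (h1.and h2)
    refine ⟨⟨max ν₀ b₀, le_max_left _ _, max_lt S.lt hb₀⟩, fun b hb hbμ => ?_⟩
    obtain ⟨h4, h5⟩ := h3 b ((le_max_right _ _).trans hb) hbμ
    exact le_antisymm h4 h5
  choose B hB using hthr
  have hval : ∀ A : 𝒜, ∀ b : Ico ν₀ ((B A : Ico ν₀ μ) : Cardinal.{0}),
      chr (N A) b < (succ ((B A : Ico ν₀ μ) : Cardinal.{0})).ord := by
    intro A b
    have h1 : chr (N A) b ≤ (succ (b : Cardinal.{0})).ord := ssup_le (fun x hx => hx.2)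
    refine h1.trans_lt ?_
    rw [ord_lt_ord]
    exact lt_of_le_of_lt (succ_le_of_lt b.2.2) (lt_succ _)
  set code : 𝒜 → COUNTN_T ν₀ μ := fun A =>
    (γ A, ⟨B A, fun b => ⟨chr (N A) b, hval A b⟩⟩) with hcode
  refine (mk_le_of_injective (f := code) ?_).trans (COUNTN_card S)
  intro A A' hAA
  have e1 : γ A = γ A' := congrArg Prod.fst hAA
  have e2 := congrArg Prod.snd hAA
  have e3 : B A = B A' := congrArg Sigma.fst e2
  have e4 : ∀ b, ν₀ ≤ b → b < (B A).1 → chr (N A) b = chr (N A') b := by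
    intro b hb hb'
    have hfun : ∀ (x y : (Σ b₀ : Ico ν₀ μ, (Ico ν₀ (b₀ : Cardinal.{0}) →
        Iio (succ (b₀ : Cardinal.{0})).ord))), x = y → ∀ (h1 : b < x.1.1) (h2 : b < y.1.1),
        (x.2 ⟨b, hb, h1⟩).1 = (y.2 ⟨b, hb, h2⟩).1 := by
      rintro x y rfl h1 h2
      rfl
    exact hfun _ _ e2 hb' (show b < (B A').1 by rw [← e3]; exact hb')
  apply Subtype.ext
  rw [(hN A).2.2, (hN A').2.2]
  refine det S hz (hN A).1 (hN A').1 ?_
  intro b hb hbμ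
  rcases lt_or_ge b (B A).1 with h1 | h1
  · exact e4 b hb h1
  · rw [hB A b h1 hbμ, hB A' b (by rw [← e3]; exact h1) hbμ, e1]

end Pool.Agent.STP
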