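import Pool.Agent.STP.CountN
import Pool.Agent.STP.Chain

/-!
Module COUNTX: at most `μ⁺` many subsets of `μ` of size `≤ χ`.
-/

open Cardinal Ordinal Order Set Filter

namespace Pool.Agent.STP

theorem count_X {κ χ ν₀ μ : Cardinal.{0}} (S : Setup κ χ ν₀ μ)
    {z : Ordinal.{0} → Ordinal.{0} → Ordinal.{0}} (hz : IsZ z)
    {F : Ordinal.{0} → Cardinal.{0} → Ordinal.{0}} (hF : IsScale ν₀ μ F) :
    #{X : Set Ordinal.{0} | X ⊆ Iio μ.ord ∧ #X ≤ up χ} ≤ up (succ μ) := by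
  classical
  set 𝒳 := {X : Set Ordinal.{0} | X ⊆ Iio μ.ord ∧ #X ≤ up χ} with h𝒳
  set 𝒜 := {A : Set Ordinal.{0} | ∃ N : Set Ordinal.{0}, Good ν₀ z N ∧ #N ≤ up ν₀ ∧
      (∃ γ < (succ μ).ord, IsLubAt μ F N γ) ∧ A = N ∩ Iio μ.ord} with h𝒜
  have hμ : ℵ₀ ≤ μ := S.strong.aleph0_le
  have h1 : ∀ X : 𝒳, ∃ A : 𝒜, X.1 ⊆ A.1 := by
    intro X
    have hX : #X.1 ≤ up ν₀ := X.2.2.trans (Cardinal.lift_le.2 S.χ_lt.le)
    obtain ⟨N, h2, h3, h4, h5⟩ := chain S hz hF X.1 hX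
    exact ⟨⟨N ∩ Iio μ.ord, N, h3, h4, h5, rfl⟩, subset_inter h2 X.2.1⟩
  choose A hA using h1
  set code : 𝒳 → (Σ A : 𝒜, Set A.1) := fun X => ⟨A X, {x | x.1 ∈ X.1}⟩ with hcode
  have hinj : Function.Injective code := by
    intro X Y hXY
    have hdec : ∀ X : 𝒳, X.1 = Subtype.val '' (code X).2 := by
      intro X
      ext x
      constructor
      · intro hx
        exact ⟨⟨x, hA X hx⟩, hx, rfl⟩
      · rintro ⟨y, hy, rfl⟩
        exact hy
    apply Subtype.ext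
    rw [hdec X, hdec Y, hXY]
  have hcard : #(Σ A : 𝒜, Set A.1) ≤ up (succ μ) := by
    rw [mk_sigma]
    have h2 : ∀ A : 𝒜, #(Set A.1) ≤ up (succ μ) := by
      rintro ⟨A, N, _, h3, _, rfl⟩
      rw [mk_set]
      have h4 : #(↑(N ∩ Iio μ.ord)) ≤ up ν₀ := (mk_le_mk_of_subset inter_subset_left).trans h3
      refine (power_le_power_left two_ne_zero h4).trans ?_
      have h5 : (2 : Cardinal.{1}) ^ up ν₀ = up (2 ^ ν₀) := by
        rw [up, up, Cardinal.lift_power, Cardinal.lift_two]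
      rw [h5]
      refine Cardinal.lift_le.2 ?_
      exact (S.strong.isStrongPrelimit S.lt).le.trans (le_succ μ)
    refine (sum_le_sum _ _ h2).trans ?_
    rw [sum_const, Cardinal.lift_id, Cardinal.lift_id]
    refine (mul_le_mul' (count_N S hz hF) le_rfl).trans ?_
    rw [mul_eq_self]
    rw [up, aleph0_le_lift]
    exact hμ.trans (le_succ μ)
  exact (mk_le_of_injective hinj).trans hcard

end Pool.Agent.STP
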