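import Mathlib

/-!
# Strong tree property and SCH at the singulars that are not fixed points of the aleph function

Definitions for MP_237dd7_lc.  Ordinals and cardinals are in universe `0`, so sets of them live in
`Type 1` and their cardinalities in `Cardinal.{1}`; `up c` is the lift of `c : Cardinal.{0}`.
-/

open Cardinal Ordinal Order Set Filter

namespace Pool.Agent.STP

/-- `c : Cardinal.{0}` lifted to `Cardinal.{1}`. -/
noncomputable abbrev up (c : Cardinal.{0}) : Cardinal.{1} := Cardinal.lift.{1, 0} c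

/-- A thin `P_κ X`-list: `d x ⊆ x` for `x ∈ P_κ X`, and for every `y ∈ P_κ X` the set
`{d x ∩ y : y ⊆ x ∈ P_κ X}` has size `< κ`. -/
structure IsThinList (κ : Cardinal.{0}) {X : Type} (d : Set X → Set X) : Prop where
  sub : ∀ x : Set X, #x < κ → d x ⊆ x
  thin : ∀ y : Set X, #y < κ → #{t : Set X | ∃ x : Set X, #x < κ ∧ y ⊆ x ∧ t = d x ∩ y} < κ

/-- `b` is a cofinal branch of the `P_κ X`-list `d`. -/
def IsBranch (κ : Cardinal.{0}) {X : Type} (d : Set X → Set X) (b : Set X) : Prop :=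
  ∀ y : Set X, #y < κ → ∃ x : Set X, #x < κ ∧ y ⊆ x ∧ b ∩ y = d x ∩ y

/-- The strong tree property at `κ`: for every cardinal `l ≥ κ` every thin `P_κ l`-list has a
cofinal branch (`l.ord.ToType` is the set of ordinals below `l`). -/
def StrongTP (κ : Cardinal.{0}) : Prop :=
  ∀ l : Cardinal.{0}, κ ≤ l → ∀ d : Set l.ord.ToType → Set l.ord.ToType,
    IsThinList κ d → ∃ b : Set l.ord.ToType, IsBranch κ d b

/-- The strict supremum `sup {α + 1 : α ∈ w}` of a set of ordinals. -/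
noncomputable def ssup (w : Set Ordinal.{0}) : Ordinal.{0} := sSup ((· + 1) '' w)

/-- The filter of sets of cardinals that contain all `b ∈ [b₀, ν)` for some `b₀ < ν`. -/
def near (ν : Cardinal.{0}) : Filter Cardinal.{0} :=
  Filter.map (fun b : Iio ν => (b : Cardinal.{0})) atTop

/-- The standing hypotheses. -/
structure Setup (κ χ ν₀ μ : Cardinal.{0}) : Prop where
  reg : κ.IsRegular
  unc : ℵ₀ < κ
  kle : κ ≤ χ
  pow : ν₀ = 2 ^ χ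
  lt : ν₀ < μ
  strong : μ.IsStrongLimit
  few : #(Ico ν₀ μ) ≤ up χ

/-- `ν` is a limit cardinal in `(ν₀, μ]`. -/
def Lim (ν₀ μ ν : Cardinal.{0}) : Prop := ν₀ < ν ∧ ν ≤ μ ∧ ∀ b < ν, succ b < ν

/-- `z ε` restricts to an injection of the ordinal `ε` into its cardinality. -/
structure IsZ (z : Ordinal.{0} → Ordinal.{0} → Ordinal.{0}) : Prop where
  lt : ∀ ε α, α < ε → z ε α < ε.card.ord
  inj : ∀ ε α α', α < ε → α' < ε → z ε α = z ε α' → α = α'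

/-- `F` is a scale of length `ν⁺` in the product of all `b⁺`, `b ∈ [ν₀, ν)`, modulo `near ν`. -/
structure IsScale (ν₀ ν : Cardinal.{0}) (F : Ordinal.{0} → Cardinal.{0} → Ordinal.{0}) : Prop where
  lt : ∀ ξ < (succ ν).ord, ∀ b, ν₀ ≤ b → b < ν → F ξ b < (succ b).ord
  mono : ∀ ξ ξ', ξ ≤ ξ' → ξ' < (succ ν).ord → ∀ᶠ b in near ν, F ξ b ≤ F ξ' b
  cofinal : ∀ h : Cardinal.{0} → Ordinal.{0}, (∀ b, ν₀ ≤ b → b < ν → h b < (succ b).ord) →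
    ∃ ξ < (succ ν).ord, ∀ᶠ b in near ν, h b ≤ F ξ b

/-- A strictly increasing sequence of length `ν⁺` in the product. -/
structure IsInc (ν₀ ν : Cardinal.{0}) (s : Ordinal.{0} → Cardinal.{0} → Ordinal.{0}) : Prop where
  lt : ∀ γ < (succ ν).ord, ∀ b, ν₀ ≤ b → b < ν → s γ b < (succ b).ord
  inc : ∀ γ γ', γ < γ' → γ' < (succ ν).ord → ∀ᶠ b in near ν, s γ b < s γ' b

/-- `δ` is an exact upper bound of `s`. -/
structure IsEub (ν₀ ν : Cardinal.{0}) (s : Ordinal.{0} → Cardinal.{0} → Ordinal.{0})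
    (δ : Cardinal.{0} → Ordinal.{0}) : Prop where
  le : ∀ b, ν₀ ≤ b → b < ν → δ b ≤ (succ b).ord
  ub : ∀ γ < (succ ν).ord, ∀ᶠ b in near ν, s γ b < δ b
  exa : ∀ h : Cardinal.{0} → Ordinal.{0}, ∃ γ < (succ ν).ord,
    ∀ᶠ b in near ν, h b < δ b → h b < s γ b

/-- The root functions of section 2 of the text. -/
structure IsRoot (ν₀ ν : Cardinal.{0}) (l : Cardinal.{0} → Cardinal.{0})
    (f : Ordinal.{0} → Cardinal.{0} → Ordinal.{0}) : Prop where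
  l_ge : ∀ b, ν₀ ≤ l b
  l_lt : ∀ b, l b < ν
  l_tend : ∀ b' < ν, ∀ᶠ b in near ν, b' ≤ l b
  f_lt : ∀ γ b, f γ b < (succ (l b)).ord
  cofinal : ∀ g : Cardinal.{0} → Ordinal.{0}, (∀ b, g b < (succ (l b)).ord) →
    ∃ γ < (succ ν).ord, ∀ᶠ b in near ν, g b < f γ b

/-- The closure of a set of ordinals `A` under unary functions, binary functions and strict
suprema of fewer than `κ` elements. -/
inductive Cl (κ : Cardinal.{0}) (A : Set Ordinal.{0}) {P Q : Type 1}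
    (u : P → Ordinal.{0} → Ordinal.{0}) (v : Q → Ordinal.{0} → Ordinal.{0} → Ordinal.{0}) :
    Ordinal.{0} → Prop
  | base : ∀ α ∈ A, Cl κ A u v α
  | un : ∀ p α, Cl κ A u v α → Cl κ A u v (u p α)
  | bin : ∀ q α β, Cl κ A u v α → Cl κ A u v β → Cl κ A u v (v q α β)
  | sup : ∀ w : Set Ordinal.{0}, #w < up κ → (∀ α ∈ w, Cl κ A u v α) → Cl κ A u v (ssup w)

/-- The hulls of section 3 of the text, with their cut functions `s`. -/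
structure IsHull (κ ν₀ ν : Cardinal.{0}) (z : Ordinal.{0} → Ordinal.{0} → Ordinal.{0})
    {P : Type 1} (u : P → Ordinal.{0} → Ordinal.{0})
    (M : Ordinal.{0} → Cardinal.{0} → Set Ordinal.{0})
    (s : Ordinal.{0} → Cardinal.{0} → Ordinal.{0}) : Prop where
  lt : ∀ γ < (succ ν).ord, ∀ b, ν₀ ≤ b → b < ν → s γ b < (succ b).ord
  mem : ∀ γ < (succ ν).ord, ∀ b, ν₀ ≤ b → b < ν → ∀ α < (succ b).ord, (α ∈ M γ b ↔ α < s γ b)
  self : ∀ γ < (succ ν).ord, ∀ b, ν₀ ≤ b → b < ν → γ ∈ M γ b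
  zmem : ∀ γ < (succ ν).ord, ∀ b, ν₀ ≤ b → b < ν → ∀ ε ∈ M γ b, ∀ α < ε,
    (α ∈ M γ b ↔ z ε α ∈ M γ b)
  sup : ∀ γ < (succ ν).ord, ∀ b, ν₀ ≤ b → b < ν → ∀ w ⊆ M γ b, #w < up κ → ssup w ∈ M γ b
  una : ∀ γ < (succ ν).ord, ∀ b, ν₀ ≤ b → b < ν → ∀ p, ∀ α ∈ M γ b, u p α ∈ M γ b
  mono : ∀ γ < (succ ν).ord, ∀ b, ν₀ ≤ b → b < ν → ∀ γ' < γ, z γ γ' < b.ord → M γ' b ⊆ M γ b
  smem : ∀ γ < (succ ν).ord, ∀ b, ν₀ ≤ b → b < ν → ∀ γ' < γ, z γ γ' < b.ord →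
    ∀ c, ν₀ ≤ c → c < ν → s γ' c ∈ M γ b

/-- All data available in sections 4-6 of the text. -/
structure Stage (κ χ ν₀ μ ν : Cardinal.{0}) (z : Ordinal.{0} → Ordinal.{0} → Ordinal.{0})
    (F : Cardinal.{0} → Ordinal.{0} → Cardinal.{0} → Ordinal.{0})
    (l : Cardinal.{0} → Cardinal.{0}) (f : Ordinal.{0} → Cardinal.{0} → Ordinal.{0})
    (M : Ordinal.{0} → Cardinal.{0} → Set Ordinal.{0})
    (s : Ordinal.{0} → Cardinal.{0} → Ordinal.{0}) (δ : Cardinal.{0} → Ordinal.{0}) : Prop where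
  setup : Setup κ χ ν₀ μ
  lim : Lim ν₀ μ ν
  isz : IsZ z
  scale : ∀ ν' < ν, Lim ν₀ μ ν' → IsScale ν₀ ν' (F ν')
  root : IsRoot ν₀ ν l f
  inc : IsInc ν₀ ν s
  eub : IsEub ν₀ ν s δ
  cof : ∀ b' < ν, ∀ᶠ b in near ν, b' < (δ b).cof
  mem : ∀ γ < (succ ν).ord, ∀ b, ν₀ ≤ b → b < ν → ∀ α < (succ b).ord, (α ∈ M γ b ↔ α < s γ b)
  zmem : ∀ γ < (succ ν).ord, ∀ b, ν₀ ≤ b → b < ν → ∀ ε ∈ M γ b, ∀ α < ε,
    (α ∈ M γ b ↔ z ε α ∈ M γ b)
  sup : ∀ γ < (succ ν).ord, ∀ b, ν₀ ≤ b → b < ν → ∀ w ⊆ M γ b, #w < up κ → ssup w ∈ M γ b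
  Fmem : ∀ γ < (succ ν).ord, ∀ b, ν₀ ≤ b → b < ν → ∀ ν' < ν, Lim ν₀ μ ν' → ∀ ξ ∈ M γ b,
    ∀ c, ν₀ ≤ c → c < ν' → F ν' ξ c ∈ M γ b
  fmem : ∀ γ < (succ ν).ord, ∀ b, ν₀ ≤ b → b < ν → ∀ c, ν₀ ≤ c → c < ν → f γ c ∈ M γ b
  mono : ∀ γ < (succ ν).ord, ∀ b, ν₀ ≤ b → b < ν → ∀ γ' < γ, z γ γ' < b.ord → M γ' b ⊆ M γ b
  smem : ∀ γ < (succ ν).ord, ∀ b, ν₀ ≤ b → b < ν → ∀ γ' < γ, z γ γ' < b.ord →
    ∀ c, ν₀ ≤ c → c < ν → s γ' c ∈ M γ b

/-- Good sets of section 7 (no bound on the size). -/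
structure Good (ν₀ : Cardinal.{0}) (z : Ordinal.{0} → Ordinal.{0} → Ordinal.{0})
    (N : Set Ordinal.{0}) : Prop where
  base : ∀ α < ν₀.ord, α ∈ N
  zmem : ∀ ε ∈ N, ∀ α < ε, (α ∈ N ↔ z ε α ∈ N)
  sup : ∀ w ⊆ N, w.Countable → ssup w ∈ N

/-- The sequence `d` of section 6b of the text. -/
structure IsSeq (ν₀ ν : Cardinal.{0}) (δ : Cardinal.{0} → Ordinal.{0}) (d : ℕ → Cardinal.{0}) :
    Prop where
  mono : StrictMono d
  ge : ∀ i, ν₀ ≤ d i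
  lt : ∀ i, d i < ν
  tend : ∀ b < ν, ∀ᶠ i in atTop, b ≤ d i
  low : ∀ i, δ (d i) < (succ (d i)).ord
  high : ∀ i, δ (succ (d i)) = (succ (succ (d i))).ord

/-- The limit sets of section 6b of the text, obtained from the strong tree property. -/
structure IsLimB (ν : Cardinal.{0}) (d : ℕ → Cardinal.{0})
    (M : Ordinal.{0} → Cardinal.{0} → Set Ordinal.{0}) (B : ℕ → Set Ordinal.{0}) : Prop where
  sub : ∀ i, B i ⊆ Iio (succ (succ (d i))).ord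
  one : ∀ y : ℕ → Set Ordinal.{0}, (∀ i, y i ⊆ Iio (succ (succ (d i))).ord) →
    (∀ i, (y i).Finite) → ∃ γ < (succ ν).ord, ∀ i, ∀ α ∈ y i, (α ∈ B i ↔ α ∈ M γ (d i))
  two : ∀ y : ℕ → Set Ordinal.{0}, (∀ i, y i ⊆ Iio (succ (succ (d i))).ord) →
    (∀ i, (y i).Finite) → ∃ γ₀ < (succ ν).ord, ∀ γ, γ₀ ≤ γ → γ < (succ ν).ord →
      ∀ᶠ i in atTop, ∀ α ∈ y i, (α ∈ B i ↔ α ∈ M γ (d i))

/-- The functions `b ↦ sup⁺(N ∩ b⁺)` of section 7. -/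
noncomputable def chr (N : Set Ordinal.{0}) (b : Cardinal.{0}) : Ordinal.{0} :=
  ssup (N ∩ Iio (succ b).ord)

/-- `chr N` is a least upper bound of `(F ξ)_{ξ < γ}` modulo `near μ`. -/
structure IsLubAt (μ : Cardinal.{0}) (F : Ordinal.{0} → Cardinal.{0} → Ordinal.{0})
    (N : Set Ordinal.{0}) (γ : Ordinal.{0}) : Prop where
  ub : ∀ ξ < γ, ∀ᶠ b in near μ, F ξ b ≤ chr N b
  lub : ∀ g : Cardinal.{0} → Ordinal.{0}, (∀ ξ < γ, ∀ᶠ b in near μ, F ξ b ≤ g b) →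
    ∀ᶠ b in near μ, chr N b ≤ g b

end Pool.Agent.STP
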