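import Pool.Agent.STP.Basic

/-!
Module DET: the lemma DET of section 7 of the text.
-/

open Cardinal Ordinal Order Set Filter

namespace Pool.Agent.STP

/-- below the common supremum the elements of a good set are unbounded -/
theorem DET_step {κ χ ν₀ μ : Cardinal.{0}} (S : Setup κ χ ν₀ μ)
    {z : Ordinal.{0} → Ordinal.{0} → Ordinal.{0}} {N : Set Ordinal.{0}}
    (hN : Good ν₀ z N) {c : Cardinal.{0}} (hc : ν₀ ≤ c) {β : Ordinal.{0}} (hβ : β < chr N c) :
    ∃ x ∈ N, β < x ∧ x < chr N c := by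
  have hreg := S.succ_regular hc
  have hunc : ℵ₀ < succ c := lt_succ_of_le (S.aleph0_le_ν₀.trans hc)
  obtain ⟨y, hy, hβy⟩ := (lt_ssup_iff (small_Iio_inter N _)).1 hβ
  have h1 : y + 1 ∈ N := by
    rw [← ssup_singleton]
    exact hN.sup {y} (singleton_subset_iff.2 hy.1) (countable_singleton y)
  have h2 : y + 1 < (succ c).ord := by
    rw [← ssup_singleton]
    refine ssup_lt_of_countable hreg hunc (countable_singleton y) ?_
    intro α hα
    rw [mem_singleton_iff] at hα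
    rw [hα]
    exact hy.2
  refine ⟨y + 1, h1, hβy.trans_lt (lt_add_one y), ?_⟩
  exact lt_ssup (small_Iio_inter N _) ⟨h1, h2⟩

theorem DET_eps {κ χ ν₀ μ : Cardinal.{0}} (S : Setup κ χ ν₀ μ)
    {z : Ordinal.{0} → Ordinal.{0} → Ordinal.{0}} {N N' : Set Ordinal.{0}}
    (hN : Good ν₀ z N) (hN' : Good ν₀ z N') {c : Cardinal.{0}} (hc : ν₀ ≤ c)
    (h : chr N c = chr N' c) {α : Ordinal.{0}} (hα : α < chr N c) :
    ∃ ε, ε ∈ N ∧ ε ∈ N' ∧ α < ε ∧ ε < (succ c).ord := by
  have hreg := S.succ_regular hc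
  have hunc : ℵ₀ < succ c := lt_succ_of_le (S.aleph0_le_ν₀.trans hc)
  have hle : chr N c ≤ (succ c).ord := ssup_le (fun x hx => hx.2)
  have g : ∀ β : Iio (chr N c), ∃ x : Iio (chr N c), x.1 ∈ N ∧ β.1 < x.1 := by
    intro β
    obtain ⟨x, h1, h2, h3⟩ := DET_step S hN hc β.2
    exact ⟨⟨x, h3⟩, h1, h2⟩
  have g' : ∀ β : Iio (chr N c), ∃ x : Iio (chr N c), x.1 ∈ N' ∧ β.1 < x.1 := by
    intro β
    have hβ : β.1 < chr N' c := by rw [← h]; exact β.2
    obtain ⟨x, h1, h2, h3⟩ := DET_step S hN' hc hβ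
    rw [← h] at h3
    exact ⟨⟨x, h3⟩, h1, h2⟩
  choose G hG using g
  choose G' hG' using g'
  set t : ℕ → Iio (chr N c) := fun n => (fun β => G' (G β))^[n] ⟨α, hα⟩ with ht
  have ht1 : ∀ n, t (n + 1) = G' (G (t n)) := by
    intro n
    rw [ht]
    simp only [Function.iterate_succ_apply']
  set w : Set Ordinal.{0} := range (fun n => (G (t n)).1) with hw
  set w' : Set Ordinal.{0} := range (fun n => (t (n + 1)).1) with hw'
  have hws : Small.{0} w := by
    have : Countable w := (countable_range _).to_subtype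
    exact Countable.toSmall _
  have hws' : Small.{0} w' := by
    have : Countable w' := (countable_range _).to_subtype
    exact Countable.toSmall _
  have e1 : ssup w ≤ ssup w' := by
    apply ssup_le
    rintro x ⟨n, rfl⟩
    have h1 : (t (n + 1)).1 < ssup w' := lt_ssup hws' ⟨n, rfl⟩
    have h2 := (hG' (G (t n))).2
    rw [← ht1] at h2
    exact h2.trans h1
  have e2 : ssup w' ≤ ssup w := by
    apply ssup_le
    rintro x ⟨n, rfl⟩
    have h1 : (G (t (n + 1))).1 < ssup w := lt_ssup hws ⟨n + 1, rfl⟩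
    exact (hG (t (n + 1))).2.trans h1
  have e3 : ssup w = ssup w' := le_antisymm e1 e2
  refine ⟨ssup w, ?_, ?_, ?_, ?_⟩
  · apply hN.sup w _ (countable_range _)
    rintro x ⟨n, rfl⟩
    exact (hG (t n)).1
  · rw [e3]
    apply hN'.sup w' _ (countable_range _)
    rintro x ⟨n, rfl⟩
    change (t (n + 1)).1 ∈ N'
    rw [ht1]
    exact (hG' (G (t n))).1
  · have h1 : (G (t 0)).1 < ssup w := lt_ssup hws ⟨0, rfl⟩
    have h2 := (hG (t 0)).2
    have h3 : (t 0).1 = α := rfl
    rw [h3] at h2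
    exact h2.trans h1
  · refine ssup_lt_of_countable hreg hunc (countable_range _) ?_
    rintro x ⟨n, rfl⟩
    exact lt_of_lt_of_le (G (t n)).2 hle

theorem det {κ χ ν₀ μ : Cardinal.{0}} (S : Setup κ χ ν₀ μ)
    {z : Ordinal.{0} → Ordinal.{0} → Ordinal.{0}} (hz : IsZ z) {N N' : Set Ordinal.{0}}
    (hN : Good ν₀ z N) (hN' : Good ν₀ z N') (h : ∀ b, ν₀ ≤ b → b < μ → chr N b = chr N' b) :
    N ∩ Iio μ.ord = N' ∩ Iio μ.ord := by
  have key : ∀ b : Cardinal.{0}, ν₀ ≤ b → b ≤ μ → ∀ α < b.ord, (α ∈ N ↔ α ∈ N') := by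
    intro b
    induction b using WellFoundedLT.induction with
    | ind b ih =>
      intro hb hbμ α hα
      rcases hb.eq_or_lt with hb0 | hb0
      · rw [← hb0] at hα
        exact ⟨fun _ => hN'.base α hα, fun _ => hN.base α hα⟩
      have hcase : Lim ν₀ μ b ∨ ∃ c, ν₀ ≤ c ∧ c < b ∧ b = succ c := by
        rcases hbμ.eq_or_lt with h1 | h1
        · left; rw [h1]; exact S.lim_top
        · exact S.lim_top.lim_or_succ hb0 h1
      rcases hcase with hl | ⟨c, hc, hcb, rfl⟩
      · have h1 : α.card < b := lt_ord.1 hα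
        have h2 : max ν₀ (succ α.card) < b := max_lt hb0 (hl.2.2 _ h1)
        refine ih _ h2 (le_max_left _ _) (h2.le.trans hbμ) α ?_
        rw [lt_ord]
        exact lt_of_lt_of_le (lt_succ _) (le_max_right _ _)
      · have hcμ : c < μ := lt_of_lt_of_le hcb hbμ
        have hch := h c hc hcμ
        have hsymm : ∀ A A' : Set Ordinal.{0}, Good ν₀ z A → Good ν₀ z A' → chr A c = chr A' c →
            (∀ α < c.ord, (α ∈ A ↔ α ∈ A')) → α ∈ A → α ∈ A' := by
          intro A A' hA hA' hAA hi hαA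
          have h1 : α < chr A c := lt_ssup (small_Iio_inter A _) ⟨hαA, hα⟩
          obtain ⟨ε, e1, e2, e3, e4⟩ := DET_eps S hA hA' hc hAA h1
          rw [hA'.zmem ε e2 α e3]
          rw [hA.zmem ε e1 α e3] at hαA
          refine (hi _ ?_).1 hαA
          have h2 := hz.lt ε α e3
          refine lt_of_lt_of_le h2 ?_
          rw [ord_le_ord]
          exact card_le_of_lt_succ_ord e4
        have hi := ih c hcb hc hcμ.le
        exact ⟨hsymm N N' hN hN' hch hi, hsymm N' N hN' hN hch.symm (fun α hα => (hi α hα).symm)⟩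
  ext α
  constructor
  · rintro ⟨h1, h2⟩
    exact ⟨(key μ S.lt.le le_rfl α h2).1 h1, h2⟩
  · rintro ⟨h1, h2⟩
    exact ⟨(key μ S.lt.le le_rfl α h2).2 h1, h2⟩

end Pool.Agent.STP
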