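import Pool.Agent.STP.ClosedSet

/-!
Module EUB: section 0 of the text.
-/

open Cardinal Ordinal Order Set Filter

namespace Pool.Agent.STP

theorem exists_eub {κ χ ν₀ μ ν : Cardinal.{0}} (S : Setup κ χ ν₀ μ) (hν : Lim ν₀ μ ν)
    {s : Ordinal.{0} → Cardinal.{0} → Ordinal.{0}} (hs : IsInc ν₀ ν s) :
    ∃ δ, IsEub ν₀ ν s δ := by
  classical
  by_contra hne
  have hreg : (succ ν).IsRegular := hν.succ_regular S
  have hsl : ∀ γ < (succ ν).ord, γ + 1 < (succ ν).ord := by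
    intro γ hγ
    have := (Cardinal.isSuccLimit_ord hreg.aleph0_le).succ_lt hγ
    rwa [Order.succ_eq_add_one] at this
  have hne0 : (near ν).NeBot := near_neBot hν.pos
  let I : Type 1 := Ico ν₀ ν
  let ext : (I → Ordinal.{0}) → Cardinal.{0} → Ordinal.{0} := fun u b =>
    if h : b ∈ Ico ν₀ ν then u ⟨b, h⟩ else 0
  have hext : ∀ u (b : Cardinal.{0}) (h : b ∈ Ico ν₀ ν), ext u b = u ⟨b, h⟩ := by
    intro u b h
    simp only [ext, dif_pos h]
  have hw : ∀ u : I → Ordinal.{0}, ∃ h : Cardinal.{0} → Ordinal.{0},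
      ((∀ b, ν₀ ≤ b → b < ν → ext u b ≤ (succ b).ord) ∧
        ∀ γ < (succ ν).ord, ∀ᶠ b in near ν, s γ b < ext u b) →
      ∀ γ < (succ ν).ord, ∃ᶠ b in near ν, h b < ext u b ∧ s γ b ≤ h b := by
    intro u
    by_cases hub : (∀ b, ν₀ ≤ b → b < ν → ext u b ≤ (succ b).ord) ∧
        ∀ γ < (succ ν).ord, ∀ᶠ b in near ν, s γ b < ext u b
    · by_contra h0
      push Not at h0
      apply hne
      refine ⟨ext u, hub.1, hub.2, ?_⟩
      intro h
      obtain ⟨-, γ, hγ, h1⟩ := h0 h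
      refine ⟨γ, hγ, ?_⟩
      exact h1
    · exact ⟨fun _ => 0, fun h => absurd h hub⟩
  choose hh hhs using hw
  obtain ⟨N, hN1, hN2, hN3⟩ := exists_closed_set S.pow S.aleph0_le_χ (I := I)
    (hν.card_Ico_le S) (fun b => (succ b.1).ord) (fun u b => hh u b.1)
  have hch : ∀ (γ : Ordinal.{0}) (b : I), ∃ x : N, s γ b.1 < (succ b.1).ord →
      s γ b.1 ≤ x.1 ∧ x.1 ≤ (succ b.1).ord ∧ ∀ y ∈ N, s γ b.1 ≤ y → x.1 ≤ y := by
    intro γ b
    by_cases h : s γ b.1 < (succ b.1).ord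
    · have hne1 : ({x | x ∈ N ∧ s γ b.1 ≤ x} : Set Ordinal.{0}).Nonempty :=
        ⟨_, hN2 b, h.le⟩
      obtain ⟨a, ha, hm⟩ := WellFounded.has_min (wellFounded_lt (α := Ordinal.{0})) _ hne1
      refine ⟨⟨a, ha.1⟩, fun _ => ⟨ha.2, ?_, ?_⟩⟩
      · exact not_lt.1 (hm _ ⟨hN2 b, h.le⟩)
      · intro y hy hy'
        exact not_lt.1 (hm _ ⟨hy, hy'⟩)
    · exact ⟨⟨_, hN2 b⟩, fun h' => absurd h' h⟩
  choose ch hch1 using hch
  have hcard : #(I → N) < up (succ ν) := by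
    have h1 : #(I → N) ≤ up ν₀ := by
      rw [← Cardinal.power_def]
      have h2 : (#N) ^ (#I) ≤ (up ν₀) ^ (up χ) := by
        refine (Cardinal.power_le_power_right hN1).trans ?_
        refine Cardinal.power_le_power_left ?_ (hν.card_Ico_le S)
        have : ν₀ ≠ 0 := (lt_of_lt_of_le Cardinal.aleph0_pos S.aleph0_le_ν₀).ne'
        intro h0
        exact this (by simpa using h0)
      refine h2.trans ?_
      rw [← Cardinal.lift_power, S.pow_χ]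
    exact lt_of_le_of_lt h1 (Cardinal.lift_strictMono.lt_iff_lt.2 (hν.1.trans (lt_succ ν)))
  obtain ⟨u, hu⟩ := pigeonhole hreg hcard ch
  obtain ⟨u', hu'⟩ : ∃ u' : I → Ordinal.{0}, ∀ b, u' b = (u b).1 := ⟨_, fun b => rfl⟩
  have h0lt : (0 : Ordinal.{0}) < (succ ν).ord := (Cardinal.isSuccLimit_ord hreg.aleph0_le).bot_lt
  have hub : (∀ b, ν₀ ≤ b → b < ν → ext u' b ≤ (succ b).ord) ∧
        ∀ γ < (succ ν).ord, ∀ᶠ b in near ν, s γ b < ext u' b := by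
    constructor
    · intro b h1 h2
      obtain ⟨γ', -, h3, h4⟩ := hu 0 h0lt
      have e := hext u' b ⟨h1, h2⟩
      rw [hu', ← h4] at e
      rw [e]
      exact (hch1 γ' ⟨b, h1, h2⟩ (hs.lt γ' h3 b h1 h2)).2.1
    · intro γ hγ
      obtain ⟨γ', h5, h3, h4⟩ := hu (γ + 1) (hsl γ hγ)
      have h6 : γ < γ' := lt_of_lt_of_le (lt_add_one γ) h5
      filter_upwards [hs.inc γ γ' h6 h3, near_lt ν, near_ge hν.1] with b h7 h2 h1
      have e := hext u' b ⟨h1, h2⟩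
      rw [hu', ← h4] at e
      rw [e]
      exact h7.trans_le (hch1 γ' ⟨b, h1, h2⟩ (hs.lt γ' h3 b h1 h2)).1
  obtain ⟨γ', -, h3, h4⟩ := hu 0 h0lt
  obtain ⟨b, ⟨h5, h6⟩, h2, h1⟩ := ((hhs u' hub γ' h3).and_eventually
    ((near_lt ν).and (near_ge hν.1))).exists
  have h7 : hh u' b ∈ N :=
    hN3 u' (fun i => by rw [hu']; exact (u i).2) ⟨b, h1, h2⟩
  have e := hext u' b ⟨h1, h2⟩
  rw [hu', ← h4] at e
  rw [e] at h5
  have h8 := (hch1 γ' ⟨b, h1, h2⟩ (hs.lt γ' h3 b h1 h2)).2.2 _ h7 h6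
  exact absurd h5 (not_lt.2 h8)

end Pool.Agent.STP
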