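import Pool.Agent.STP.ClSize

/-!
Module HULL: section 3 of the text.
-/

open Cardinal Ordinal Order Set Filter

namespace Pool.Agent.STP

open Classical in
/-- the two binary operations: `z` and its inverse -/
noncomputable def HULL_v (z : Ordinal.{0} → Ordinal.{0} → Ordinal.{0}) (q : ULift.{1} Bool)
    (ε β : Ordinal.{0}) : Ordinal.{0} :=
  if q.down = true then (if β < ε then z ε β else 0)
  else (if h : ∃ α, α < ε ∧ z ε α = β then h.choose else 0)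

/-- the unary operations -/
def HULL_u {P : Type 1} {ν₀ ν : Cardinal.{0}} (u : P → Ordinal.{0} → Ordinal.{0})
    (σ : Ordinal.{0} → Cardinal.{0} → Ordinal.{0}) : P ⊕ ↥(Ico ν₀ ν) → Ordinal.{0} → Ordinal.{0}
  | Sum.inl p => u p
  | Sum.inr c => fun γ' => σ γ' c.1

open Classical in
/-- the cut functions -/
noncomputable def HULL_s (κ ν₀ ν : Cardinal.{0}) (z : Ordinal.{0} → Ordinal.{0} → Ordinal.{0})
    {P : Type 1} (u : P → Ordinal.{0} → Ordinal.{0}) : Ordinal.{0} → Cardinal.{0} → Ordinal.{0} :=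
  WellFounded.fix (Ordinal.lt_wf) (fun γ rec b =>
    sInf {α | ¬ Cl κ (Iio b.ord ∪ {γ}) (HULL_u (ν₀ := ν₀) (ν := ν) u
      (fun γ' c => if h : γ' < γ then rec γ' h c else 0)) (HULL_v z) α})

open Classical in
/-- the hulls -/
noncomputable def HULL_M (κ ν₀ ν : Cardinal.{0}) (z : Ordinal.{0} → Ordinal.{0} → Ordinal.{0})
    {P : Type 1} (u : P → Ordinal.{0} → Ordinal.{0}) (γ : Ordinal.{0}) (b : Cardinal.{0}) :
    Set Ordinal.{0} :=
  {α | Cl κ (Iio b.ord ∪ {γ}) (HULL_u (ν₀ := ν₀) (ν := ν) u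
      (fun γ' c => if γ' < γ then HULL_s κ ν₀ ν z u γ' c else 0)) (HULL_v z) α}

theorem HULL_s_eq (κ ν₀ ν : Cardinal.{0}) (z : Ordinal.{0} → Ordinal.{0} → Ordinal.{0})
    {P : Type 1} (u : P → Ordinal.{0} → Ordinal.{0}) (γ : Ordinal.{0}) (b : Cardinal.{0}) :
    HULL_s κ ν₀ ν z u γ b = sInf {α | α ∉ HULL_M κ ν₀ ν z u γ b} := by
  unfold HULL_s
  rw [WellFounded.fix_eq]
  rfl

theorem HULL_zmem {κ : Cardinal.{0}} {A : Set Ordinal.{0}} {P : Type 1}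
    {u : P → Ordinal.{0} → Ordinal.{0}} {z : Ordinal.{0} → Ordinal.{0} → Ordinal.{0}}
    (hz : IsZ z) {ε α : Ordinal.{0}} (hε : Cl κ A u (HULL_v z) ε) (h : α < ε) :
    Cl κ A u (HULL_v z) α ↔ Cl κ A u (HULL_v z) (z ε α) := by
  constructor
  · intro hα
    have := Cl.bin (ULift.up true) ε α hε hα
    unfold HULL_v at this
    rwa [if_pos rfl, if_pos h] at this
  · intro hα
    have := Cl.bin (ULift.up false) ε (z ε α) hε hα
    unfold HULL_v at this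
    have hex : ∃ α', α' < ε ∧ z ε α' = z ε α := ⟨α, h, rfl⟩
    rw [if_neg (by simp), dif_pos hex] at this
    have h2 : hex.choose = α := hz.inj ε _ _ hex.choose_spec.1 h hex.choose_spec.2
    rwa [h2] at this

theorem HULL_size {κ χ ν₀ μ ν : Cardinal.{0}} (S : Setup κ χ ν₀ μ) (hν : Lim ν₀ μ ν)
    {z : Ordinal.{0} → Ordinal.{0} → Ordinal.{0}} {P : Type 1} (hP : #P ≤ up ν₀)
    (u : P → Ordinal.{0} → Ordinal.{0}) (γ : Ordinal.{0}) {b : Cardinal.{0}} (hb : ν₀ ≤ b) :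
    #(HULL_M κ ν₀ ν z u γ b) ≤ up b := by
  have hb0 : ℵ₀ ≤ b := S.aleph0_le_ν₀.trans hb
  have hub : ℵ₀ ≤ up b := Cardinal.aleph0_le_lift.2 hb0
  apply mk_Cl_le S.reg (S.κ_lt.le.trans hb)
  · refine (mk_union_le _ _).trans ?_
    rw [mk_Iio_ord, mk_singleton]
    exact (add_one_eq hub).le
  · rw [mk_sum, Cardinal.lift_id, Cardinal.lift_id]
    refine (add_le_add (hP.trans (Cardinal.lift_le.2 hb))
      ((Lim.card_Ico_le S hν).trans (Cardinal.lift_le.2 (S.χ_lt.le.trans hb)))).trans ?_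
    exact (add_eq_self hub).le
  · have h1 : #(ULift.{1} Bool) = 2 := by simp
    rw [h1]
    exact (Cardinal.natCast_lt_aleph0 (n := 2)).le.trans hub

theorem exists_hull {κ χ ν₀ μ ν : Cardinal.{0}} (S : Setup κ χ ν₀ μ) (hν : Lim ν₀ μ ν)
    {z : Ordinal.{0} → Ordinal.{0} → Ordinal.{0}} (hz : IsZ z) {P : Type 1} (hP : #P ≤ up ν₀)
    (u : P → Ordinal.{0} → Ordinal.{0}) : ∃ M s, IsHull κ ν₀ ν z u M s := by
  refine ⟨HULL_M κ ν₀ ν z u, HULL_s κ ν₀ ν z u, ?_⟩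
  have hpos : ∀ b : Cardinal.{0}, ν₀ ≤ b → (0 : Ordinal.{0}) < b.ord := by
    intro b hb
    rw [Cardinal.lt_ord, Ordinal.card_zero]
    exact lt_of_lt_of_le (lt_of_lt_of_le aleph0_pos S.aleph0_le_ν₀) hb
  have hlow : ∀ γ b, ∀ α < b.ord, α ∈ HULL_M κ ν₀ ν z u γ b := fun γ b α hα =>
    Cl.base α (Or.inl hα)
  have hself : ∀ γ b, γ ∈ HULL_M κ ν₀ ν z u γ b := fun γ b => Cl.base γ (Or.inr rfl)
  have hzm : ∀ γ b, ∀ ε ∈ HULL_M κ ν₀ ν z u γ b, ∀ α < ε,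
      (α ∈ HULL_M κ ν₀ ν z u γ b ↔ z ε α ∈ HULL_M κ ν₀ ν z u γ b) :=
    fun γ b ε hε α hα => HULL_zmem hz hε hα
  have hex : ∀ γ b, ν₀ ≤ b → ∃ α < (succ b).ord, α ∉ HULL_M κ ν₀ ν z u γ b := by
    intro γ b hb
    by_contra hcon
    push Not at hcon
    have h1 : #(Iio (succ b).ord) ≤ #(HULL_M κ ν₀ ν z u γ b) :=
      Cardinal.mk_le_mk_of_subset (fun α hα => hcon α hα)
    rw [mk_Iio_ord] at h1
    have h2 := h1.trans (HULL_size S hν hP u γ hb)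
    exact absurd (Cardinal.lift_le.1 h2) (not_le.2 (lt_succ b))
  have hlt : ∀ γ b, ν₀ ≤ b → HULL_s κ ν₀ ν z u γ b < (succ b).ord := by
    intro γ b hb
    obtain ⟨α, hα, hαn⟩ := hex γ b hb
    rw [HULL_s_eq]
    exact lt_of_le_of_lt (csInf_le' hαn) hα
  have hsn : ∀ γ b, ν₀ ≤ b → HULL_s κ ν₀ ν z u γ b ∉ HULL_M κ ν₀ ν z u γ b := by
    intro γ b hb
    obtain ⟨α, hα, hαn⟩ := hex γ b hb
    rw [HULL_s_eq]
    exact csInf_mem (⟨α, hαn⟩ : ({α | α ∉ HULL_M κ ν₀ ν z u γ b} : Set Ordinal.{0}).Nonempty)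
  have hin : ∀ γ b, ν₀ ≤ b → ∀ γ' < γ, z γ γ' < b.ord → γ' ∈ HULL_M κ ν₀ ν z u γ b := by
    intro γ b hb γ' hγ' hzγ
    exact (hzm γ b γ (hself γ b) γ' hγ').2 (hlow γ b _ hzγ)
  have hsm : ∀ γ b, ∀ γ' < γ, γ' ∈ HULL_M κ ν₀ ν z u γ b → ∀ c, ν₀ ≤ c → c < ν →
      HULL_s κ ν₀ ν z u γ' c ∈ HULL_M κ ν₀ ν z u γ b := by
    intro γ b γ' hγ' hmem c hc hcν
    have h1 : (if γ' < γ then HULL_s κ ν₀ ν z u γ' c else 0) ∈ HULL_M κ ν₀ ν z u γ b :=
      Cl.un (κ := κ) (v := HULL_v z) (Sum.inr ⟨c, mem_Ico.2 ⟨hc, hcν⟩⟩ : P ⊕ ↥(Ico ν₀ ν)) γ' hmem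
    rwa [if_pos hγ'] at h1
  refine ⟨fun γ _ b hb _ => hlt γ b hb, ?_, fun γ _ b _ _ => hself γ b,
    fun γ _ b _ _ => hzm γ b, ?_, ?_, ?_, ?_⟩
  · intro γ _ b hb _ α hα
    constructor
    · intro hm
      by_contra hcon
      rw [not_lt] at hcon
      rcases hcon.eq_or_lt with h | h
      · rw [← h] at hm
        exact hsn γ b hb hm
      · apply hsn γ b hb
        refine (hzm γ b α hm _ h).2 (hlow γ b _ ?_)
        refine lt_of_lt_of_le (hz.lt α _ h) ?_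
        exact Cardinal.ord_le_ord.2 (card_le_of_lt_succ_ord hα)
    · intro h
      by_contra hcon
      rw [HULL_s_eq] at h
      exact absurd (csInf_le' hcon) (not_le.2 h)
  · intro γ _ b _ _ w hw hwk
    exact Cl.sup w hwk (fun α hα => hw hα)
  · intro γ _ b _ _ p α hα
    exact Cl.un (Sum.inl p : P ⊕ ↥(Ico ν₀ ν)) α hα
  · intro γ _ b hb _ γ' hγ' hzγ α hα
    have hg' := hin γ b hb γ' hγ' hzγ
    induction hα with
    | base α hα =>
      rcases hα with h | h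
      · exact hlow γ b α h
      · rw [mem_singleton_iff.1 h]; exact hg'
    | un p α _ ih =>
      cases p with
      | inl p => exact Cl.un (Sum.inl p : P ⊕ ↥(Ico ν₀ ν)) α ih
      | inr c =>
        show (if α < γ' then HULL_s κ ν₀ ν z u α c.1 else 0) ∈ HULL_M κ ν₀ ν z u γ b
        split_ifs with h
        · exact hsm γ b α (h.trans hγ') ih c.1 c.2.1 c.2.2
        · exact hlow γ b 0 (hpos b hb)
    | bin q α β _ _ ih1 ih2 => exact Cl.bin q α β ih1 ih2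
    | sup w hwk _ ih => exact Cl.sup w hwk ih
  · intro γ _ b hb _ γ' hγ' hzγ c hc hcν
    exact hsm γ b γ' hγ' (hin γ b hb γ' hγ' hzγ) c hc hcν

end Pool.Agent.STP
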