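import Pool.Agent.STP.Basic

/-!
Module LSING: section 5 of the text.
-/

open Cardinal Ordinal Order Set Filter

namespace Pool.Agent.STP

theorem Stage.lsing {κ χ ν₀ μ ν : Cardinal.{0}} {z F l f M s δ}
    (T : Stage κ χ ν₀ μ ν z F l f M s δ) :
    ∀ᶠ b in near ν, Lim ν₀ μ b → δ b = (succ b).ord →
      ∃ b₀ < b, ∀ c, b₀ ≤ c → c < b → δ c = (succ c).ord := by
  classical
  have hpos : 0 < ν := T.lim.pos
  by_contra hcon
  have hfreq : ∃ᶠ b in near ν, Lim ν₀ μ b ∧ δ b = (succ b).ord ∧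
      ∀ b₀ < b, ∃ c, b₀ ≤ c ∧ c < b ∧ δ c ≠ (succ c).ord := by
    rw [Filter.not_eventually] at hcon
    refine hcon.mono fun b hb => ?_
    push Not at hb
    exact hb
  rw [near_frequently_iff hpos] at hfreq
  -- the truncated function
  set h : Cardinal.{0} → Ordinal.{0} := fun c => if δ c < (succ c).ord then δ c else 0 with hh
  have hsucc_pos : ∀ c : Cardinal.{0}, (0 : Ordinal.{0}) < (succ c).ord := by
    intro c
    rw [Cardinal.lt_ord, Ordinal.card_zero]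
    exact lt_of_le_of_lt zero_le (lt_succ _)
  have hhlt : ∀ c, h c < (succ c).ord := by
    intro c
    by_cases h' : δ c < (succ c).ord
    · simp only [hh, if_pos h']; exact h'
    · simp only [hh, if_neg h']; exact hsucc_pos c
  have hξ : ∀ b, b < ν → Lim ν₀ μ b → ∃ ξ < (succ b).ord, ∀ᶠ c in near b, h c ≤ F b ξ c :=
    fun b hb hL => (T.scale b hb hL).cofinal h fun c _ _ => hhlt c
  set X : Cardinal.{0} → Ordinal.{0} := fun b =>
    if H : b < ν ∧ Lim ν₀ μ b then (hξ b H.1 H.2).choose else 0 with hX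
  obtain ⟨γ, hγ, hexa⟩ := T.eub.exa X
  have hγ' : γ + 1 < (succ ν).ord := by
    have hreg := T.lim.succ_regular T.setup
    exact (Cardinal.isSuccLimit_ord hreg.aleph0_le).add_one_lt hγ
  set γ' : Ordinal.{0} := γ + 1 with hγ'def
  have hγγ' : γ < γ' := by rw [hγ'def]; exact lt_add_one γ
  have hz := z_eventually T.setup T.lim T.isz hγγ' hγ'
  have hub := T.eub.ub γ' hγ'
  obtain ⟨b₁, hb₁, H1⟩ := (near_iff hpos).1 (hexa.and (hz.and (hub.and (near_ge T.lim.1))))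
  have hb₁s : succ b₁ < ν := T.lim.2.2 b₁ hb₁
  obtain ⟨b, hb1b, hbν, hLb, hδb, hbad⟩ := hfreq (succ b₁) hb₁s
  have hb1b' : b₁ < b := lt_of_lt_of_le (lt_succ b₁) hb1b
  have hbpos : 0 < b := hLb.pos
  have hν₀b : ν₀ ≤ b := hLb.1.le
  have hXb : X b < (succ b).ord ∧ ∀ᶠ c in near b, h c ≤ F b (X b) c := by
    have : X b = (hξ b hbν hLb).choose := by simp only [hX, dif_pos (And.intro hbν hLb)]
    rw [this]
    exact (hξ b hbν hLb).choose_spec
  have hXs : X b < s γ b := (H1 b hb1b'.le hbν).1 (by rw [hδb]; exact hXb.1)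
  have hsb : s γ b < (succ b).ord := T.inc.lt γ hγ b hν₀b hbν
  have hmono : ∀ᶠ c in near b, F b (X b) c ≤ F b (s γ b) c :=
    (T.scale b hbν hLb).mono _ _ hXs.le hsb
  have hev : ∀ᶠ c in near b, h c ≤ F b (X b) c ∧ F b (X b) c ≤ F b (s γ b) c ∧ b₁ ≤ c ∧ c < b ∧ ν₀ ≤ c := by
    filter_upwards [hXb.2, hmono, near_ge hb1b', near_lt b, near_ge hLb.1] with c h1 h2 h3 h4 h5
    exact ⟨h1, h2, h3, h4, h5⟩
  obtain ⟨c₀, hc₀, Hc⟩ := (near_iff hbpos).1 hev
  obtain ⟨c, hc0c, hcb, hcne⟩ := hbad c₀ hc₀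
  obtain ⟨e1, e2, e3, e4, e5⟩ := Hc c hc0c hcb
  have hcν : c < ν := hcb.trans hbν
  have hδc : δ c < (succ c).ord := lt_of_le_of_ne (T.eub.le c e5 hcν) hcne
  have hhc : h c = δ c := by simp only [hh, if_pos hδc]
  obtain ⟨-, hzc, hsc, -⟩ := H1 c e3 hcν
  have hmem1 : s γ b ∈ M γ' c := T.smem γ' hγ' c e5 hcν γ hγγ' hzc b hν₀b hbν
  have hmem2 : F b (s γ b) c ∈ M γ' c := T.Fmem γ' hγ' c e5 hcν b hbν hLb _ hmem1 c e5 hcb
  have hFlt : F b (s γ b) c < (succ c).ord := (T.scale b hbν hLb).lt _ hsb c e5 hcb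
  have hlt : F b (s γ b) c < s γ' c := (T.mem γ' hγ' c e5 hcν _ hFlt).1 hmem2
  rw [hhc] at e1
  exact lt_irrefl _ (((e1.trans e2).trans_lt hlt).trans hsc)

end Pool.Agent.STP
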