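import Pool.Agent.STP.Basic

/-!
Module LIMBDOWN: (β), (γ) at the end of section 6b: if `B i` is unbounded in `(d i)⁺⁺` then
`B i ∩ (d i)⁺` is unbounded in `(d i)⁺`.
-/

open Cardinal Ordinal Order Set Filter

namespace Pool.Agent.STP

/-- pure combinatorics of `z` -/
theorem unbounded_down {z : Ordinal.{0} → Ordinal.{0} → Ordinal.{0}} (hz : IsZ z)
    {b : Cardinal.{0}} (hb : ℵ₀ ≤ b) {B : Set Ordinal.{0}} (hB : B ⊆ Iio (succ (succ b)).ord)
    (hcl : ∀ ε ∈ B, ∀ α ∈ B, α < ε → z ε α ∈ B)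
    (hunb : ∀ β < (succ (succ b)).ord, ∃ α ∈ B, β ≤ α) :
    ∀ β < (succ b).ord, ∃ α ∈ B, β ≤ α ∧ α < (succ b).ord := by
  intro β hβ
  by_contra hcon
  push Not at hcon
  have hreg : (succ (succ b)).IsRegular :=
    Cardinal.isRegular_succ (hb.trans (le_succ b))
  have hsmallB : Small.{0} B := by
    have := small_Iio_inter B (succ (succ b)).ord
    rwa [inter_eq_left.2 hB] at this
  have hBcard : up (succ b) ≤ #B := by
    by_contra hlt
    push Not at hlt
    have h1 : #B < up (succ (succ b)) :=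
      hlt.trans (Cardinal.lift_lt.2 (lt_succ (succ b)))
    have h2 := ssup_lt_of_regular hreg h1 (fun α hα => hB hα)
    obtain ⟨α, hα, hle⟩ := hunb _ h2
    exact absurd (lt_ssup hsmallB hα) (not_lt.2 hle)
  obtain ⟨W, hWB, hW⟩ := Cardinal.le_mk_iff_exists_subset.1 hBcard
  have hWlt : ssup W < (succ (succ b)).ord := by
    refine ssup_lt_of_regular hreg ?_ (fun α hα => hB (hWB hα))
    rw [hW]
    exact Cardinal.lift_lt.2 (lt_succ (succ b))
  obtain ⟨ε, hε, hWε⟩ := hunb _ hWlt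
  have hsmallW : Small.{0} W := small_subset hWB
  have hWlt' : ∀ α ∈ W, α < ε := fun α hα => (lt_ssup hsmallW hα).trans_le hWε
  have hεcard : ε.card ≤ succ b := card_le_of_lt_succ_ord (hB hε)
  have hmap : ∀ α ∈ W, z ε α < β := by
    intro α hα
    have h1 := hcl ε hε α (hWB hα) (hWlt' α hα)
    have h2 : z ε α < (succ b).ord :=
      (hz.lt ε α (hWlt' α hα)).trans_le (Cardinal.ord_le_ord.2 hεcard)
    by_contra h3
    push Not at h3
    exact absurd h2 (not_lt.2 (hcon _ h1 h3))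
  have hinj : #W ≤ #(Iio β) := by
    refine Cardinal.mk_le_of_injective (f := fun α : W => (⟨z ε α.1, hmap α.1 α.2⟩ : Iio β)) ?_
    intro α α' h
    have h' := congrArg Subtype.val h
    exact Subtype.ext (hz.inj ε α.1 α'.1 (hWlt' _ α.2) (hWlt' _ α'.2) h')
  have hβ' : #(Iio β) = up β.card := by
    exact Cardinal.mk_Iio_ordinal β
  rw [hW, hβ'] at hinj
  have h4 : succ b ≤ β.card := Cardinal.lift_le.1 hinj
  exact absurd (card_lt_of_lt_ord hβ) (not_lt.2 h4)

theorem Stage.limB_down {κ χ ν₀ μ ν : Cardinal.{0}} {z F l f M s δ}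
    (T : Stage κ χ ν₀ μ ν z F l f M s δ) {d : ℕ → Cardinal.{0}} (hd : IsSeq ν₀ ν δ d)
    {B : ℕ → Set Ordinal.{0}} (hB : IsLimB ν d M B) (i : ℕ)
    (hunb : ∀ β < (succ (succ (d i))).ord, ∃ α ∈ B i, β ≤ α) :
    ∀ β < (succ (d i)).ord, ∃ α ∈ B i, β ≤ α ∧ α < (succ (d i)).ord := by
  classical
  refine unbounded_down T.isz (T.setup.aleph0_le_ν₀.trans (hd.ge i)) (hB.sub i) ?_ hunb
  intro ε hε α hα hαε
  have hzlt : z ε α < (succ (succ (d i))).ord :=
    (T.isz.lt ε α hαε).trans_le ((Cardinal.ord_card_le ε).trans (hB.sub i hε).le)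
  let y : ℕ → Set Ordinal.{0} := fun j => if j = i then {ε, α, z ε α} else ∅
  have hyi : y i = {ε, α, z ε α} := by simp [y]
  obtain ⟨γ, hγ, h⟩ := hB.one y (by
    intro j
    by_cases hj : j = i
    · subst hj
      rw [hyi]
      intro x hx
      simp only [mem_insert_iff, mem_singleton_iff] at hx
      rcases hx with rfl | rfl | rfl
      · exact hB.sub _ hε
      · exact hB.sub _ hα
      · exact hzlt
    · simp [y, hj]) (by
    intro j
    by_cases hj : j = i
    · subst hj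
      rw [hyi]
      exact (Set.toFinite _)
    · simp [y, hj])
  have hi := h i
  rw [hyi] at hi
  have h1 : ε ∈ M γ (d i) := (hi ε (by simp)).1 hε
  have h2 : α ∈ M γ (d i) := (hi α (by simp)).1 hα
  exact (hi (z ε α) (by simp)).2 ((T.zmem γ hγ (d i) (hd.ge i) (hd.lt i) ε h1 α hαε).1 h2)

end Pool.Agent.STP
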