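import Pool.Agent.STP.Basic

/-!
Module LIMBUNB: (α) at the end of section 6b: `B i` is unbounded in `(d i)⁺⁺` for almost all `i`.
-/

open Cardinal Ordinal Order Set Filter

namespace Pool.Agent.STP

theorem Stage.limB_unbounded {κ χ ν₀ μ ν : Cardinal.{0}} {z F l f M s δ}
    (T : Stage κ χ ν₀ μ ν z F l f M s δ) {d : ℕ → Cardinal.{0}} (hd : IsSeq ν₀ ν δ d)
    {B : ℕ → Set Ordinal.{0}} (hB : IsLimB ν d M B) :
    ∀ᶠ i in atTop, ∀ β < (succ (succ (d i))).ord, ∃ α ∈ B i, β ≤ α := by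
  classical
  by_contra hcon
  have hfr : ∃ᶠ i in atTop, ∃ β < (succ (succ (d i))).ord, ∀ α ∈ B i, α < β := by
    intro h
    apply hcon
    filter_upwards [h] with i hi β hβ
    by_contra h'
    push Not at h'
    exact hi ⟨β, hβ, h'⟩
  -- the bounds
  let β : ℕ → Ordinal.{0} := fun i =>
    if h : ∃ β < (succ (succ (d i))).ord, ∀ α ∈ B i, α < β then h.choose else 0
  have hβ : ∀ i, (∃ β < (succ (succ (d i))).ord, ∀ α ∈ B i, α < β) →
      β i < (succ (succ (d i))).ord ∧ ∀ α ∈ B i, α < β i := by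
    intro i h
    have : β i = h.choose := by simp only [β]; rw [dif_pos h]
    rw [this]
    exact h.choose_spec
  have hinj : Function.Injective (fun i => succ (d i)) := by
    intro i j h
    exact hd.mono.injective (Order.succ_injective h)
  let hh : Cardinal.{0} → Ordinal.{0} := Function.extend (fun i => succ (d i)) β 0
  have hhh : ∀ i, hh (succ (d i)) = β i := fun i => hinj.extend_apply β 0 i
  obtain ⟨γ, hγ, hex⟩ := T.eub.exa hh
  have h1 : ∀ᶠ i in atTop, hh (succ (d i)) < δ (succ (d i)) →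
      hh (succ (d i)) < s γ (succ (d i)) :=
    (hd.tendsto_succ T.lim).eventually hex
  have hsν : ∀ i, succ (d i) < ν := fun i => T.lim.2.2 _ (hd.lt i)
  have hsge : ∀ i, ν₀ ≤ succ (d i) := fun i => (hd.ge i).trans (le_succ _)
  obtain ⟨γ₀, hγ₀, h2⟩ := hB.two (fun i => {s γ (succ (d i))}) (by
    intro i x hx
    rw [mem_singleton_iff] at hx
    rw [hx]
    exact T.inc.lt γ hγ _ (hsge i) (hsν i)) (fun i => Set.finite_singleton _)
  have hreg := T.lim.succ_regular T.setup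
  have hlim : IsSuccLimit (succ ν).ord := Cardinal.isSuccLimit_ord hreg.aleph0_le
  have hγ1 : succ γ < (succ ν).ord := hlim.succ_lt hγ
  have hγ' : max γ₀ (succ γ) < (succ ν).ord := max_lt hγ₀ hγ1
  have hlt : γ < max γ₀ (succ γ) := (lt_succ γ).trans_le (le_max_right _ _)
  have h3 := h2 _ (le_max_left γ₀ (succ γ)) hγ'
  have h4 : ∀ᶠ i in atTop, z (max γ₀ (succ γ)) γ < (d i).ord :=
    hd.tendsto.eventually (z_eventually T.setup T.lim T.isz hlt hγ')
  obtain ⟨i, hi, h1i, h3i, h4i⟩ := (hfr.and_eventually (h1.and (h3.and h4))).exists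
  obtain ⟨hβ1, hβ2⟩ := hβ i hi
  have h5 : s γ (succ (d i)) ∈ M (max γ₀ (succ γ)) (d i) :=
    T.smem _ hγ' (d i) (hd.ge i) (hd.lt i) γ hlt h4i _ (hsge i) (hsν i)
  have h6 : s γ (succ (d i)) ∈ B i := (h3i _ (mem_singleton _)).2 h5
  rw [hhh, hd.high i] at h1i
  exact absurd (hβ2 _ h6) (not_lt.2 (h1i hβ1).le)

end Pool.Agent.STP
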