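import Pool.Agent.STP.LimB
import Pool.Agent.STP.LimBUnb
import Pool.Agent.STP.LimBDown

/-!
Module LSUCC: the final contradiction of section 6b of the text.
-/

open Cardinal Ordinal Order Set Filter

namespace Pool.Agent.STP

theorem Stage.lsucc {κ χ ν₀ μ ν : Cardinal.{0}} {z F l f M s δ}
    (T : Stage κ χ ν₀ μ ν z F l f M s δ) (hTP : StrongTP κ) {d : ℕ → Cardinal.{0}}
    (hd : IsSeq ν₀ ν δ d) : False := by
  classical
  obtain ⟨B, hB⟩ := T.exists_limB hTP hd
  have hunb := T.limB_unbounded hd hB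
  -- the choice of `β i`
  have hch : ∀ i, ∃ β : Ordinal.{0}, β < (succ (succ (d i))).ord ∧
      ((∀ β < (succ (succ (d i))).ord, ∃ α ∈ B i, β ≤ α) →
        β ∈ B i ∧ δ (d i) ≤ β ∧ β < (succ (d i)).ord) := by
    intro i
    have hle : (succ (d i)).ord ≤ (succ (succ (d i))).ord := ord_le_ord.2 (le_succ _)
    by_cases h : ∀ β < (succ (succ (d i))).ord, ∃ α ∈ B i, β ≤ α
    · obtain ⟨α, hα, h1, h2⟩ := T.limB_down hd hB i h (δ (d i)) (hd.low i)
      exact ⟨α, lt_of_lt_of_le h2 hle, fun _ => ⟨hα, h1, h2⟩⟩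
    · exact ⟨δ (d i), lt_of_lt_of_le (hd.low i) hle, fun h' => absurd h' h⟩
  choose β hβlt hβ using hch
  obtain ⟨γ, hγ, hone⟩ := hB.one (fun i => {β i})
    (fun i α hα => by
      rw [Set.mem_singleton_iff] at hα
      subst hα
      exact hβlt i) (fun i => Set.finite_singleton _)
  have hub := hd.tendsto.eventually (T.eub.ub γ hγ)
  obtain ⟨i, h1, h2⟩ := (hunb.and hub).exists
  obtain ⟨h3, h4, h5⟩ := hβ i h1
  have h6 : β i ∈ M γ (d i) := (hone i (β i) (Set.mem_singleton _)).1 h3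
  have h7 : β i < s γ (d i) := (T.mem γ hγ (d i) (hd.ge i) (hd.lt i) (β i) h5).1 h6
  exact lt_irrefl _ ((h4.trans_lt h7).trans h2)

end Pool.Agent.STP
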