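import Pool.Agent.STP.ClSize

/-!
Module TRACES: (b) of section 6b of the text: the hulls have few traces on small sets.
-/

open Cardinal Ordinal Order Set Filter

namespace Pool.Agent.STP

/-- the union of few families of few sets is few -/
theorem TRACES_card {τ : Cardinal.{0}} (hτ : ℵ₀ ≤ τ) (S : Set Ordinal.{0}) (hS : #S ≤ up τ)
    (R : Ordinal.{0} → Set Ordinal.{0}) (hR : ∀ ε, #(R ε) ≤ up τ)
    (G : Ordinal.{0} → Ordinal.{0} → Set Ordinal.{0}) (Z : Set (Set Ordinal.{0}))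
    (hZ : ∀ t ∈ Z, ∃ ε ∈ S, ∃ σ ∈ R ε, t = G ε σ) : #Z ≤ up τ := by
  have h1 : #Z ≤ #(Σ ε : S, R ε.1) := by
    choose! e he r hr hG using hZ
    refine Cardinal.mk_le_of_injective
      (f := fun t : Z => (⟨⟨e t.1, he t.1 t.2⟩, ⟨r t.1, hr t.1 t.2⟩⟩ : Σ ε : S, R ε.1)) ?_
    intro t t' h
    apply Subtype.ext
    rw [hG t.1 t.2, hG t'.1 t'.2]
    have ha : e t.1 = e t'.1 := congrArg (fun p : (Σ ε : S, R ε.1) => (p.1 : Ordinal.{0})) h
    have hb : r t.1 = r t'.1 := congrArg (fun p : (Σ ε : S, R ε.1) => (p.2 : Ordinal.{0})) h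
    rw [ha, hb]
  have hinf : ℵ₀ ≤ up τ := by
    rw [← Cardinal.lift_aleph0.{1, 0}]
    exact Cardinal.lift_le.2 hτ
  calc #Z ≤ #(Σ ε : S, R ε.1) := h1
    _ = Cardinal.sum (fun ε : S => #(R ε.1)) := Cardinal.mk_sigma _
    _ ≤ Cardinal.sum (fun _ : S => up τ) := Cardinal.sum_le_sum _ _ (fun ε => hR ε.1)
    _ = #S * up τ := by rw [Cardinal.sum_const']
    _ ≤ up τ * up τ := mul_le_mul_left (hS) _
    _ = up τ := Cardinal.mul_eq_self hinf

theorem Stage.traces {κ χ ν₀ μ ν : Cardinal.{0}} {z F l f M s δ}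
    (T : Stage κ χ ν₀ μ ν z F l f M s δ) {b : Cardinal.{0}} (hb : ν₀ ≤ b) (hb' : b < ν)
    (y : Set Ordinal.{0}) (hy : y ⊆ Iio (succ (succ b)).ord) (hy' : #y < up κ) :
    #{t : Set Ordinal.{0} | ∃ γ < (succ ν).ord, t = M γ b ∩ y} < up κ := by
  classical
  -- the size of `y`
  obtain ⟨τ₀, hτ₀⟩ : ∃ τ₀ : Cardinal.{0}, up τ₀ = #y := by
    exact Cardinal.mem_range_lift_of_le hy'.le
  set τ : Cardinal.{0} := max τ₀ ℵ₀ with hτdef
  have hτκ : τ < κ := by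
    refine max_lt ?_ T.setup.unc
    rw [← hτ₀] at hy'
    exact Cardinal.lift_lt.1 hy'
  have hτ : ℵ₀ ≤ τ := le_max_right _ _
  have hyτ : #y ≤ up τ := by
    rw [← hτ₀]
    exact Cardinal.lift_le.2 (le_max_left _ _)
  have hν₀b : ℵ₀ ≤ b := T.setup.aleph0_le_ν₀.trans hb
  have hreg : (succ (succ b)).IsRegular := Cardinal.isRegular_succ (hν₀b.trans (le_succ b))
  have hκb : κ < succ (succ b) :=
    (T.setup.κ_lt.trans_le hb).trans ((lt_succ b).trans (lt_succ (succ b)))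
  -- the families
  let A : Ordinal.{0} → Set Ordinal.{0} := fun ε => z ε '' y
  have hA : ∀ ε, #(A ε) ≤ up τ := fun ε => Cardinal.mk_image_le.trans hyτ
  let S : Set Ordinal.{0} := {α | ∃ w : Set Ordinal.{0}, w ⊆ y ∧ α = ssup w}
  let R : Ordinal.{0} → Set Ordinal.{0} :=
    fun ε => {α | ∃ w : Set Ordinal.{0}, w ⊆ A ε ∧ α = ssup w}
  let G : Ordinal.{0} → Ordinal.{0} → Set Ordinal.{0} :=
    fun ε σ => {α | α ∈ y ∧ α < ε ∧ z ε α < σ}
  refine (TRACES_card hτ S (mk_ssup_image_le hτ hyτ) R (fun ε => mk_ssup_image_le hτ (hA ε)) G _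
    ?_).trans_lt (Cardinal.lift_lt.2 hτκ)
  rintro t ⟨γ, hγ, rfl⟩
  set w : Set Ordinal.{0} := M γ b ∩ y with hw
  have hwy : w ⊆ y := inter_subset_right
  have hwM : w ⊆ M γ b := inter_subset_left
  have hwcard : #w < up κ := (Cardinal.mk_le_mk_of_subset hwy).trans_lt hy'
  have hwsmall : Small.{0} w := small_of_mk_le (hwcard.le)
  set ε : Ordinal.{0} := ssup w with hε
  have hεM : ε ∈ M γ b := T.sup γ hγ b hb hb' w hwM hwcard
  have hεlt : ε < (succ (succ b)).ord := by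
    refine ssup_lt_of_regular hreg (hwcard.trans (Cardinal.lift_lt.2 hκb)) ?_
    intro α hα
    exact hy (hwy hα)
  have hεcard : ε.card ≤ succ b := card_le_of_lt_succ_ord hεlt
  have hzlt : ∀ α, α < ε → z ε α < (succ b).ord := fun α hα =>
    (T.isz.lt ε α hα).trans_le (Cardinal.ord_le_ord.2 hεcard)
  set v : Set Ordinal.{0} := {β | β ∈ A ε ∧ β < s γ b} with hv
  have hvA : v ⊆ A ε := fun β h => h.1
  have hvsmall : Small.{0} v :=
    small_of_mk_le ((Cardinal.mk_le_mk_of_subset hvA).trans (hA ε))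
  refine ⟨ε, ⟨w, hwy, rfl⟩, ssup v, ⟨v, hvA, rfl⟩, ?_⟩
  ext α
  constructor
  · intro hα
    have h1 : α < ε := lt_ssup hwsmall hα
    have h2 : z ε α ∈ M γ b := (T.zmem γ hγ b hb hb' ε hεM α h1).1 (hwM hα)
    have h3 : z ε α < s γ b := (T.mem γ hγ b hb hb' _ (hzlt α h1)).1 h2
    exact ⟨hwy hα, h1, lt_ssup hvsmall ⟨⟨α, hwy hα, rfl⟩, h3⟩⟩
  · rintro ⟨h1, h2, h3⟩
    obtain ⟨β, ⟨-, hβ⟩, hle⟩ := (lt_ssup_iff hvsmall).1 h3
    have h4 : z ε α < s γ b := hle.trans_lt hβ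
    have h5 : z ε α ∈ M γ b := (T.mem γ hγ b hb hb' _ (hzlt α h2)).2 h4
    exact ⟨(T.zmem γ hγ b hb hb' ε hεM α h2).2 h5, h1⟩

end Pool.Agent.STP
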