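import Pool.Agent.STP.Branch
import Pool.Agent.STP.Traces

/-!
Module LIMB: the limit sets exist (apply `branch` with `E γ i = M γ (d i)`,
`top i = (d i)⁺⁺`).
-/

open Cardinal Ordinal Order Set Filter

namespace Pool.Agent.STP

theorem LIMB_finite_lt {κ : Cardinal.{0}} (hunc : ℵ₀ < κ) {y : Set Ordinal.{0}} (hy : y.Finite) :
    #y < up κ := by
  have h1 : #y < ℵ₀ := hy.lt_aleph0
  have h2 : ℵ₀ ≤ up κ := by
    rw [up, aleph0_le_lift]; exact hunc.le
  exact lt_of_lt_of_le h1 h2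

theorem LIMB_iff {A B y : Set Ordinal.{0}} (h : A ∩ y = B ∩ y) {α : Ordinal.{0}} (hα : α ∈ y) :
    α ∈ A ↔ α ∈ B := by
  have := Set.ext_iff.1 h α
  simpa only [Set.mem_inter_iff, hα, and_true] using this

theorem Stage.exists_limB {κ χ ν₀ μ ν : Cardinal.{0}} {z F l f M s δ}
    (T : Stage κ χ ν₀ μ ν z F l f M s δ) (hTP : StrongTP κ) {d : ℕ → Cardinal.{0}}
    (hd : IsSeq ν₀ ν δ d) : ∃ B, IsLimB ν d M B := by
  have S := T.setup
  have hreg : (succ ν).IsRegular := T.lim.succ_regular S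
  have hpow : ∀ τ < κ, 2 ^ τ < succ ν := by
    intro τ hτ
    have h1 : (2 : Cardinal.{0}) ^ τ ≤ 2 ^ χ :=
      power_le_power_left two_ne_zero (hτ.le.trans S.kle)
    rw [← S.pow] at h1
    exact lt_of_le_of_lt h1 (T.lim.1.trans (lt_succ ν))
  have htop : κ.ord ≤ (succ (succ (d 0))).ord := by
    rw [ord_le_ord]
    exact (S.κ_lt.le.trans (hd.ge 0)).trans ((le_succ _).trans (le_succ _))
  obtain ⟨B, hBsub, hB⟩ := branch S.reg S.unc hTP hreg hpow (fun i => (succ (succ (d i))).ord) htop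
    (fun γ i => M γ (d i))
    (fun γ γ' hγ hγ' => by
      have hz := hd.tendsto.eventually (z_eventually S T.lim T.isz hγ hγ')
      filter_upwards [hz] with i hi
      exact T.mono γ' hγ' (d i) (hd.ge i) (hd.lt i) γ hγ hi)
    (fun i y hy hy' => T.traces (hd.ge i) (hd.lt i) y hy hy')
  refine ⟨B, hBsub, ?_, ?_⟩
  · intro y hy hyf
    obtain ⟨γ, hγ, h⟩ := (hB y hy fun i => LIMB_finite_lt S.unc (hyf i)).1
    exact ⟨γ, hγ, fun i α hα => LIMB_iff (h i) hα⟩
  · intro y hy hyf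
    obtain ⟨γ₀, hγ₀, h⟩ := (hB y hy fun i => LIMB_finite_lt S.unc (hyf i)).2
    refine ⟨γ₀, hγ₀, fun γ h1 h2 => ?_⟩
    filter_upwards [h γ h1 h2] with i hi
    exact fun α hα => LIMB_iff hi hα

end Pool.Agent.STP
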