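import Pool.Agent.STP.Basic

/-!
Module POWSING: `2 ^ μ ≤ μ⁺` from the count of small subsets (end of section 7 of the text).
-/

open Cardinal Ordinal Order Set Filter

namespace Pool.Agent.STP

theorem pow_le_of_count {χ μ : Cardinal.{0}} (hμ : μ.IsStrongLimit) (hχ : ℵ₀ ≤ χ)
    (hcof : μ.ord.cof ≤ χ)
    (h : #{X : Set Ordinal.{0} | X ⊆ Iio μ.ord ∧ #X ≤ up χ} ≤ up (succ μ)) :
    2 ^ μ ≤ succ μ := by
  have hα : #μ.ord.ToType = μ := mk_ord_toType μ
  have hr : (#μ.ord.ToType).ord = type (α := μ.ord.ToType) (· < ·) := by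
    rw [hα, type_toType]
  -- the code of bounded sets
  have hb := mk_bounded_subset (α := μ.ord.ToType) (by rw [hα]; exact hμ.2) hr
  obtain ⟨code⟩ := Cardinal.eq.mp hb
  -- the bijection with the ordinals
  have he : Nonempty (μ.ord.ToType ≃ Iio μ.ord) := by
    rw [← lift_mk_eq', Cardinal.mk_Iio_ordinal, card_ord, hα]
    simp
  obtain ⟨e⟩ := he
  -- a cofinal set
  obtain ⟨Cs, hC, hCc⟩ := exists_cof_eq (α := μ.ord.ToType)
  rw [cof_toType] at hCc
  have hlim : IsSuccLimit μ.ord := isSuccLimit_ord hμ.aleph0_le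
  have hbd : ∀ (A : Set μ.ord.ToType) (c : μ.ord.ToType), Bounded (· < ·) (A ∩ Iio c) :=
    fun A c => ⟨c, fun x hx => hx.2⟩
  obtain ⟨F, hF⟩ : ∃ F : Set μ.ord.ToType → Set Ordinal.{0}, ∀ A, F A =
      (fun c => (e (code ⟨A ∩ Iio c, hbd A c⟩) : Ordinal.{0})) '' Cs := ⟨_, fun A => rfl⟩
  have hFmem : ∀ A, F A ∈ {X : Set Ordinal.{0} | X ⊆ Iio μ.ord ∧ #X ≤ up χ} := by
    intro A
    rw [hF]
    constructor
    · rintro _ ⟨c, _, rfl⟩
      exact (e _).2
    · have h1 := mk_image_le_lift (f := fun c => (e (code ⟨A ∩ Iio c, hbd A c⟩) : Ordinal.{0}))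
        (s := Cs)
      have h2 : #((fun c => (e (code ⟨A ∩ Iio c, hbd A c⟩) : Ordinal.{0})) '' Cs) ≤
          Cardinal.lift.{1} #Cs := by
        simpa using h1
      refine h2.trans ?_
      rw [hCc]
      exact Cardinal.lift_le.mpr hcof
  have hsub : ∀ A B, F A = F B → A ⊆ B := by
    intro A B hAB a ha
    -- an element above a
    obtain ⟨a', ha'⟩ : ∃ a', a < a' := by
      by_contra hcon
      push Not at hcon
      have h1 : Order.cof μ.ord.ToType ≤ 1 := by
        have : Nonempty μ.ord.ToType := ⟨a⟩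
        rw [cof_le_one_iff]
        exact ⟨a, hcon⟩
      rw [cof_toType] at h1
      have h2 := one_lt_cof_iff.mpr hlim
      exact absurd h1 (not_le.mpr h2)
    obtain ⟨c, hcC, hc⟩ := hC a'
    have h1 : (e (code ⟨A ∩ Iio c, hbd A c⟩) : Ordinal.{0}) ∈ F B := by
      rw [← hAB, hF]
      exact ⟨c, hcC, rfl⟩
    rw [hF] at h1
    obtain ⟨c', _, hc'⟩ := h1
    have h2 := code.injective (e.injective (Subtype.ext hc'))
    have h3 : B ∩ Iio c' = A ∩ Iio c := congrArg Subtype.val h2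
    have h4 : a ∈ A ∩ Iio c := ⟨ha, ha'.trans_le hc⟩
    rw [← h3] at h4
    exact h4.1
  have hinj : Function.Injective (fun A => (⟨F A, hFmem A⟩ :
      {X : Set Ordinal.{0} | X ⊆ Iio μ.ord ∧ #X ≤ up χ})) := by
    intro A B hAB
    have h1 : F A = F B := congrArg Subtype.val hAB
    exact Subset.antisymm (hsub A B h1) (hsub B A h1.symm)
  have h1 := lift_mk_le'.mpr ⟨⟨_, hinj⟩⟩
  have h2 : Cardinal.lift.{1} #(Set μ.ord.ToType) ≤ up (succ μ) := by
    rw [Cardinal.lift_uzero] at h1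
    exact h1.trans h
  rw [Cardinal.lift_le, mk_set, hα] at h2
  exact h2

end Pool.Agent.STP
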