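import Pool.Agent.STP.Basic

/-!
Module SETUPOF: a strong limit `μ > κ` that is not a fixed point of the aleph function gives a
setup (`χ = max |δ| κ` for `μ = ℵ_δ`).
-/

open Cardinal Ordinal Order Set Filter

namespace Pool.Agent.STP

theorem exists_setup {κ μ : Cardinal.{0}} (hκ : κ.IsRegular) (hunc : ℵ₀ < κ) (hκμ : κ < μ)
    (hμ : μ.IsStrongLimit) (hfix : ℵ_ μ.ord ≠ μ) : ∃ χ ν₀, Setup κ χ ν₀ μ := by
  obtain ⟨δ, hδ⟩ : μ ∈ Set.range ⇑ℵ_ := mem_range_aleph_iff.mpr hμ.aleph0_le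
  have h1 : δ ≤ μ.ord := by
    rw [← hδ, ord_aleph]
    exact isNormal_omega.strictMono.le_apply
  have h2 : δ < μ.ord := by
    refine lt_of_le_of_ne h1 ?_
    intro h
    exact hfix (by rw [← h, hδ])
  have h3 : δ.card < μ := lt_ord.mp h2
  have hχ : max δ.card κ < μ := max_lt h3 hκμ
  refine ⟨max δ.card κ, 2 ^ max δ.card κ, hκ, hunc, le_max_right _ _, rfl, hμ.2 hχ, hμ, ?_⟩
  have h4 : ∀ b : Ico (2 ^ max δ.card κ) μ, ∃ α : Iio δ, ℵ_ (α : Ordinal.{0}) = b := by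
    rintro ⟨b, hb1, hb2⟩
    have h5 : ℵ₀ ≤ b :=
      (hunc.le.trans (le_max_right _ _)).trans ((cantor _).le.trans hb1)
    obtain ⟨α, hα⟩ : b ∈ Set.range ⇑ℵ_ := mem_range_aleph_iff.mpr h5
    refine ⟨⟨α, ?_⟩, hα⟩
    have h6 : ℵ_ α < ℵ_ δ := by rw [hα, hδ]; exact hb2
    exact aleph_lt_aleph.mp h6
  choose g hg using h4
  have h5 : Function.Injective g := by
    intro b b' h
    apply Subtype.ext
    rw [← hg b, ← hg b', h]
  calc #(Ico (2 ^ max δ.card κ) μ) ≤ #(Iio δ) := mk_le_of_injective h5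
    _ = up δ.card := Cardinal.mk_Iio_ordinal δ
    _ ≤ up (max δ.card κ) := Cardinal.lift_le.mpr (le_max_left _ _)

end Pool.Agent.STP
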