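import Pool.Agent.STP.ScaleEx
import Pool.Agent.STP.CountX
import Pool.Agent.STP.PowSing
import Pool.Agent.STP.SetupOf

/-!
Main theorem.
-/

open Cardinal Ordinal Order Set Filter

namespace Pool.Agent.STP

theorem main {κ : Cardinal.{0}} (hκ : κ.IsRegular) (hunc : ℵ₀ < κ) (hTP : StrongTP κ)
    {μ : Cardinal.{0}} (hκμ : κ < μ) (hμ : μ.IsStrongLimit) (hfix : ℵ_ μ.ord ≠ μ) :
    2 ^ μ = succ μ := by
  obtain ⟨χ, ν₀, S⟩ := exists_setup hκ hunc hκμ hμ hfix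
  obtain ⟨z, hz⟩ := exists_isZ
  obtain ⟨F, hF⟩ := exists_scale S hTP μ S.lim_top
  refine le_antisymm ?_ (succ_le_of_lt (cantor μ))
  exact pow_le_of_count hμ S.aleph0_le_χ (S.lim_top.cof_le S) (count_X S hz hF)

end Pool.Agent.STP
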