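import Pool.Agent.STP.Club

/-!
No bad points: an obedient sequence of functions, increasing modulo a filter, has a last class with
respect to any small set `y` (helper77).
-/

open Cardinal Ordinal Order Set Filter

namespace Pool.Agent.STP

/-- for every `δ < e` of cofinality `σ` the functions `F α`, `α` in some closed unbounded subset of
`δ`, have a common upper bound `F δ'`, `δ' < e`, modulo `l` -/
def Obedient {I : Type 1} (l : Filter I) (F : Ordinal.{0} → I → Ordinal.{0}) (e : Ordinal.{0})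
    (σ : Cardinal.{0}) : Prop :=
  ∀ δ < e, δ.cof = σ → ∃ E, IsClubIn E δ ∧ ∃ δ' < e, ∀ᶠ j in l, ∀ α ∈ E, F α j ≤ F δ' j

theorem no_bad {I : Type 1} {l : Filter I} {J : Set I} (hJ : J ∈ l) {ρ : Cardinal.{0}}
    (hρ : ρ.IsRegular) (hρ' : ℵ₀ < ρ) (hJρ : #J < up ρ) {e : Ordinal.{0}}
    (he : succ (succ ρ) < e.cof) {F : Ordinal.{0} → I → Ordinal.{0}}
    (hmono : ∀ ξ ξ', ξ < ξ' → ξ' < e → ∀ᶠ j in l, F ξ j ≤ F ξ' j)
    (hobed : Obedient l F e (succ (succ ρ))) {y : I → Set Ordinal.{0}}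
    (hy : ∀ j ∈ J, #(y j) < up ρ) :
    ∃ ξ₀ < e, ∀ ξ, ξ₀ ≤ ξ → ξ < e → ∀ᶠ j in l, ∀ η ∈ y j, F ξ₀ j ≤ η ↔ F ξ j ≤ η := by
  classical
  by_contra hcon
  push Not at hcon
  have hmono' : ∀ ξ ξ', ξ ≤ ξ' → ξ' < e → ∀ᶠ j in l, F ξ j ≤ F ξ' j := by
    intro ξ ξ' h h'
    rcases h.eq_or_lt with h1 | h1
    · rw [h1]
      exact Filter.Eventually.of_forall fun _ => le_rfl
    · exact hmono ξ ξ' h1 h'
  -- the witnesses
  have hN : ∀ ξ₀ : Ordinal.{0}, ∃ ξ, ξ₀ ≤ ξ ∧ (ξ₀ < e → ξ < e ∧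
      ∃ᶠ j in l, ∃ η ∈ y j, F ξ₀ j ≤ η ∧ η < F ξ j) := by
    intro ξ₀
    by_cases h : ξ₀ < e
    · obtain ⟨ξ, h1, h2, h3⟩ := hcon ξ₀ h
      refine ⟨ξ, h1, fun _ => ⟨h2, ?_⟩⟩
      refine (h3.and_eventually (hmono' ξ₀ ξ h1 h2)).mono ?_
      rintro j ⟨⟨η, h4, h5⟩, h6⟩
      refine ⟨η, h4, ?_⟩
      rcases h5 with ⟨h5, h7⟩ | ⟨h5, h7⟩
      · exact ⟨h5, h7⟩
      · exact absurd (h6.trans h7) (not_le.2 h5)
    · exact ⟨ξ₀, le_rfl, fun h' => absurd h' h⟩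
  choose N hN1 hN2 using hN
  set σ : Cardinal.{0} := succ (succ ρ) with hσdef
  have hρσ : ρ < σ := (lt_succ ρ).trans (lt_succ _)
  have hσ : σ.IsRegular := isRegular_succ (hρ.aleph0_le.trans (lt_succ ρ).le)
  have hσcof : σ.ord.cof = σ := hσ.cof_ord
  obtain ⟨D, hD1, hD2⟩ := club_guess hρ hρ'
  -- the bounds
  let Z : Ordinal.{0} → Ordinal.{0} → (Ordinal.{0} → Ordinal.{0}) → Ordinal.{0} := fun δ k g =>
    if h : ∃ ζ < e, ∀ᶠ j in l, ∀ i ∈ D δ, i ≤ k → F (g i) j ≤ F ζ j then h.choose else 0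
  have he0 : 0 < e := by
    rw [← Ordinal.cof_pos]
    exact bot_le.trans_lt he
  have hZlt : ∀ δ k g, Z δ k g < e := by
    intro δ k g
    by_cases h : ∃ ζ < e, ∀ᶠ j in l, ∀ i ∈ D δ, i ≤ k → F (g i) j ≤ F ζ j
    · simp only [Z, dif_pos h]
      exact h.choose_spec.1
    · simp only [Z, dif_neg h]
      exact he0
  have hZ : ∀ δ k g, (∃ ζ < e, ∀ᶠ j in l, ∀ i ∈ D δ, i ≤ k → F (g i) j ≤ F ζ j) →
      ∀ᶠ j in l, ∀ i ∈ D δ, i ≤ k → F (g i) j ≤ F (Z δ k g) j := by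
    intro δ k g h
    simp only [Z, dif_pos h]
    exact h.choose_spec.2
  let Φ : Ordinal.{0} → (Ordinal.{0} → Ordinal.{0}) → Ordinal.{0} := fun k g =>
    max (N (g k)) (ssup (range fun δ : Iio σ.ord => Z δ.1 k g))
  let ξ : Ordinal.{0} → Ordinal.{0} := rseq Φ
  let ξr : Ordinal.{0} → Ordinal.{0} → Ordinal.{0} := fun k i => if i ≤ k then ξ i else 0
  have hval : ∀ k, rval Φ k = max (N (ξ k)) (ssup (range fun δ : Iio σ.ord => Z δ.1 k (ξr k))) := by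
    intro k
    simp only [rval, Φ, le_refl, if_true]
    rfl
  have hle : ∀ k, rseq Φ k ≤ rval Φ k := by
    intro k
    rw [hval]
    exact (hN1 _).trans (le_max_left _ _)
  have hrange : ∀ k, #(range fun δ : Iio σ.ord => Z δ.1 k (ξr k)) ≤ up σ := by
    intro k
    refine mk_range_le.trans ?_
    rw [mk_Iio_ord]
  have hlt : ∀ k, k ≤ σ.ord → ξ k < e := by
    intro k hk
    apply rseq_lt_of_cof
    · refine (Ordinal.card_le_card hk).trans_lt ?_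
      rw [card_ord]
      exact he
    · intro i _ hi
      rw [hval]
      refine max_lt (hN2 _ hi).1 (ssup_lt_cof ((hrange i).trans_lt (Cardinal.lift_lt.2 he)) ?_)
      rintro _ ⟨δ, rfl⟩
      exact hZlt _ _ _
  have hmonoξ : ∀ {i k : Ordinal.{0}}, i < k → ξ i < ξ k := fun h => rseq_lt hle h
  have hmonoξ' : ∀ {i k : Ordinal.{0}}, i ≤ k → ξ i ≤ ξ k := fun h => rseq_le hle h
  have hrefl : ∀ {i k : Ordinal.{0}}, ξ i < ξ k → i < k := by
    intro i k h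
    by_contra h1
    exact absurd h (not_lt.2 (hmonoξ' (not_lt.1 h1)))
  have hcof : (ξ σ.ord).cof = σ := (cof_rseq hle σ.ord).trans hσcof
  obtain ⟨E, hE, δ', hδ', hEδ'⟩ := hobed (ξ σ.ord) (hlt _ le_rfl) hcof
  have hσlim : IsSuccLimit σ.ord := isSuccLimit_ord hσ.aleph0_le
  -- the club `E'`
  have hstep : ∀ k : Ordinal.{0}, ∃ k', k < σ.ord → k' < σ.ord ∧ ∃ ε ∈ E, ξ k < ε ∧ ε < ξ k' := by
    intro k
    by_cases h : k < σ.ord
    · obtain ⟨ε, h1, h2⟩ := hE.unb (ξ k) (hmonoξ h)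
      obtain ⟨i, h3, h4⟩ := lt_rseq (hE.lt ε h1)
      exact ⟨i + 1, fun _ => ⟨hσlim.add_one_lt h3, ε, h1, h2, h4.trans_lt (rval_lt (lt_add_one i))⟩⟩
    · exact ⟨0, fun h' => absurd h' h⟩
  choose M hM using hstep
  have hE' : IsClubIn {k | k < σ.ord ∧ 0 < k ∧ (∀ γ < k, γ + 1 < k) ∧ ξ k ∈ E} σ.ord := by
    refine ⟨fun k h => h.1, ?_, ?_⟩
    · intro γ hγ
      have h0 : ℵ₀ < σ.ord.cof := by
        rw [hσcof]
        exact hρ'.trans hρσ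
      obtain ⟨β, h1, h2, h3⟩ := seq_ex h0 (fun k hk => (hM k hk).1) hγ
      have hβ0 : 0 < β := bot_le.trans_lt h1
      have hβl : ∀ ζ < β, ζ + 1 < β := by
        intro ζ hζ
        obtain ⟨α, h4, h5, h6⟩ := h3 ζ hζ
        obtain ⟨ε, _, h7, h8⟩ := (hM α h6).2
        have h9 : α < M α := hrefl (h7.trans h8)
        exact (add_one_le_of_lt (h4.trans_lt h9)).trans_lt h5
      refine ⟨β, ⟨h2, hβ0, hβl, hE.closed _ ?_ (hmonoξ h2) ?_⟩, h1⟩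
      · exact bot_le.trans_lt (hmonoξ hβ0)
      · intro γ' hγ'
        obtain ⟨i, h4, h5⟩ := lt_rseq hγ'
        obtain ⟨α, h6, h7, h8⟩ := h3 (i + 1) (hβl i h4)
        obtain ⟨ε, h9, h10, h11⟩ := (hM α h8).2
        refine ⟨ε, h9, ?_, h11.trans (hmonoξ h7)⟩
        exact h5.trans_lt (((rval_lt (lt_add_one i)).trans_le (hmonoξ' h6)).trans h10)
    · intro β h0 hβ h
      refine ⟨hβ, h0, ?_, hE.closed _ ?_ (hmonoξ hβ) ?_⟩
      · intro γ hγ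
        obtain ⟨k, _, h1, h2⟩ := h γ hγ
        exact (add_one_le_of_lt h1).trans_lt h2
      · exact bot_le.trans_lt (hmonoξ h0)
      · intro γ' hγ'
        obtain ⟨i, h4, h5⟩ := lt_rseq hγ'
        obtain ⟨k, hk, h1, h2⟩ := h i h4
        exact ⟨ξ k, hk.2.2.2, h5.trans_lt (rval_lt h1), hmonoξ h2⟩
  obtain ⟨δ, hδσ, hδcof, hDE, hDδ, hDunb⟩ := hD2 _ hE'
  -- the next element
  have hnx : ∀ k : Ordinal.{0}, ∃ n, k < δ → n ∈ D δ ∧ k < n ∧ ∀ k' ∈ D δ, k < k' → n ≤ k' := by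
    intro k
    by_cases h : k < δ
    · obtain ⟨ε, h1, h2⟩ := hDunb k h
      have hne : ({k' | k' ∈ D δ ∧ k < k'} : Set Ordinal.{0}).Nonempty := ⟨ε, h1, h2⟩
      have h3 := csInf_mem hne
      refine ⟨sInf {k' | k' ∈ D δ ∧ k < k'}, fun _ => ⟨h3.1, h3.2, fun k' h4 h5 => ?_⟩⟩
      exact csInf_le' ⟨h4, h5⟩
    · exact ⟨0, fun h' => absurd h' h⟩
  choose nx hnx using hnx
  -- the choice of `j` and `η`
  have hch : ∀ k : D δ, ∃ j ∈ J, ∃ η ∈ y j, (∀ i ∈ D δ, i ≤ k.1 → F (ξ i) j ≤ η) ∧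
      η < F (ξ (nx k.1)) j := by
    intro ⟨k, hk⟩
    have hkδ : k < δ := hDδ k hk
    have hkσ : k < σ.ord := hkδ.trans hδσ
    obtain ⟨hn1, hn2, hn3⟩ := hnx k hkδ
    have hnσ : nx k < σ.ord := (hDδ _ hn1).trans hδσ
    have hk1 : k + 1 < nx k := (hDE hn1).2.2.1 k hn2
    have hex : ∃ ζ < e, ∀ᶠ j in l, ∀ i ∈ D δ, i ≤ k → F (ξr k i) j ≤ F ζ j := by
      refine ⟨δ', hδ', hEδ'.mono fun j hj i hi hik => ?_⟩
      simp only [ξr, if_pos hik]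
      exact hj _ (hDE hi).2.2.2
    have h1 := hZ δ k (ξr k) hex
    have h2 : Z δ k (ξr k) < ξ (k + 1) := by
      refine lt_trans ?_ (rval_lt (lt_add_one k))
      rw [hval]
      refine lt_max_of_lt_right (lt_ssup (small_of_mk_le (hrange k)) ⟨⟨δ, hδσ⟩, rfl⟩)
    have h3 := hmono _ _ h2 (hlt _ (hk1.le.trans hnσ.le))
    have h4 : ∃ᶠ j in l, ∃ η ∈ y j, F (ξ (k + 1)) j ≤ η ∧ η < F (N (ξ (k + 1))) j :=
      (hN2 _ (hlt _ (hk1.le.trans hnσ.le))).2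
    have h5 : N (ξ (k + 1)) < ξ (nx k) := by
      refine lt_of_le_of_lt ?_ (rval_lt hk1)
      rw [hval]
      exact le_max_left _ _
    have h6 := hmono _ _ h5 (hlt _ hnσ.le)
    obtain ⟨j, ⟨η, h7, h8, h9⟩, h10, h11, h12, h13⟩ :=
      (h4.and_eventually (h1.and (h3.and (h6.and hJ)))).exists
    refine ⟨j, h13, η, h7, fun i hi hik => ?_, h9.trans_le h12⟩
    have h14 := h10 i hi hik
    simp only [ξr, if_pos hik] at h14
    exact (h14.trans h11).trans h8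
  choose jj hjJ ηη hηy hη1 hη2 using hch
  -- one `j` for unboundedly many `k`
  have hpig : ∃ j ∈ J, ∀ γ < δ, ∃ k : D δ, γ < k.1 ∧ jj k = j := by
    by_contra hc
    push Not at hc
    have h1 : ∀ j : J, ∃ b, b < δ ∧ ∀ k : D δ, b < k.1 → jj k ≠ j.1 := by
      intro j
      obtain ⟨b, h2, h3⟩ := hc j.1 j.2
      exact ⟨b, h2, h3⟩
    choose b hb1 hb2 using h1
    have h2 : ssup (range b) < δ := by
      apply ssup_lt_cof
      · refine mk_range_le.trans_lt ?_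
        rw [hδcof]
        exact hJρ
      · rintro _ ⟨j, rfl⟩
        exact hb1 j
    obtain ⟨k, hk, h3⟩ := hDunb _ h2
    have h4 : b ⟨jj ⟨k, hk⟩, hjJ ⟨k, hk⟩⟩ < k :=
      (lt_ssup (small_of_mk_le (mk_range_le.trans hJρ.le)) ⟨_, rfl⟩).trans h3
    exact hb2 _ ⟨k, hk⟩ h4 rfl
  obtain ⟨j, hjJ', hj⟩ := hpig
  have hW1 : up ρ ≤ #{k | ∃ h : k ∈ D δ, jj ⟨k, h⟩ = j} := by
    rw [← hδcof]
    refine cof_le_mk (fun k hk => hDδ k hk.1) fun γ hγ => ?_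
    obtain ⟨k, h1, h2⟩ := hj γ hγ
    exact ⟨k.1, ⟨k.2, h2⟩, h1⟩
  have hinj : Function.Injective (fun k : {k | ∃ h : k ∈ D δ, jj ⟨k, h⟩ = j} =>
      (⟨ηη ⟨k.1, k.2.1⟩, by
        have h1 := hηy ⟨k.1, k.2.1⟩
        rw [k.2.2] at h1
        exact h1⟩ : y j)) := by
    have hlt' : ∀ k k' : {k | ∃ h : k ∈ D δ, jj ⟨k, h⟩ = j}, k.1 < k'.1 →
        ηη ⟨k.1, k.2.1⟩ < ηη ⟨k'.1, k'.2.1⟩ := by
      intro k k' h
      have h1 := hη2 ⟨k.1, k.2.1⟩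
      obtain ⟨hn1, hn2, hn3⟩ := hnx k.1 (hDδ _ k.2.1)
      have h2 := hη1 ⟨k'.1, k'.2.1⟩ (nx k.1) hn1 (hn3 k'.1 k'.2.1 h)
      rw [k.2.2] at h1
      rw [k'.2.2] at h2
      exact h1.trans_le h2
    intro k k' h
    have h1 : ηη ⟨k.1, k.2.1⟩ = ηη ⟨k'.1, k'.2.1⟩ := congrArg Subtype.val h
    rcases lt_trichotomy k.1 k'.1 with h2 | h2 | h2
    · exact absurd h1 (hlt' k k' h2).ne
    · exact Subtype.ext h2
    · exact absurd h1 (hlt' k' k h2).ne'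
  exact absurd (hW1.trans (Cardinal.mk_le_of_injective hinj)) (not_le.2 (hy j hjJ'))

/-- the relation of having the same trace on `y`, modulo `l` -/
def SameTrace {I : Type 1} (l : Filter I) (F : Ordinal.{0} → I → Ordinal.{0})
    (y : I → Set Ordinal.{0}) (ξ ξ' : Ordinal.{0}) : Prop :=
  ∀ᶠ j in l, ∀ η ∈ y j, F ξ j ≤ η ↔ F ξ' j ≤ η

/-- If `κ` is a regular limit cardinal, a sequence of length `T` which is increasing modulo `l` and
obedient at all points of uncountable cofinality `< κ` has fewer than `κ` classes of traces on a set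
of size `< κ`. -/
theorem few_classes {I : Type 1} {l : Filter I} {J : Set I} (hJ : J ∈ l) {κ : Cardinal.{0}}
    (hκ : κ.IsRegular) (hκ0 : ℵ₀ < κ) (hκ' : ∀ b < κ, succ b < κ) (hJκ : #J < up κ)
    {T : Ordinal.{0}} {F : Ordinal.{0} → I → Ordinal.{0}}
    (hmono : ∀ ξ ξ', ξ < ξ' → ξ' < T → ∀ᶠ j in l, F ξ j ≤ F ξ' j)
    (hobed : ∀ δ < T, ℵ₀ < δ.cof → δ.cof < κ →
      ∃ E, IsClubIn E δ ∧ ∀ᶠ j in l, ∀ α ∈ E, F α j ≤ F δ j)
    {y : I → Set Ordinal.{0}} (hy : ∀ j ∈ J, #(y j) < up κ) :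
    ∃ S : Set Ordinal.{0}, #S < up κ ∧ (∀ ξ ∈ S, ξ < T) ∧ ∀ ξ < T, ∃ ξ' ∈ S, SameTrace l F y ξ ξ' := by
  classical
  have hrefl : ∀ ξ, SameTrace l F y ξ ξ := fun ξ => Filter.Eventually.of_forall fun _ _ _ => Iff.rfl
  have hsymm : ∀ ξ ξ', SameTrace l F y ξ ξ' → SameTrace l F y ξ' ξ := fun ξ ξ' h =>
    h.mono fun j hj η hη => (hj η hη).symm
  have htrans : ∀ ξ ξ' ξ'', SameTrace l F y ξ ξ' → SameTrace l F y ξ' ξ'' →
      SameTrace l F y ξ ξ'' := fun ξ ξ' ξ'' h h' =>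
    (h.and h').mono fun j hj η hη => (hj.1 η hη).trans (hj.2 η hη)
  set S : Set Ordinal.{0} := {ξ | ξ < T ∧ ∀ ξ' < ξ, ¬ SameTrace l F y ξ' ξ} with hS
  refine ⟨S, ?_, fun ξ h => h.1, ?_⟩
  · by_contra hcon
    rw [not_lt] at hcon
    have hST : S ⊆ Iio T := fun ξ h => h.1
    have hex : ∃ e, up κ ≤ #(S ∩ Iio e : Set Ordinal.{0}) := by
      refine ⟨T, ?_⟩
      rw [inter_eq_left.2 hST]
      exact hcon
    obtain ⟨e, he, hmin⟩ : ∃ e, up κ ≤ #(S ∩ Iio e : Set Ordinal.{0}) ∧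
        ∀ e' < e, #(S ∩ Iio e' : Set Ordinal.{0}) < up κ := by
      obtain ⟨e, h1, h2⟩ := WellFounded.has_min (wellFounded_lt (α := Ordinal.{0}))
        {e | up κ ≤ #(S ∩ Iio e : Set Ordinal.{0})} hex
      exact ⟨e, h1, fun e' h' => not_le.1 fun h3 => h2 e' h3 h'⟩
    have heT : e ≤ T := by
      by_contra h
      rw [not_le] at h
      have h1 := hmin T h
      rw [inter_eq_left.2 hST] at h1
      exact absurd h1 (not_lt.2 hcon)
    have hupreg : (up κ).IsRegular := by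
      refine ⟨?_, ?_⟩
      · rw [← Cardinal.lift_aleph0.{1, 0}]
        exact Cardinal.lift_le.2 hκ.aleph0_le
      · rw [← Cardinal.lift_ord, ← Ordinal.lift_cof, hκ.cof_ord]
    have hIic : ∀ γ < e, #(S ∩ Iic γ : Set Ordinal.{0}) < up κ := by
      intro γ hγ
      have h1 : S ∩ Iic γ ⊆ (S ∩ Iio γ) ∪ {γ} := by
        rintro x ⟨hx, hx'⟩
        rcases (mem_Iic.1 hx').eq_or_lt with h | h
        · exact Or.inr h
        · exact Or.inl ⟨hx, h⟩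
      refine (Cardinal.mk_le_mk_of_subset h1).trans_lt ((Cardinal.mk_union_le _ _).trans_lt ?_)
      refine Cardinal.add_lt_of_lt hupreg.aleph0_le (hmin γ hγ) ?_
      rw [Cardinal.mk_singleton]
      exact Cardinal.one_lt_aleph0.trans_le hupreg.aleph0_le
    have hcof : κ ≤ e.cof := by
      by_contra h
      rw [not_le] at h
      obtain ⟨E, hE1, _, hE3⟩ := fund (δ := e) rfl
      have h1 : S ∩ Iio e ⊆ ⋃ i : Iio e.cof.ord, (S ∩ Iic (E i.1)) := by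
        rintro x ⟨hx, hx'⟩
        obtain ⟨i, hi, hi'⟩ := hE3 x hx'
        exact mem_iUnion.2 ⟨⟨i, hi⟩, hx, hi'⟩
      have h2 : #(⋃ i : Iio e.cof.ord, (S ∩ Iic (E i.1)) : Set Ordinal.{0}) < up κ := by
        refine (Cardinal.mk_iUnion_le _).trans_lt ?_
        have h3 : #(Iio e.cof.ord) < up κ := by
          rw [mk_Iio_ord]
          exact Cardinal.lift_lt.2 h
        refine Cardinal.mul_lt_of_lt hupreg.aleph0_le h3 ?_
        refine Cardinal.iSup_lt_of_lt_cof_ord ?_ fun i => hIic _ (hE1 i.1 i.2)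
        rw [hupreg.cof_ord]
        exact h3
      exact absurd ((he.trans (Cardinal.mk_le_mk_of_subset h1)).trans_lt h2) (lt_irrefl _)
    -- the cardinal `ρ`
    have hch : ∀ j : J, ∃ c : Cardinal.{0}, c < κ ∧ #(y j.1) = up c := by
      intro j
      obtain ⟨c, hc⟩ := Cardinal.mem_range_lift_of_le (hy j.1 j.2).le
      refine ⟨c, ?_, hc.symm⟩
      have h1 := hy j.1 j.2
      rw [← hc] at h1
      exact Cardinal.lift_lt.1 h1
    choose c hc1 hc2 using hch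
    obtain ⟨γ, hγ1, hγ2⟩ := sup_bound hκ hJκ (fun j => (c j).ord) (fun j => ord_lt_ord.2 (hc1 j))
    obtain ⟨cJ, hcJ⟩ := Cardinal.mem_range_lift_of_le hJκ.le
    have hcJ' : cJ < κ := by
      have h1 := hJκ
      rw [← hcJ] at h1
      exact Cardinal.lift_lt.1 h1
    set b : Cardinal.{0} := max (max ℵ₀ cJ) γ.card with hb
    have hbκ : b < κ := max_lt (max_lt hκ0 hcJ') (lt_ord.1 hγ1)
    have hb0 : ℵ₀ ≤ b := (le_max_left _ _).trans (le_max_left _ _)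
    have hρ : (succ b).IsRegular := isRegular_succ hb0
    have hρ' : ℵ₀ < succ b := hb0.trans_lt (lt_succ b)
    have hρκ : succ b < κ := hκ' _ hbκ
    have hJρ : #J < up (succ b) := by
      rw [← hcJ]
      exact Cardinal.lift_lt.2
        ((((le_max_right _ _).trans (le_max_left _ _)) : cJ ≤ b).trans_lt (lt_succ b))
    have hyρ : ∀ j ∈ J, #(y j) < up (succ b) := by
      intro j hj
      have h1 : c ⟨j, hj⟩ ≤ b := by
        have h2 := hγ2 ⟨j, hj⟩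
        have h3 : c ⟨j, hj⟩ ≤ γ.card := by
          have h4 := Ordinal.card_le_card h2
          rwa [card_ord] at h4
        exact h3.trans (le_max_right _ _)
      have h2 : #(y j) = up (c ⟨j, hj⟩) := hc2 ⟨j, hj⟩
      rw [h2]
      exact Cardinal.lift_lt.2 (h1.trans_lt (lt_succ b))
    have hσκ : succ (succ (succ b)) < κ := hκ' _ (hκ' _ hρκ)
    have hob : Obedient l F e (succ (succ (succ b))) := by
      intro δ hδ hcof'
      obtain ⟨E, hE, hE'⟩ := hobed δ (hδ.trans_le heT)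
        (by
          rw [hcof']
          exact hρ'.trans ((lt_succ _).trans (lt_succ _)))
        (by
          rw [hcof']
          exact hσκ)
      exact ⟨E, hE, δ, hδ, hE'⟩
    obtain ⟨ξ₀, h1, h2⟩ := no_bad hJ hρ hρ' hJρ (hσκ.trans_le hcof)
      (fun ξ ξ' h h' => hmono ξ ξ' h (h'.trans_le heT)) hob hyρ
    have h3 : ∃ ξ ∈ S, ξ < e ∧ ξ₀ < ξ := by
      by_contra h
      push Not at h
      have h4 : S ∩ Iio e ⊆ S ∩ Iic ξ₀ := fun x hx => ⟨hx.1, h x hx.1 hx.2⟩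
      exact absurd ((he.trans (Cardinal.mk_le_mk_of_subset h4)).trans_lt (hIic _ h1)) (lt_irrefl _)
    obtain ⟨ξ, hξS, hξe, hξ0⟩ := h3
    exact hξS.2 ξ₀ hξ0 (h2 ξ hξ0.le hξe)
  · intro ξ hξ
    obtain ⟨ξ', h1, h2⟩ := WellFounded.has_min (wellFounded_lt (α := Ordinal.{0}))
      {ξ' | SameTrace l F y ξ ξ'} ⟨ξ, hrefl ξ⟩
    have h3 : ξ' ≤ ξ := not_lt.1 fun h => h2 ξ (hrefl ξ) h
    refine ⟨ξ', ⟨h3.trans_lt hξ, fun ξ'' h4 h5 => ?_⟩, h1⟩
    exact h2 ξ'' (htrans _ _ _ h1 (hsymm _ _ h5)) h4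

/-- LEMMA (XI): the same for a sequence which is indexed by `[a, T)`, and a set `Xi` such that no
`ξ ∈ Xi` has the same trace as a `ξ'` with `ξ' + 1 < ξ`. -/
theorem xi_small {I : Type 1} {l : Filter I} {J : Set I} (hJ : J ∈ l) {κ : Cardinal.{0}}
    (hκ : κ.IsRegular) (hκ0 : ℵ₀ < κ) (hκ' : ∀ b < κ, succ b < κ) (hJκ : #J < up κ)
    {a T : Ordinal.{0}} {F : Ordinal.{0} → I → Ordinal.{0}}
    (hmono : ∀ ξ ξ', a ≤ ξ → ξ < ξ' → ξ' < T → ∀ᶠ j in l, F ξ j ≤ F ξ' j)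
    (hobed : ∀ δ, a < δ → δ < T → ℵ₀ < δ.cof → δ.cof < κ →
      ∃ E, IsClubIn E δ ∧ ∀ᶠ j in l, ∀ α ∈ E, a ≤ α → F α j ≤ F δ j)
    {y : I → Set Ordinal.{0}} (hy : ∀ j ∈ J, #(y j) < up κ) {Xi : Set Ordinal.{0}}
    (hXi : ∀ ξ ∈ Xi, a ≤ ξ ∧ ξ < T)
    (hne : ∀ ξ ∈ Xi, ∀ ξ', a ≤ ξ' → ξ' + 1 < ξ → ¬ SameTrace l F y ξ' ξ) : #Xi < up κ := by
  classical
  have hmono' : ∀ ξ ξ', a ≤ ξ → ξ ≤ ξ' → ξ' < T → ∀ᶠ j in l, F ξ j ≤ F ξ' j := by
    intro ξ ξ' h h' h''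
    rcases h'.eq_or_lt with h1 | h1
    · rw [h1]
      exact Filter.Eventually.of_forall fun _ => le_rfl
    · exact hmono ξ ξ' h h1 h''
  by_cases haT : a < T
  swap
  · have h1 : Xi = ∅ := by
      apply Set.eq_empty_of_forall_notMem
      intro ξ hξ
      exact haT ((hXi ξ hξ).1.trans_lt (hXi ξ hξ).2)
    have h2 : up 0 < up κ := Cardinal.lift_lt.2 (Cardinal.aleph0_pos.trans hκ0)
    rw [h1, Cardinal.mk_eq_zero]
    exact (zero_le : (0 : Cardinal.{1}) ≤ up 0).trans_lt h2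
  obtain ⟨S, hS, hST, hrep⟩ := few_classes (F := fun ξ => F (max a ξ)) (T := T) hJ hκ hκ0 hκ' hJκ
    (fun ξ ξ' h h' => hmono' _ _ (le_max_left _ _) (max_le_max_left a h.le) (max_lt haT h'))
    (fun δ hδ h1 h2 => by
      rcases lt_or_ge a δ with h3 | h3
      · obtain ⟨E, hE, hE'⟩ := hobed δ h3 hδ h1 h2
        have hE2 : IsClubIn (E ∩ Ioo a δ) δ := by
          refine hE.inter h1 ⟨fun α h => h.2, fun ζ hζ => ?_, fun β hβ0 hβ h => ⟨?_, hβ⟩⟩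
          · have h4 : max a ζ < δ := max_lt h3 hζ
            refine ⟨max a ζ + 1, ⟨?_, one_add_lt h1 h4⟩, ?_⟩
            · exact (le_max_left _ _).trans_lt (lt_add_one _)
            · exact (le_max_right _ _).trans_lt (lt_add_one _)
          · obtain ⟨ε, h5, h6, h7⟩ := h 0 hβ0
            exact h5.1.trans h7
        refine ⟨E ∩ Ioo a δ, hE2, hE'.mono fun j hj α hα => ?_⟩
        rw [max_eq_right hα.2.1.le, max_eq_right h3.le]
        exact hj α hα.1 hα.2.1.le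
      · obtain ⟨E, hE, _⟩ := exists_small_club (δ := δ) h1.le
        refine ⟨E, hE, Filter.Eventually.of_forall fun j α hα => ?_⟩
        rw [max_eq_left h3, max_eq_left ((hE.lt α hα).le.trans h3)]) hy
  have hrep' : ∀ ξ : Xi, ∃ ξ' : S, SameTrace l F y ξ.1 (max a ξ'.1) := by
    intro ξ
    obtain ⟨h1, h2⟩ := hXi ξ.1 ξ.2
    obtain ⟨ξ', h3, h4⟩ := hrep ξ.1 h2
    refine ⟨⟨ξ', h3⟩, ?_⟩
    have h5 : SameTrace l F y (max a ξ.1) (max a ξ') := h4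
    rwa [max_eq_right h1] at h5
  choose g hg using hrep'
  have hsame : ∀ ξ ξ' : Xi, g ξ = g ξ' → SameTrace l F y ξ.1 ξ'.1 := by
    intro ξ ξ' h
    have h1 := hg ξ
    rw [h] at h1
    exact (h1.and (hg ξ')).mono fun j hj η hη => (hj.1 η hη).trans (hj.2 η hη).symm
  have hinj : Function.Injective (fun ξ : Xi => ((g ξ, ULift.up (decide (∃ ξ' : Xi, ξ'.1 < ξ.1 ∧
      SameTrace l F y ξ'.1 ξ.1))) : S × ULift.{1, 0} Bool)) := by
    have key : ∀ ξ ξ' : Xi, ξ.1 < ξ'.1 → g ξ = g ξ' →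
        ¬ (decide (∃ ξ'' : Xi, ξ''.1 < ξ.1 ∧ SameTrace l F y ξ''.1 ξ.1)
          = decide (∃ ξ'' : Xi, ξ''.1 < ξ'.1 ∧ SameTrace l F y ξ''.1 ξ'.1)) := by
      intro ξ ξ' h h' heq
      have h1 : ∃ ξ'' : Xi, ξ''.1 < ξ'.1 ∧ SameTrace l F y ξ''.1 ξ'.1 := ⟨ξ, h, hsame _ _ h'⟩
      rw [decide_eq_true h1, decide_eq_true_iff] at heq
      obtain ⟨ξ'', h2, h3⟩ := heq
      refine hne ξ'.1 ξ'.2 ξ''.1 (hXi _ ξ''.2).1 ((add_one_le_of_lt h2).trans_lt h) ?_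
      exact (h3.and (hsame _ _ h')).mono fun j hj η hη => (hj.1 η hη).trans (hj.2 η hη)
    intro ξ ξ' h
    have h1 : g ξ = g ξ' := congrArg Prod.fst h
    have h2 := congrArg ULift.down (congrArg Prod.snd h)
    rcases lt_trichotomy ξ.1 ξ'.1 with h3 | h3 | h3
    · exact absurd h2 (key ξ ξ' h3 h1)
    · exact Subtype.ext h3
    · exact absurd h2.symm (key ξ' ξ h3 h1.symm)
  refine (Cardinal.mk_le_of_injective hinj).trans_lt ?_
  have hup : ℵ₀ ≤ up κ := by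
    rw [← Cardinal.lift_aleph0.{1, 0}]
    exact Cardinal.lift_le.2 hκ.aleph0_le
  rw [Cardinal.mk_prod, Cardinal.lift_id, Cardinal.lift_id]
  exact Cardinal.mul_lt_of_lt hup hS ((Cardinal.lt_aleph0_of_finite _).trans_le hup)

end Pool.Agent.STP
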