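import Pool.Agent.STP.Tall
import Pool.Agent.STP.LSing

/-!
Module PICK: the choice of the sequence `d` in section 6b of the text.
-/

open Cardinal Ordinal Order Set Filter

namespace Pool.Agent.STP

/-- one step of the choice -/
theorem Stage.PICK_step {κ χ ν₀ μ ν : Cardinal.{0}} {z F l f M s δ}
    (T : Stage κ χ ν₀ μ ν z F l f M s δ)
    (hY : ∃ᶠ b in near ν, δ b ≠ (succ b).ord) (a : Cardinal.{0}) (ha : a < ν) :
    ∃ c, a ≤ c ∧ c < ν ∧ ν₀ ≤ c ∧ δ c < (succ c).ord ∧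
      δ (succ c) = (succ (succ c)).ord := by
  classical
  have hpos : 0 < ν := T.lim.pos
  obtain ⟨b₁, hb₁, h₁⟩ := (near_iff hpos).1 T.lsing
  have hY' := (near_frequently_iff hpos).1 hY
  obtain ⟨y₀, hy₀, hy₀ν, hy₀δ⟩ := hY' (max a (max b₁ ν₀)) (max_lt ha (max_lt hb₁ T.lim.1))
  have hT' := (near_frequently_iff hpos).1 T.tall
  have hex : ∃ b, y₀ < b ∧ b < ν ∧ δ b = (succ b).ord := by
    obtain ⟨b, h1, h2, h3⟩ := hT' (succ y₀) (T.lim.2.2 _ hy₀ν)
    exact ⟨b, (lt_succ y₀).trans_le h1, h2, h3⟩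
  obtain ⟨b, ⟨hb1, hb2, hb3⟩, hmin⟩ :
      ∃ b, (y₀ < b ∧ b < ν ∧ δ b = (succ b).ord) ∧
        ∀ c, c < b → ¬ (y₀ < c ∧ c < ν ∧ δ c = (succ c).ord) := by
    have wf : WellFounded ((· < ·) : Cardinal.{0} → Cardinal.{0} → Prop) :=
      wellFounded_lt
    refine ⟨wf.min {b | y₀ < b ∧ b < ν ∧ δ b = (succ b).ord} hex, wf.min_mem _ hex, ?_⟩
    intro c hc h
    exact wf.not_lt_min _ h hc
  have hν₀y : ν₀ ≤ y₀ := (le_max_right _ _).trans ((le_max_right _ _).trans hy₀)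
  have hb₁y : b₁ ≤ y₀ := (le_max_left _ _).trans ((le_max_right _ _).trans hy₀)
  have hay : a ≤ y₀ := (le_max_left _ _).trans hy₀
  have key : ∀ c, y₀ ≤ c → c < b → δ c ≠ (succ c).ord := by
    intro c hc hcb h
    rcases hc.eq_or_lt with rfl | hlt
    · exact hy₀δ h
    · exact hmin c hcb ⟨hlt, hcb.trans hb2, h⟩
  rcases T.lim.lim_or_succ (hν₀y.trans_lt hb1) hb2 with hl | ⟨c, hc1, hc2, rfl⟩
  · exfalso
    obtain ⟨b₀, hb₀, h₀⟩ := h₁ b (hb₁y.trans hb1.le) hb2 hl hb3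
    exact key (max b₀ y₀) (le_max_right _ _) (max_lt hb₀ hb1)
      (h₀ _ (le_max_left _ _) (max_lt hb₀ hb1))
  · have hyc : y₀ ≤ c := lt_succ_iff.1 hb1
    have hcν : c < ν := hc2.trans hb2
    refine ⟨c, hay.trans hyc, hcν, hc1, ?_, hb3⟩
    exact lt_of_le_of_ne (T.eub.le c hc1 hcν) (key c hyc hc2)

theorem Stage.exists_seq {κ χ ν₀ μ ν : Cardinal.{0}} {z F l f M s δ}
    (T : Stage κ χ ν₀ μ ν z F l f M s δ) (hcof : ν.ord.cof = ℵ₀)
    (hY : ∃ᶠ b in near ν, δ b ≠ (succ b).ord) : ∃ d, IsSeq ν₀ ν δ d := by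
  classical
  -- a cofinal sequence of cardinals
  obtain ⟨a, haν, hacof⟩ : ∃ a : ℕ → Cardinal.{0}, (∀ n, a n < ν) ∧
      ∀ b < ν, ∃ n, b ≤ a n := by
    obtain ⟨ι, g, hg, hι⟩ := Ordinal.exists_lsub_cof ν.ord
    rw [hcof] at hι
    obtain ⟨hden⟩ := Cardinal.denumerable_iff.2 hι
    let e : ℕ ≃ ι := (Denumerable.eqv ι).symm
    have hgl : ∀ i, g i < ν.ord := fun i => hg ▸ Ordinal.lt_lsub g i
    refine ⟨fun n => (g (e n)).card, fun n => card_lt_of_lt_ord (hgl _), ?_⟩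
    intro b hb
    have h1 : b.ord < ν.ord := Cardinal.ord_lt_ord.2 hb
    obtain ⟨i, hi⟩ : ∃ i, b.ord ≤ g i := by
      by_contra hcon
      push Not at hcon
      have : Ordinal.lsub g ≤ b.ord := Ordinal.lsub_le hcon
      rw [hg] at this
      exact absurd h1 (not_lt.2 this)
    refine ⟨e.symm i, ?_⟩
    have : b ≤ (g i).card := Cardinal.ord_le.1 hi
    simpa using this
  choose! c hc1 hc2 hc3 hc4 hc5 using T.PICK_step hY
  -- recursion
  let d : ℕ → Cardinal.{0} := fun n =>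
    Nat.rec (c (a 0)) (fun n x => c (max (a (n + 1)) (succ x))) n
  have hdν : ∀ n, d n < ν := by
    intro n
    induction n with
    | zero => exact hc2 _ (haν 0)
    | succ n ih => exact hc2 _ (max_lt (haν _) (T.lim.2.2 _ ih))
  have hdsucc : ∀ n, d (n + 1) = c (max (a (n + 1)) (succ (d n))) := fun n => rfl
  have harg : ∀ n, max (a (n + 1)) (succ (d n)) < ν :=
    fun n => max_lt (haν _) (T.lim.2.2 _ (hdν n))
  have hda : ∀ n, a n ≤ d n := by
    intro n
    cases n with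
    | zero => exact hc1 _ (haν 0)
    | succ n => exact (le_max_left _ _).trans (hc1 _ (harg n))
  have hmono : StrictMono d := strictMono_nat_of_lt_succ fun n =>
    (lt_succ (d n)).trans_le ((le_max_right _ _).trans (hc1 _ (harg n)))
  refine ⟨d, hmono, ?_, hdν, ?_, ?_, ?_⟩
  · intro n
    cases n with
    | zero => exact hc3 _ (haν 0)
    | succ n => exact hc3 _ (harg n)
  · intro b hb
    obtain ⟨n, hn⟩ := hacof b hb
    filter_upwards [eventually_ge_atTop n] with m hm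
    exact hn.trans ((hda n).trans (hmono.monotone hm))
  · intro n
    cases n with
    | zero => exact hc4 _ (haν 0)
    | succ n => exact hc4 _ (harg n)
  · intro n
    cases n with
    | zero => exact hc5 _ (haν 0)
    | succ n => exact hc5 _ (harg n)

end Pool.Agent.STP
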