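import Pool.Agent.STP.Eub
import Pool.Agent.STP.CofLarge

/-!
Module ROOT: section 2 of the text.
-/

open Cardinal Ordinal Order Set Filter

namespace Pool.Agent.STP

/-- the sequence of section 2 -/
noncomputable def Root_seq (z : Ordinal.{0} → Ordinal.{0} → Ordinal.{0}) (b : Cardinal.{0})
    (γ : Ordinal.{0}) : Ordinal.{0} :=
  ssup (range fun t : {γ' : Ordinal.{0} // γ' < γ ∧ z γ γ' < b.ord} => Root_seq z b t.1)
termination_by γ
decreasing_by exact t.2.1

theorem Root_card {b : Cardinal.{0}}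
    {z : Ordinal.{0} → Ordinal.{0} → Ordinal.{0}} (hz : IsZ z) (γ : Ordinal.{0})
    (g : {γ' : Ordinal.{0} // γ' < γ ∧ z γ γ' < b.ord} → Ordinal.{0}) :
    #(range g) ≤ up b := by
  refine mk_range_le.trans ?_
  rw [← mk_Iio_ord b]
  refine Cardinal.mk_le_of_injective (f := fun t => ⟨z γ t.1, t.2.2⟩) ?_
  intro t t' h
  exact Subtype.ext (hz.inj γ _ _ t.2.1 t'.2.1 (congrArg Subtype.val h))

/-- an increasing sequence of length `ν⁺` exists (ZFC diagonalisation) -/
theorem exists_inc {κ χ ν₀ μ ν : Cardinal.{0}} (S : Setup κ χ ν₀ μ) (hν : Lim ν₀ μ ν)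
    {z : Ordinal.{0} → Ordinal.{0} → Ordinal.{0}} (hz : IsZ z) : ∃ s, IsInc ν₀ ν s := by
  refine ⟨fun γ b => Root_seq z b γ, ?_, ?_⟩
  · intro γ hγ b hb hb'
    induction γ using WellFoundedLT.induction with
    | _ γ ih =>
      rw [Root_seq]
      refine ssup_lt_of_regular (S.succ_regular hb) ?_ ?_
      · refine (Root_card hz γ _).trans_lt ?_
        exact Cardinal.lift_lt.2 (Order.lt_succ b)
      · rintro _ ⟨t, rfl⟩
        exact ih t.1 t.2.1 (t.2.1.trans hγ)
  · intro γ γ' h hγ'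
    filter_upwards [z_eventually S hν hz h hγ'] with b hb
    show Root_seq z b γ < Root_seq z b γ'
    conv_rhs => rw [Root_seq]
    refine lt_ssup (small_of_mk_le (Root_card hz γ' _)) ?_
    exact ⟨⟨γ, h, hb⟩, rfl⟩

theorem Root_fund {δ : Ordinal.{0}} {c : Cardinal.{0}} (h : δ.cof = c) :
    ∃ E : Ordinal.{0} → Ordinal.{0}, (∀ i < c.ord, E i < δ) ∧
      (∀ i j, i ≤ j → j < c.ord → E i ≤ E j) ∧ ∀ α < δ, ∃ i < c.ord, α ≤ E i := by
  classical
  obtain ⟨e, he⟩ := Ordinal.exists_isFundamentalSeq (o := δ) (a := c.ord) (by rw [h])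
  refine ⟨fun i => if h : i < c.ord then (e ⟨i, h⟩ : Ordinal.{0}) else 0, ?_, ?_, ?_⟩
  · intro i hi
    simp only [hi, dite_true]
    exact (e ⟨i, hi⟩).2
  · intro i j hij hj
    have hi := hij.trans_lt hj
    simp only [hi, hj, dite_true]
    exact he.strictMono.monotone (Subtype.mk_le_mk.2 hij)
  · intro α hα
    obtain ⟨_, ⟨i, rfl⟩, hi⟩ := he.isCofinal_range ⟨α, hα⟩
    refine ⟨i.1, i.2, ?_⟩
    have h2 : i.1 < c.ord := i.2
    simp only [h2, dite_true]
    exact hi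

theorem exists_root {κ χ ν₀ μ ν : Cardinal.{0}} (S : Setup κ χ ν₀ μ) (hν : Lim ν₀ μ ν)
    {z : Ordinal.{0} → Ordinal.{0} → Ordinal.{0}} (hz : IsZ z)
    (IH : ∀ ν' < ν, Lim ν₀ μ ν' → ∃ F, IsScale ν₀ ν' F) : ∃ l f, IsRoot ν₀ ν l f := by
  classical
  obtain ⟨s, hs⟩ := exists_inc S hν hz
  obtain ⟨δ, hδ⟩ := exists_eub S hν hs
  have hcof := cof_large S hν IH hs hδ
  have hνν : ν₀ < ν := hν.1
  have key : ∀ᶠ b in near ν, ∃ c, ν₀ ≤ c ∧ c < ν ∧ (δ b).cof = succ c := by
    filter_upwards [near_lt ν, near_ge hνν, hcof ν₀ hνν] with b h1 h2 h3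
    refine hν.regular_succ S (r := (δ b).cof) ?_ h3 ?_
    · refine ⟨S.aleph0_le_ν₀.trans h3.le, ?_⟩
      rw [Ordinal.cof_ord_cof]
    · have h4 : (δ b).card ≤ (succ b).ord.card := Ordinal.card_le_card (hδ.le b h2 h1)
      rw [Cardinal.card_ord] at h4
      exact ((Ordinal.cof_le_card _).trans h4).trans_lt (hν.2.2 b h1)
  -- the data
  let P : Cardinal.{0} → Prop := fun b => ∃ c, ν₀ ≤ c ∧ c < ν ∧ (δ b).cof = succ c
  let l : Cardinal.{0} → Cardinal.{0} := fun b => if h : P b then h.choose else ν₀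
  have hl1 : ∀ b, ν₀ ≤ l b := by
    intro b
    by_cases h : P b
    · simp only [l, h, dite_true]; exact h.choose_spec.1
    · simp only [l, h, dite_false]; exact le_rfl
  have hl2 : ∀ b, l b < ν := by
    intro b
    by_cases h : P b
    · simp only [l, h, dite_true]; exact h.choose_spec.2.1
    · simp only [l, h, dite_false]; exact hνν
  have hl3 : ∀ b, P b → (δ b).cof = succ (l b) := by
    intro b h
    simp only [l, h, dite_true]; exact h.choose_spec.2.2
  have hE : ∀ b, ∃ E : Ordinal.{0} → Ordinal.{0}, P b → (∀ i < (succ (l b)).ord, E i < δ b) ∧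
      (∀ i j, i ≤ j → j < (succ (l b)).ord → E i ≤ E j) ∧
        ∀ α < δ b, ∃ i < (succ (l b)).ord, α ≤ E i := by
    intro b
    by_cases h : P b
    · obtain ⟨E, hE⟩ := Root_fund (hl3 b h)
      exact ⟨E, fun _ => hE⟩
    · exact ⟨fun _ => 0, fun h' => absurd h' h⟩
  choose E hE using hE
  let A : Ordinal.{0} → Cardinal.{0} → Set Ordinal.{0} := fun γ b =>
    {i | i < (succ (l b)).ord ∧ s γ b ≤ E b i}
  let f : Ordinal.{0} → Cardinal.{0} → Ordinal.{0} := fun γ b =>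
    if (A γ b).Nonempty then sInf (A γ b) else 0
  have hf : ∀ γ b, (A γ b).Nonempty → f γ b ∈ A γ b := by
    intro γ b h
    simp only [f, h, if_true]
    exact csInf_mem h
  have hpos : ∀ b, (0 : Ordinal.{0}) < (succ (l b)).ord := by
    intro b
    rw [← Cardinal.ord_zero, Cardinal.ord_lt_ord]
    exact bot_lt_iff_ne_bot.2 (Order.succ_ne_bot _)
  refine ⟨l, f, hl1, hl2, ?_, ?_, ?_⟩
  · intro b' hb'
    filter_upwards [key, hcof b' hb'] with b h1 h2
    rw [hl3 b h1] at h2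
    exact Order.lt_succ_iff.1 h2
  · intro γ b
    by_cases h : (A γ b).Nonempty
    · exact (hf γ b h).1
    · simp only [f, h, if_false]
      exact hpos b
  · intro g hg
    obtain ⟨γ, hγ, hγ2⟩ := hδ.exa (fun b => E b (g b))
    refine ⟨γ, hγ, ?_⟩
    filter_upwards [key, hγ2, hδ.ub γ hγ] with b h1 h2 h3
    obtain ⟨e1, e2, e3⟩ := hE b h1
    have h4 := h2 (e1 _ (hg b))
    have hne : (A γ b).Nonempty := by
      obtain ⟨i, hi, hi2⟩ := e3 _ h3
      exact ⟨i, hi, hi2⟩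
    by_contra hcon
    rw [not_lt] at hcon
    have h5 := (hf γ b hne).2
    exact absurd (h5.trans (e2 _ _ hcon (hg b))) (not_le.2 h4)

end Pool.Agent.STP
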