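import Pool.Agent.STP.LSing

/-!
Module UNCCASE: section 6a of the text (cofinality of `ν` uncountable).
-/

open Cardinal Ordinal Order Set Filter

namespace Pool.Agent.STP

theorem Stage.unc_case {κ χ ν₀ μ ν : Cardinal.{0}} {z F l f M s δ}
    (T : Stage κ χ ν₀ μ ν z F l f M s δ) (hcof : ℵ₀ < ν.ord.cof) :
    ∀ᶠ b in near ν, δ b = (succ b).ord := by
  classical
  by_contra hcon
  have hfr : ∃ᶠ b in near ν, δ b ≠ (succ b).ord := Filter.not_eventually.1 hcon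
  have hpos : 0 < ν := T.lim.pos
  have hνν : ν₀ < ν := T.lim.1
  rw [near_frequently_iff hpos] at hfr
  obtain ⟨b₁, hb₁, hsing⟩ := (near_iff hpos).1 T.lsing
  have step : ∀ b : {b : Cardinal.{0} // b < ν}, ∃ b' : {b : Cardinal.{0} // b < ν},
      b.1 < b'.1 ∧ δ b'.1 ≠ (succ b'.1).ord ∧ ∀ c, b'.1 ≤ c → c < ν → b.1 < (δ c).cof := by
    rintro ⟨b, hb⟩
    obtain ⟨c₀, hc₀, h1⟩ := (near_iff hpos).1 (T.cof b hb)
    obtain ⟨b', h2, h3, h4⟩ := hfr (max c₀ (succ b)) (max_lt hc₀ (T.lim.2.2 b hb))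
    refine ⟨⟨b', h3⟩, ?_, h4, ?_⟩
    · exact (Order.lt_succ b).trans_le ((le_max_right _ _).trans h2)
    · intro c hc hc'
      exact h1 c (((le_max_left _ _).trans h2).trans hc) hc'
  choose g hg using step
  let D : ℕ → {b : Cardinal.{0} // b < ν} := fun n =>
    Nat.rec ⟨max b₁ ν₀, max_lt hb₁ hνν⟩ (fun _ b => g b) n
  have hD : ∀ n, D (n + 1) = g (D n) := fun n => rfl
  have hD1 : ∀ n, (D n).1 < (D (n + 1)).1 := fun n => by rw [hD]; exact (hg (D n)).1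
  have hD2 : ∀ n, δ (D (n + 1)).1 ≠ (succ (D (n + 1)).1).ord := fun n => by
    rw [hD]; exact (hg (D n)).2.1
  have hD3 : ∀ n c, (D (n + 1)).1 ≤ c → c < ν → (D n).1 < (δ c).cof := fun n => by
    rw [hD]; exact (hg (D n)).2.2
  set ν' : Cardinal.{0} := ⨆ n, (D n).1 with hν'
  have hbdd : BddAbove (range fun n => (D n).1) := by
    refine ⟨ν, ?_⟩
    rintro _ ⟨n, rfl⟩
    exact (D n).2.le
  have hle : ∀ n, (D n).1 ≤ ν' := fun n => le_ciSup hbdd n
  have hlt : ∀ n, (D n).1 < ν' := fun n => (hD1 n).trans_le (hle (n + 1))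
  have hνlt : ν' < ν := by
    refine Cardinal.iSup_lt_of_lt_cof_ord ?_ (fun n => (D n).2)
    rw [Cardinal.mk_nat]
    exact hcof
  have h0 : (D 0).1 = max b₁ ν₀ := rfl
  have hlim : Lim ν₀ μ ν' := by
    refine ⟨?_, hνlt.le.trans T.lim.2.1, ?_⟩
    · exact (le_max_right b₁ ν₀).trans_lt (h0 ▸ hlt 0)
    · intro b hb
      obtain ⟨n, hn⟩ := exists_lt_of_lt_ciSup hb
      exact (Order.succ_le_of_lt hn).trans_lt (hlt n)
  have hb₁' : b₁ ≤ ν' := (le_max_left b₁ ν₀).trans (h0 ▸ hle 0)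
  -- `ν'` is not in `T`
  have hne : δ ν' ≠ (succ ν').ord := by
    intro heq
    obtain ⟨b₀, hb₀, hall⟩ := hsing ν' hb₁' hνlt hlim heq
    obtain ⟨n, hn⟩ := exists_lt_of_lt_ciSup hb₀
    exact hD2 n (hall _ (hn.le.trans (hD1 n).le) (hlt (n + 1)))
  have hlt2 : δ ν' < (succ ν').ord := lt_of_le_of_ne (T.eub.le ν' hlim.1.le hνlt) hne
  have hcard : (δ ν').cof ≤ ν' :=
    (Ordinal.cof_le_card _).trans (card_le_of_lt_succ_ord hlt2)
  have hge : ν' ≤ (δ ν').cof := by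
    refine ciSup_le fun n => ?_
    exact (hD3 n ν' (hle (n + 1)) hνlt).le
  have heq : (δ ν').cof = ν' := le_antisymm hcard hge
  refine hlim.not_regular T.setup ⟨?_, ?_⟩
  · exact T.setup.aleph0_le_ν₀.trans hlim.1.le
  · have h := Ordinal.cof_ord_cof (δ ν')
    rw [heq] at h
    exact h.ge

end Pool.Agent.STP
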