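import Pool.Agent.STP.StageEx
import Pool.Agent.STP.UncCase
import Pool.Agent.STP.Pick
import Pool.Agent.STP.LSucc

/-!
Module SCALEEX: Theorem A of the text.
-/

open Cardinal Ordinal Order Set Filter

namespace Pool.Agent.STP

theorem Stage.all_tall {κ χ ν₀ μ ν : Cardinal.{0}} {z F l f M s δ}
    (T : Stage κ χ ν₀ μ ν z F l f M s δ) (hTP : StrongTP κ) :
    ∀ᶠ b in near ν, δ b = (succ b).ord := by
  rcases lt_or_ge ℵ₀ ν.ord.cof with h | h
  · exact T.unc_case h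
  · by_contra hY
    have hcof : ν.ord.cof = ℵ₀ := by
      refine le_antisymm h ?_
      rw [Ordinal.aleph0_le_cof_iff, Ordinal.one_lt_cof_iff]
      exact T.lim.ord_isSuccLimit T.setup
    obtain ⟨d, hd⟩ := T.exists_seq hcof (by rwa [Filter.not_eventually] at hY)
    exact T.lsucc hTP hd

theorem Stage.isScale {κ χ ν₀ μ ν : Cardinal.{0}} {z F l f M s δ}
    (T : Stage κ χ ν₀ μ ν z F l f M s δ) (h : ∀ᶠ b in near ν, δ b = (succ b).ord) :
    IsScale ν₀ ν s := by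
  refine ⟨T.inc.lt, ?_, ?_⟩
  · intro ξ ξ' h1 h2
    rcases h1.eq_or_lt with rfl | h1
    · exact Filter.Eventually.of_forall fun b => le_rfl
    · exact (T.inc.inc ξ ξ' h1 h2).mono fun b hb => hb.le
  · intro g hg
    obtain ⟨γ, hγ, h1⟩ := T.eub.exa g
    refine ⟨γ, hγ, ?_⟩
    filter_upwards [h1, h, near_lt ν, near_ge T.lim.1] with b hb1 hb2 hb3 hb4
    exact (hb1 (hb2 ▸ hg b hb4 hb3)).le

theorem exists_scale {κ χ ν₀ μ : Cardinal.{0}} (S : Setup κ χ ν₀ μ) (hTP : StrongTP κ) :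
    ∀ ν, Lim ν₀ μ ν → ∃ F, IsScale ν₀ ν F := by
  intro ν
  induction ν using WellFoundedLT.induction with
  | ind ν IH =>
    intro hν
    obtain ⟨z, F, l, f, M, s, δ, T⟩ := exists_stage S hν IH
    exact ⟨s, T.isScale (T.all_tall hTP)⟩

end Pool.Agent.STP
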