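import Pool.Agent.STP.Root
import Pool.Agent.STP.Hull

/-!
Module STAGE: assembling sections 0-3.
-/

open Cardinal Ordinal Order Set Filter

namespace Pool.Agent.STP

theorem exists_stage {κ χ ν₀ μ ν : Cardinal.{0}} (S : Setup κ χ ν₀ μ) (hν : Lim ν₀ μ ν)
    (IH : ∀ ν' < ν, Lim ν₀ μ ν' → ∃ F, IsScale ν₀ ν' F) :
    ∃ z F l f M s δ, Stage κ χ ν₀ μ ν z F l f M s δ := by
  classical
  obtain ⟨z, hz⟩ := exists_isZ
  have hF : ∀ ν' : Cardinal.{0}, ∃ F : Ordinal.{0} → Cardinal.{0} → Ordinal.{0},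
      ν' < ν → Lim ν₀ μ ν' → IsScale ν₀ ν' F := by
    intro ν'
    by_cases h : ν' < ν ∧ Lim ν₀ μ ν'
    · obtain ⟨F, hF⟩ := IH ν' h.1 h.2
      exact ⟨F, fun _ _ => hF⟩
    · exact ⟨fun _ _ => 0, fun h1 h2 => absurd ⟨h1, h2⟩ h⟩
  choose F hF using hF
  obtain ⟨l, f, hR⟩ := exists_root S hν hz IH
  let P := ((Ico ν₀ μ × Ico ν₀ μ) ⊕ (Ico ν₀ μ) : Type 1)
  have hχ : ℵ₀ ≤ up χ := by
    have := S.aleph0_le_χ
    simpa [up] using this
  have hP : #P ≤ up ν₀ := by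
    have h1 : #P = #(Ico ν₀ μ) * #(Ico ν₀ μ) + #(Ico ν₀ μ) := by simp [P]
    rw [h1]
    have h2 : #(Ico ν₀ μ) * #(Ico ν₀ μ) + #(Ico ν₀ μ) ≤ up χ * up χ + up χ :=
      add_le_add (mul_le_mul' S.few S.few) S.few
    refine h2.trans ?_
    rw [Cardinal.mul_eq_self hχ, Cardinal.add_eq_self hχ]
    exact Cardinal.lift_le.2 S.χ_lt.le
  let u : P → Ordinal.{0} → Ordinal.{0} := Sum.elim
    (fun p ξ => F p.1 ξ p.2) (fun c γ => f γ c)
  obtain ⟨M, s, hH⟩ := exists_hull S hν hz hP u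
  have hinc : IsInc ν₀ ν s := by
    refine ⟨hH.lt, ?_⟩
    intro γ γ' h h'
    filter_upwards [z_eventually S hν hz h h', near_lt ν, near_ge hν.1] with b h1 h2 h3
    have h4 := hH.smem γ' h' b h3 h2 γ h h1 b h3 h2
    exact (hH.mem γ' h' b h3 h2 _ (hH.lt γ (h.trans h') b h3 h2)).1 h4
  obtain ⟨δ, hδ⟩ := exists_eub S hν hinc
  refine ⟨z, F, l, f, M, s, δ, ?_⟩
  exact
    { setup := S
      lim := hν
      isz := hz
      scale := fun ν' h h' => hF ν' h h'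
      root := hR
      inc := hinc
      eub := hδ
      cof := cof_large S hν IH hinc hδ
      mem := hH.mem
      zmem := hH.zmem
      sup := hH.sup
      Fmem := by
        intro γ hγ b hb hb' ν' hν' hL ξ hξ c hc hc'
        exact hH.una γ hγ b hb hb'
          (Sum.inl (⟨ν', hL.1.le, hν'.trans_le hν.2.1⟩,
            ⟨c, hc, (hc'.trans hν').trans_le hν.2.1⟩)) ξ hξ
      fmem := by
        intro γ hγ b hb hb' c hc hc'
        exact hH.una γ hγ b hb hb' (Sum.inr ⟨c, hc, hc'.trans_le hν.2.1⟩) γ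
          (hH.self γ hγ b hb hb')
      mono := hH.mono
      smem := hH.smem }

end Pool.Agent.STP
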