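import Pool.Agent.STP.Basic

/-!
Module TALL: section 4 of the text.
-/

open Cardinal Ordinal Order Set Filter

namespace Pool.Agent.STP

theorem Stage.tall {κ χ ν₀ μ ν : Cardinal.{0}} {z F l f M s δ}
    (T : Stage κ χ ν₀ μ ν z F l f M s δ) : ∃ᶠ b in near ν, δ b = (succ b).ord := by
  have hpos : 0 < ν := T.lim.pos
  have := near_neBot hpos
  intro hcon
  obtain ⟨b₀, hb₀, H⟩ := (near_iff hpos).1 hcon
  classical
  set g : Cardinal.{0} → Ordinal.{0} := fun b => if δ (l b) < (succ (l b)).ord then δ (l b) else 0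
    with hg
  have hglt : ∀ b, g b < (succ (l b)).ord := by
    intro b
    by_cases h : δ (l b) < (succ (l b)).ord
    · simp only [hg, if_pos h]; exact h
    · simp only [hg, if_neg h]
      rw [Cardinal.lt_ord, Ordinal.card_zero]
      exact lt_of_le_of_lt zero_le (lt_succ _)
  obtain ⟨γ, hγ, hcof⟩ := T.root.cofinal g hglt
  have h1 : ∀ᶠ b in near ν, s γ b < δ b := T.eub.ub γ hγ
  obtain ⟨b₁, hb₁, H1⟩ := (near_iff hpos).1 h1
  obtain ⟨b, hbν, hb0, hb1, hfb, hν₀⟩ :=
    ((near_lt ν).and ((T.root.l_tend b₀ hb₀).and ((T.root.l_tend b₁ hb₁).and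
      (hcof.and (near_ge T.lim.1))))).exists
  have hlge : ν₀ ≤ l b := T.root.l_ge b
  have hllt : l b < ν := T.root.l_lt b
  have hne : δ (l b) ≠ (succ (l b)).ord := H (l b) hb0 hllt
  have hlt : δ (l b) < (succ (l b)).ord := lt_of_le_of_ne (T.eub.le (l b) hlge hllt) hne
  have hgb : g b = δ (l b) := by simp only [hg, if_pos hlt]
  rw [hgb] at hfb
  have hmem : f γ b ∈ M γ (l b) := T.fmem γ hγ (l b) hlge hllt b hν₀ hbν
  have h2 : f γ b < s γ (l b) := (T.mem γ hγ (l b) hlge hllt (f γ b) (T.root.f_lt γ b)).1 hmem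
  have h3 : s γ (l b) < δ (l b) := H1 (l b) hb1 hllt
  exact lt_irrefl _ (hfb.trans (h2.trans h3))

end Pool.Agent.STP
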