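import Pool.Agent.STP.Basic

/-!
Module TRANSFER: the strong tree property for lists on arbitrary small index sets in `Type 1`.
-/

open Cardinal Ordinal Order Set Filter

namespace Pool.Agent.STP

/-- the cardinality of a preimage under an equivalence of types in different universes -/
theorem mk_preimage_equiv {X : Type 1} {Y : Type} (e : X ≃ Y) (y : Set Y) :
    #(e ⁻¹' y) = up #y := by
  have h : Cardinal.lift.{0} #(e ⁻¹' y) = Cardinal.lift.{1} #y :=
    Cardinal.lift_mk_eq'.2 ⟨(e.image (e ⁻¹' y)).trans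
      (Equiv.setCongr (by rw [e.image_preimage]))⟩
  exact (Cardinal.lift_uzero _).symm.trans h

theorem StrongTP.transfer {κ : Cardinal.{0}} (h : StrongTP κ) {X : Type 1} (hsm : Small.{0} X)
    (hX : up κ ≤ #X) (d : Set X → Set X) (hd : ∀ x : Set X, #x < up κ → d x ⊆ x)
    (thin : ∀ y : Set X, #y < up κ →
      #{t : Set X | ∃ x : Set X, #x < up κ ∧ y ⊆ x ∧ t = d x ∩ y} < up κ) :
    ∃ b : Set X, ∀ y : Set X, #y < up κ → ∃ x : Set X, #x < up κ ∧ y ⊆ x ∧ b ∩ y = d x ∩ y := by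
  classical
  set l : Cardinal.{0} := #(Shrink.{0} X) with hl
  have hupl : up l = #X := by
    rw [hl]
    exact Cardinal.lift_mk_shrink'' X
  have hκl : κ ≤ l := by
    rw [← hupl] at hX
    exact Cardinal.lift_le.1 hX
  have hcard : #(Shrink.{0} X) = #(l.ord.ToType) := by
    rw [Cardinal.mk_toType, Cardinal.card_ord]
  obtain ⟨e₀⟩ := Cardinal.eq.1 hcard
  let e : X ≃ l.ord.ToType := (equivShrink X).trans e₀
  have hpre : ∀ y : Set l.ord.ToType, #y < κ ↔ #(e ⁻¹' y) < up κ := by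
    intro y
    rw [mk_preimage_equiv e y]
    exact Cardinal.lift_lt.symm
  let d' : Set l.ord.ToType → Set l.ord.ToType := fun y => e.symm ⁻¹' (d (e ⁻¹' y))
  have hpre' : ∀ A : Set X, e ⁻¹' (e.symm ⁻¹' A) = A := by
    intro A
    ext a
    simp
  have hpre'' : ∀ A : Set l.ord.ToType, e.symm ⁻¹' (e ⁻¹' A) = A := by
    intro A
    ext a
    simp
  have hlist : IsThinList κ d' := by
    constructor
    · intro x hx t ht
      have h1 := hd _ ((hpre x).1 hx) ht
      simpa using h1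
    · intro y hy
      have h1 := thin (e ⁻¹' y) ((hpre y).1 hy)
      rw [← Cardinal.lift_lt.{0, 1}]
      refine lt_of_le_of_lt ?_ h1
      have h2 : Cardinal.lift.{1} #{t : Set l.ord.ToType | ∃ x : Set l.ord.ToType,
            #x < κ ∧ y ⊆ x ∧ t = d' x ∩ y} ≤
          Cardinal.lift.{0} #{t : Set X | ∃ x : Set X, #x < up κ ∧ e ⁻¹' y ⊆ x ∧
            t = d x ∩ e ⁻¹' y} := by
        rw [Cardinal.lift_mk_le']
        refine ⟨⟨fun t => ⟨e ⁻¹' t.1, ?_⟩, ?_⟩⟩
        · obtain ⟨t, x, hx, hyx, rfl⟩ := t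
          refine ⟨e ⁻¹' x, (hpre x).1 hx, preimage_mono hyx, ?_⟩
          rw [preimage_inter, hpre']
        · intro t t' htt
          have h3 : e ⁻¹' t.1 = e ⁻¹' t'.1 := congrArg Subtype.val htt
          apply Subtype.ext
          rw [← hpre'' t.1, ← hpre'' t'.1, h3]
      exact h2.trans (Cardinal.lift_uzero _).le
  obtain ⟨b', hb'⟩ := h l hκl d' hlist
  refine ⟨e ⁻¹' b', ?_⟩
  intro y hy
  have hy' : #(e.symm ⁻¹' y) < κ := by
    rw [hpre, hpre']
    exact hy
  obtain ⟨x', hx', hyx, hb⟩ := hb' _ hy'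
  refine ⟨e ⁻¹' x', (hpre x').1 hx', ?_, ?_⟩
  · have := preimage_mono (f := e) hyx
    rwa [hpre'] at this
  · have := congrArg (fun A => e ⁻¹' A) hb
    simp only [preimage_inter] at this
    rw [hpre'] at this
    rw [this]
    change e ⁻¹' (e.symm ⁻¹' d (e ⁻¹' x')) ∩ y = _
    rw [hpre']

end Pool.Agent.STP
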